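import Pool.Agent.H298Y.T2

/-!
# Arithmetic functions supported at one point, truncation, evaluation
-/

set_option autoImplicit false

namespace Pool.Agent.H298Y

open ArithmeticFunction Finset

section

variable {R : Type*} [CommRing R]

/-- the arithmetic function supported at `N` with value `c` -/
def dl (N : ℕ) (c : R) : ArithmeticFunction R := ⟨fun n => if n = N ∧ n ≠ 0 then c else 0, by simp⟩

lemma dl_apply (N : ℕ) (c : R) (n : ℕ) : dl N c n = if n = N ∧ n ≠ 0 then c else 0 := rfl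

lemma dl_one : dl 1 (1 : R) = 1 := by
  ext n
  rw [dl_apply, ArithmeticFunction.one_apply]
  by_cases hn : n = 1
  · subst hn; simp
  · simp [hn]

lemma dl_mul (N N' : ℕ) (hN : N ≠ 0) (hN' : N' ≠ 0) (c c' : R) :
    dl N c * dl N' c' = dl (N * N') (c * c') := by
  ext n
  rw [mul_apply, dl_apply]
  by_cases hn : n = N * N'
  · have hn0 : n ≠ 0 := by rw [hn]; exact mul_ne_zero hN hN'
    rw [if_pos ⟨hn, hn0⟩, Finset.sum_eq_single (N, N')]
    · rw [dl_apply, dl_apply, if_pos ⟨rfl, hN⟩, if_pos ⟨rfl, hN'⟩]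
    · rintro ⟨x, y⟩ _ hne
      simp only [dl_apply]
      by_cases hx : x = N
      · have hy : y ≠ N' := fun h => hne (by rw [hx, h])
        rw [if_neg (fun h => hy h.1 : ¬ (y = N' ∧ y ≠ 0)), mul_zero]
      · rw [if_neg (fun h => hx h.1 : ¬ (x = N ∧ x ≠ 0)), zero_mul]
    · intro h
      exact absurd (Nat.mem_divisorsAntidiagonal.2 ⟨hn.symm, hn0⟩) h
  · rw [if_neg (fun h => hn h.1)]
    refine Finset.sum_eq_zero ?_
    rintro ⟨x, y⟩ hxy
    obtain ⟨h1, _⟩ := Nat.mem_divisorsAntidiagonal.1 hxy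
    simp only [dl_apply] at h1 ⊢
    by_cases hx : x = N
    · have hy : y ≠ N' := fun h => hn (by rw [← h1, hx, h])
      rw [if_neg (fun h => hy h.1 : ¬ (y = N' ∧ y ≠ 0)), mul_zero]
    · rw [if_neg (fun h => hx h.1 : ¬ (x = N ∧ x ≠ 0)), zero_mul]

lemma dl_pow (N : ℕ) (hN : N ≠ 0) (c : R) (k : ℕ) : dl N c ^ k = dl (N ^ k) (c ^ k) := by
  induction k with
  | zero => rw [pow_zero, pow_zero, pow_zero, dl_one]
  | succ k ih => rw [pow_succ, ih, dl_mul _ _ (pow_ne_zero _ hN) hN, pow_succ, pow_succ]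

lemma dl_prod {ι : Type*} (A : Finset ι) (N : ι → ℕ) (hN : ∀ x ∈ A, N x ≠ 0) (c : ι → R) :
    ∏ x ∈ A, dl (N x) (c x) = dl (∏ x ∈ A, N x) (∏ x ∈ A, c x) := by
  classical
  induction A using Finset.induction_on with
  | empty => simp [dl_one]
  | insert a A ha ih =>
    rw [Finset.prod_insert ha, Finset.prod_insert ha, Finset.prod_insert ha,
      ih fun x hx => hN x (Finset.mem_insert_of_mem hx), dl_mul _ _
        (hN a (Finset.mem_insert_self _ _))
        (Finset.prod_ne_zero_iff.2 fun x hx => hN x (Finset.mem_insert_of_mem hx))]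

lemma sum_apply_af {ι : Type*} (s : Finset ι) (f : ι → ArithmeticFunction R) (n : ℕ) :
    (∑ i ∈ s, f i) n = ∑ i ∈ s, f i n := by
  classical
  induction s using Finset.induction_on with
  | empty => simp
  | insert a s ha ih =>
    rw [Finset.sum_insert ha, Finset.sum_insert ha, ArithmeticFunction.add_apply, ih]

lemma algebraMap_mul_apply' (r : R) (f : ArithmeticFunction R) (n : ℕ) :
    (algebraMap R (ArithmeticFunction R) r * f) n = r * f n := by
  rw [Algebra.algebraMap_eq_smul_one, smul_mul_assoc, one_mul, smul_map, smul_eq_mul]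

/-- the two functions agree up to `K` -/
def Agr (K : ℕ) (f g : ArithmeticFunction R) : Prop := ∀ n, n ≤ K → f n = g n

lemma Agr.refl (K : ℕ) (f : ArithmeticFunction R) : Agr K f f := fun _ _ => rfl

lemma Agr.add {K : ℕ} {f g f' g' : ArithmeticFunction R} (h : Agr K f g) (h' : Agr K f' g') :
    Agr K (f + f') (g + g') := fun n hn => by
  rw [ArithmeticFunction.add_apply, ArithmeticFunction.add_apply, h n hn, h' n hn]

lemma Agr.mul {K : ℕ} {f g f' g' : ArithmeticFunction R} (h : Agr K f g) (h' : Agr K f' g') :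
    Agr K (f * f') (g * g') := fun n hn => by
  rw [mul_apply, mul_apply]
  refine Finset.sum_congr rfl fun x hx => ?_
  obtain ⟨h1, h2⟩ := Nat.mem_divisorsAntidiagonal.1 hx
  have h3 : x.1 ≤ n := Nat.le_of_dvd (by omega) ⟨x.2, h1.symm⟩
  have h4 : x.2 ≤ n := Nat.le_of_dvd (by omega) ⟨x.1, by rw [mul_comm]; exact h1.symm⟩
  rw [h _ (h3.trans hn), h' _ (h4.trans hn)]

lemma Agr.eval₂ {σ k : Type*} [CommSemiring k] {K : ℕ} (f : k →+* ArithmeticFunction R)
    (z z' : σ → ArithmeticFunction R) (h : ∀ i, Agr K (z i) (z' i)) (P : MvPolynomial σ k) :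
    Agr K (MvPolynomial.eval₂ f z P) (MvPolynomial.eval₂ f z' P) := by
  induction P using MvPolynomial.induction_on with
  | C a => rw [MvPolynomial.eval₂_C, MvPolynomial.eval₂_C]; exact Agr.refl _ _
  | add p q hp hq => rw [MvPolynomial.eval₂_add, MvPolynomial.eval₂_add]; exact hp.add hq
  | mul_X p i hp =>
    rw [MvPolynomial.eval₂_mul, MvPolynomial.eval₂_mul, MvPolynomial.eval₂_X,
      MvPolynomial.eval₂_X]
    exact hp.mul (h i)


/-- truncation of the functions on powers -/
lemma agr_pwf (K v : ℕ) (hv : 1 ≤ v) (w : ℕ → R) :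
    Agr K (∑ k ∈ range K, dl ((k + 1) ^ v) (w (k + 1))) (pwf v w) := by
  intro N hN
  rw [sum_apply_af, pwf_apply]
  have h1 : ∑ n ∈ Finset.Icc 1 N, (if n ^ v = N then w n else 0) =
      ∑ k ∈ range N, if (k + 1) ^ v = N then w (k + 1) else 0 := by
    rw [← Finset.sum_image (s := range N) (g := fun k => k + 1)
      (f := fun n => if n ^ v = N then w n else 0) (by intro a _ b _ h; simpa using h)]
    refine Finset.sum_congr ?_ fun _ _ => rfl
    ext n
    simp only [Finset.mem_Icc, Finset.mem_image, Finset.mem_range]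
    constructor
    · rintro ⟨h1, h2⟩
      exact ⟨n - 1, by omega, by omega⟩
    · rintro ⟨k, hk, rfl⟩
      omega
  rw [h1]
  symm
  rw [← Finset.sum_subset (Finset.range_subset_range.2 hN)]
  · refine Finset.sum_congr rfl fun k hk => ?_
    rw [dl_apply]
    by_cases h : (k + 1) ^ v = N
    · rw [if_pos h, if_pos ⟨h.symm, by rw [← h]; positivity⟩]
    · rw [if_neg h, if_neg (fun h' => h h'.1.symm)]
  · intro k _ hk
    rw [Finset.mem_range, not_lt] at hk
    rw [dl_apply, if_neg]
    rintro ⟨h2, _⟩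
    have h3 : k + 1 ≤ (k + 1) ^ v := Nat.le_self_pow (by omega) _
    omega

end

section

variable {m : ℕ}

/-- the polynomial with the coefficients `c α`, `α ∈ A` -/
noncomputable def poly {k : Type*} [CommSemiring k] (A : Finset (Fin m →₀ ℕ))
    (c : (Fin m →₀ ℕ) → k) : MvPolynomial (Fin m) k :=
  ∑ α ∈ A, MvPolynomial.monomial α (c α)

lemma eval₂_poly {k S : Type*} [CommSemiring k] [CommSemiring S] (f : k →+* S) (z : Fin m → S)
    (A : Finset (Fin m →₀ ℕ)) (c : (Fin m →₀ ℕ) → k) :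
    MvPolynomial.eval₂ f z (poly A c) = ∑ α ∈ A, f (c α) * ∏ i, z i ^ α i := by
  unfold poly
  rw [MvPolynomial.eval₂_sum]
  refine Finset.sum_congr rfl fun α _ => ?_
  rw [MvPolynomial.eval₂_monomial, Finsupp.prod_fintype _ _ (fun i => pow_zero _)]

lemma coeff_poly {k : Type*} [CommSemiring k] (A : Finset (Fin m →₀ ℕ))
    (c : (Fin m →₀ ℕ) → k) (α : Fin m →₀ ℕ) (hα : α ∈ A) :
    MvPolynomial.coeff α (poly A c) = c α := by
  classical
  unfold poly
  rw [MvPolynomial.coeff_sum, Finset.sum_eq_single α]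
  · rw [MvPolynomial.coeff_monomial, if_pos rfl]
  · intro β _ hβ
    rw [MvPolynomial.coeff_monomial, if_neg hβ]
  · intro h
    exact absurd hα h

end

end Pool.Agent.H298Y
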