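import Pool.Agent.H298Y.GMain

/-!
# `π` and almost all tuples of zeta values
-/

set_option autoImplicit false

namespace Pool.Agent.H298Y

open MeasureTheory Filter Topology

section

variable {m : ℕ}

/-- a hyperplane of coincidence -/
def hyp (a b : Fin m → ℕ) : Set (Fin m → ℝ) :=
  {ρ | ∑ i, ρ i * Real.log (a i) = ∑ i, ρ i * Real.log (b i)}

lemma hyp_null (a b : Fin m → ℕ) (ha : ∀ i, a i ≠ 0) (hb : ∀ i, b i ≠ 0) (hab : a ≠ b) :
    volume (hyp a b) = 0 := by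
  classical
  obtain ⟨f, hf⟩ : ∃ f : (Fin m → ℝ) →ₗ[ℝ] ℝ, ∀ ρ, f ρ =
      ∑ i, ρ i * (Real.log (a i) - Real.log (b i)) := by
    refine ⟨∑ i, (Real.log (a i) - Real.log (b i)) • LinearMap.proj i, fun ρ => ?_⟩
    rw [LinearMap.sum_apply]
    refine Finset.sum_congr rfl fun i _ => ?_
    rw [LinearMap.smul_apply, LinearMap.proj_apply, smul_eq_mul, mul_comm]
  have h1 : hyp a b = (LinearMap.ker f : Set (Fin m → ℝ)) := by
    ext ρ
    rw [SetLike.mem_coe, LinearMap.mem_ker, hf]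
    show ∑ i, ρ i * Real.log (a i) = ∑ i, ρ i * Real.log (b i) ↔ _
    rw [← sub_eq_zero, ← Finset.sum_sub_distrib]
    simp only [mul_sub]
  have h2 : LinearMap.ker f ≠ ⊤ := by
    intro h
    obtain ⟨i, hi⟩ := Function.ne_iff.1 hab
    have h3 : f (Pi.single i 1) = 0 := by
      have : (Pi.single i 1 : Fin m → ℝ) ∈ LinearMap.ker f := by rw [h]; trivial
      exact this
    rw [hf, Finset.sum_eq_single i] at h3
    · rw [Pi.single_eq_same, one_mul, sub_eq_zero] at h3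
      have hpa : (0 : ℝ) < (a i : ℝ) := by exact_mod_cast Nat.pos_of_ne_zero (ha i)
      have hpb : (0 : ℝ) < (b i : ℝ) := by exact_mod_cast Nat.pos_of_ne_zero (hb i)
      have h4 := Real.log_injOn_pos hpa hpb h3
      exact hi (by exact_mod_cast h4)
    · intro j _ hj
      rw [Pi.single_eq_of_ne hj, zero_mul]
    · intro h4
      exact absurd (Finset.mem_univ i) h4
  rw [h1]
  exact Measure.addHaar_submodule volume _ h2

lemma hyp_closed (a b : Fin m → ℕ) : IsClosed (hyp a b) := by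
  refine isClosed_eq ?_ ?_
  · exact continuous_finset_sum _ fun i _ => (continuous_apply i).mul continuous_const
  · exact continuous_finset_sum _ fun i _ => (continuous_apply i).mul continuous_const

/-- a large compact set of directions without coincidences -/
lemma exists_compact (m R : ℕ) (ε : ℝ) (hε : 0 < ε) : ∃ 𝒦 : Set (Fin m → ℝ), IsCompact 𝒦 ∧
    (∀ ρ ∈ 𝒦, ∀ i, 0 < ρ i) ∧ (∀ ρ ∈ 𝒦, Good ρ) ∧
    volume (Set.Icc (fun _ => (1 : ℝ)) (fun _ => (R : ℝ) + 1) \ 𝒦) < ENNReal.ofReal ε := by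
  classical
  obtain ⟨N, hN⟩ : ∃ N : Set (Fin m → ℝ), N = ⋃ ab : {ab : (Fin m → ℕ) × (Fin m → ℕ) //
      (∀ i, ab.1 i ≠ 0) ∧ (∀ i, ab.2 i ≠ 0) ∧ ab.1 ≠ ab.2}, hyp ab.1.1 ab.1.2 := ⟨_, rfl⟩
  have hN0 : volume N = 0 := by
    rw [hN]
    exact measure_iUnion_null fun ab => hyp_null _ _ ab.2.1 ab.2.2.1 ab.2.2.2
  have hNm : MeasurableSet N := by
    rw [hN]
    exact MeasurableSet.iUnion fun ab => (hyp_closed _ _).measurableSet
  obtain ⟨I, hI⟩ : ∃ I : Set (Fin m → ℝ), I = Set.Icc (fun _ => (1 : ℝ)) (fun _ => (R : ℝ) + 1) :=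
    ⟨_, rfl⟩
  have hIc : IsCompact I := by rw [hI]; exact isCompact_Icc
  have hIm : MeasurableSet I := hIc.measurableSet
  have hA : MeasurableSet (I \ N) := hIm.diff hNm
  have hAfin : volume (I \ N) ≠ ⊤ :=
    ((measure_mono Set.diff_subset).trans_lt hIc.measure_lt_top).ne
  obtain ⟨K, hKA, hKc, hK⟩ := hA.exists_isCompact_diff_lt hAfin
    (ENNReal.ofReal_pos.2 hε).ne'
  refine ⟨K, hKc, ?_, ?_, ?_⟩
  · intro ρ hρ i
    have h1 := (hKA hρ).1
    rw [hI] at h1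
    have h2 : (1 : ℝ) ≤ ρ i := h1.1 i
    linarith
  · intro ρ hρ a b ha hb hab p _
    by_cases h : a = b
    · rw [h]
    · exfalso
      refine (hKA hρ).2 ?_
      rw [hN, Set.mem_iUnion]
      exact ⟨⟨(a, b), ha, hb, h⟩, hab⟩
  · rw [← hI]
    have h1 : I \ K ⊆ (I \ N) \ K ∪ N := by
      intro x hx
      by_cases hxN : x ∈ N
      · exact Or.inr hxN
      · exact Or.inl ⟨⟨hx.1, hxN⟩, hx.2⟩
    calc volume (I \ K) ≤ volume ((I \ N) \ K ∪ N) := measure_mono h1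
      _ ≤ volume ((I \ N) \ K) + volume N := measure_union_le _ _
      _ = volume ((I \ N) \ K) := by rw [hN0, add_zero]
      _ < ENNReal.ofReal ε := hK

/-- counting the tuples which are far from the compact set -/
lemma count_far (m R : ℕ) (𝒦 : Set (Fin m → ℝ)) (ε : ℝ)
    (hvol : volume (Set.Icc (fun _ => (1 : ℝ)) (fun _ => (R : ℝ) + 1) \ 𝒦) < ENNReal.ofReal ε)
    (δ : ℝ) (n : ℕ) (hn : 1 ≤ n) (hδn : 1 ≤ δ * n) (E : Finset (Fin m → ℕ))
    (hE1 : ∀ s ∈ E, ∀ i, n ≤ s i ∧ s i ≤ R * n)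
    (hE2 : ∀ s ∈ E, ¬ ∃ ρ ∈ 𝒦, ∀ i, |(s i : ℝ) - ρ i * n| ≤ δ * n) :
    (E.card : ℝ) ≤ ε * (n : ℝ) ^ m := by
  classical
  have hnpos : (0 : ℝ) < n := by exact_mod_cast hn
  obtain ⟨Q, hQ⟩ : ∃ Q : (Fin m → ℕ) → Set (Fin m → ℝ), Q = fun s =>
      Set.pi Set.univ fun i => Set.Ico ((s i : ℝ) / n) (((s i : ℝ) + 1) / n) := ⟨_, rfl⟩
  have hQx : ∀ s x, x ∈ Q s → ∀ i, (s i : ℝ) ≤ x i * n ∧ x i * n < s i + 1 := by
    intro s x hx i
    rw [hQ] at hx
    have h1 := hx i (Set.mem_univ i)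
    exact ⟨(div_le_iff₀ hnpos).1 h1.1, (lt_div_iff₀ hnpos).1 h1.2⟩
  have hsub : ∀ s ∈ E, Q s ⊆ Set.Icc (fun _ => (1 : ℝ)) (fun _ => (R : ℝ) + 1) \ 𝒦 := by
    intro s hs x hx
    have h1 := hQx s x hx
    refine ⟨⟨fun i => ?_, fun i => ?_⟩, fun hxK => ?_⟩
    · have h2 : (n : ℝ) ≤ s i := by exact_mod_cast (hE1 s hs i).1
      have h3 : (1 : ℝ) * n ≤ x i * n := by linarith [(h1 i).1]
      exact le_of_mul_le_mul_right h3 hnpos
    · have h2 : (s i : ℝ) ≤ R * n := by exact_mod_cast (hE1 s hs i).2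
      have h4 : (1 : ℝ) ≤ n := by exact_mod_cast hn
      have h3 : x i * n ≤ ((R : ℝ) + 1) * n := by linarith [(h1 i).2]
      exact le_of_mul_le_mul_right h3 hnpos
    · refine hE2 s hs ⟨x, hxK, fun i => ?_⟩
      rw [abs_le]
      constructor
      · linarith [(h1 i).2]
      · linarith [(h1 i).1]
  have hdis : Set.PairwiseDisjoint (E : Set (Fin m → ℕ)) Q := by
    intro s _ s' _ hne
    rw [Function.onFun, Set.disjoint_left]
    intro x hx hx'
    apply hne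
    funext i
    have h1 := hQx s x hx i
    have h2 := hQx s' x hx' i
    have h3 : (s i : ℝ) < s' i + 1 := by linarith
    have h4 : (s' i : ℝ) < s i + 1 := by linarith
    have h5 : s i < s' i + 1 := by exact_mod_cast h3
    have h6 : s' i < s i + 1 := by exact_mod_cast h4
    omega
  have hvolQ : ∀ s, volume (Q s) = ENNReal.ofReal ((1 / (n : ℝ)) ^ m) := by
    intro s
    rw [hQ]
    simp only
    rw [Real.volume_pi_Ico]
    have h1 : ∀ i, ENNReal.ofReal (((s i : ℝ) + 1) / n - (s i : ℝ) / n) =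
        ENNReal.ofReal (1 / (n : ℝ)) := by
      intro i
      congr 1
      ring
    rw [Finset.prod_congr rfl fun i _ => h1 i, Finset.prod_const, Finset.card_univ,
      Fintype.card_fin, ENNReal.ofReal_pow (by positivity)]
  have hmeas : ∀ s ∈ E, MeasurableSet (Q s) := by
    intro s _
    rw [hQ]
    exact MeasurableSet.univ_pi fun i => measurableSet_Ico
  have h1 : volume (⋃ s ∈ E, Q s) = ∑ s ∈ E, volume (Q s) := measure_biUnion_finset hdis hmeas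
  have h2 : volume (⋃ s ∈ E, Q s) < ENNReal.ofReal ε :=
    (measure_mono (Set.iUnion₂_subset hsub)).trans_lt hvol
  rw [h1, Finset.sum_congr rfl fun s _ => hvolQ s, Finset.sum_const, nsmul_eq_mul,
    ← ENNReal.ofReal_natCast, ← ENNReal.ofReal_mul (Nat.cast_nonneg _)] at h2
  have hε : 0 < ε := ENNReal.ofReal_pos.1 (lt_of_le_of_lt bot_le h2)
  have h3 : (E.card : ℝ) * (1 / (n : ℝ)) ^ m < ε := by
    by_contra h
    push Not at h
    exact absurd (ENNReal.ofReal_le_ofReal h) (not_le.2 h2)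
  rw [one_div, inv_pow, ← div_eq_mul_inv, div_lt_iff₀ (by positivity)] at h3
  exact h3.le

/-- **`π` and almost all tuples of zeta values** -/
theorem almost (m D R : ℕ) (ε : ℝ) (hε : 0 < ε) : ∃ δ B : ℝ, 0 < δ ∧ 1 < B ∧ ∃ n0 : ℕ,
    ∀ n : ℕ, n0 ≤ n → ∃ E : Finset (Fin m → ℕ), (E.card : ℝ) ≤ ε * (n : ℝ) ^ m ∧
    ∀ s : Fin m → ℕ, Function.Injective s → (∀ i, n ≤ s i ∧ s i ≤ R * n) → s ∉ E →
    ∀ P : MvPolynomial (Fin m) (Polynomial ℤ), P ≠ 0 → P.totalDegree ≤ D →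
    (∀ α, (P.coeff α).natDegree ≤ D) →
    (∀ α j, |(((P.coeff α).coeff j : ℤ) : ℝ)| ≤ Real.exp (δ * n)) →
    (B ^ n)⁻¹ < |MvPolynomial.eval₂ (Polynomial.aeval Real.pi : Polynomial ℤ →ₐ[ℤ] ℝ).toRingHom
      (fun i => zt (s i)) P| := by
  classical
  obtain ⟨𝒦, hKc, hKpos, hKg, hKvol⟩ := exists_compact m R ε hε
  obtain ⟨δ, B, hδ, hB, n0, h⟩ := dirs_good m D 𝒦 hKc hKpos hKg
  obtain ⟨n1, hn1⟩ := exists_nat_ge (1 / δ)
  refine ⟨δ, B, hδ, hB, max (max n0 n1) 1, fun n hn => ?_⟩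
  have hn0 : n0 ≤ n := by omega
  have hnn1 : n1 ≤ n := by omega
  have hn1' : 1 ≤ n := by omega
  obtain ⟨E, hE⟩ : ∃ E : Finset (Fin m → ℕ), E = (Fintype.piFinset fun _ : Fin m =>
      Finset.Icc n (R * n)).filter fun s => ¬ ∃ ρ ∈ 𝒦, ∀ i, |(s i : ℝ) - ρ i * n| ≤ δ * n :=
    ⟨_, rfl⟩
  refine ⟨E, ?_, ?_⟩
  · refine count_far m R 𝒦 ε hKvol δ n hn1' ?_ E ?_ ?_
    · have h1 : 1 / δ ≤ n := hn1.trans (by exact_mod_cast hnn1)
      rw [div_le_iff₀ hδ] at h1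
      linarith
    · intro s hs i
      rw [hE] at hs
      exact Finset.mem_Icc.1 (Fintype.mem_piFinset.1 (Finset.mem_filter.1 hs).1 i)
    · intro s hs
      rw [hE] at hs
      exact (Finset.mem_filter.1 hs).2
  · intro s hinj hs hsE P hP0 hPD hPn hPc
    refine h n hn0 s hinj ?_ P hP0 hPD hPn hPc
    by_contra hno
    apply hsE
    rw [hE, Finset.mem_filter, Fintype.mem_piFinset]
    exact ⟨fun i => Finset.mem_Icc.2 (hs i), hno⟩

end

end Pool.Agent.H298Y
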