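import Pool.Agent.H298Y.Main

/-!
# Adjoining a much larger argument; tuples whose ratios are bounded in terms of the later ratios
-/

set_option autoImplicit false

namespace Pool.Agent.H298Y

open Filter Topology

section

variable {m : ℕ}

lemma zt_sub (s : ℕ) (hs : 2 ≤ s) : ((2 : ℝ) ^ s)⁻¹ ≤ zt s - 1 ∧
    zt s - 1 ≤ (1 + 4 * zt 2) * ((2 : ℝ) ^ s)⁻¹ := by
  have h1 := t5_tail 2 s (by norm_num) hs
  have h2 : ztK 2 s = 1 + ((2 : ℝ) ^ s)⁻¹ := by
    unfold ztK
    rw [Finset.sum_range_succ, Finset.sum_range_one]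
    norm_num
  rw [h2] at h1
  obtain ⟨h3, h4⟩ := h1
  have h5 : zt 2 * (((2 : ℕ) : ℝ) ^ 2 / ((2 : ℕ) : ℝ) ^ s) = 4 * zt 2 * ((2 : ℝ) ^ s)⁻¹ := by
    push_cast
    rw [div_eq_mul_inv]
    ring
  rw [h5] at h4
  constructor
  · linarith
  · linarith

lemma abs_aeval_le (D : ℕ) (y : Fin m → ℝ) (Z : ℝ) (hZ : 1 ≤ Z) (hy : ∀ i, |y i| ≤ Z)
    (Q : MvPolynomial (Fin m) ℤ) (hQ : Q.totalDegree ≤ D) (H : ℝ) (hH : 0 ≤ H)
    (hQH : ∀ α, |((Q.coeff α : ℤ) : ℝ)| ≤ H) :
    |MvPolynomial.aeval y Q| ≤ (bx m D).card * (H * Z ^ (m * D)) := by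
  classical
  rw [MvPolynomial.aeval_def, MvPolynomial.eval₂_eq']
  have h1 : ∑ α ∈ Q.support, (algebraMap ℤ ℝ) (Q.coeff α) * ∏ i, y i ^ α i =
      ∑ α ∈ bx m D, (algebraMap ℤ ℝ) (Q.coeff α) * ∏ i, y i ^ α i := by
    refine Finset.sum_subset (fun α hα => mem_bx Q D hQ α hα) ?_
    intro α _ hα
    rw [MvPolynomial.notMem_support_iff.1 hα, map_zero, zero_mul]
  rw [h1]
  refine (Finset.abs_sum_le_sum_abs _ _).trans ?_
  rw [← nsmul_eq_mul]
  refine Finset.sum_le_card_nsmul _ _ _ fun α hα => ?_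
  rw [abs_mul, Finset.abs_prod]
  refine mul_le_mul (hQH α) ?_ (Finset.prod_nonneg fun _ _ => abs_nonneg _) hH
  calc ∏ i, |y i ^ α i| ≤ ∏ _i : Fin m, Z ^ D := by
        refine Finset.prod_le_prod (fun _ _ => abs_nonneg _) fun i _ => ?_
        rw [abs_pow]
        have h2 : α i ≤ D := by
          have := (Finset.mem_Iic.1 hα) i
          simpa using this
        exact (pow_le_pow_left₀ (abs_nonneg _) (hy i) _).trans (pow_le_pow_right₀ hZ h2)
    _ = Z ^ (m * D) := by
        rw [Finset.prod_const, Finset.card_univ, Fintype.card_fin, ← pow_mul, mul_comm]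

/-- the coefficients at the powers of `X 0 - 1` -/
noncomputable def tc (D : ℕ) (P : MvPolynomial (Fin (m + 1)) ℤ) (j : ℕ) :
    MvPolynomial (Fin m) ℤ :=
  ∑ i ∈ Finset.range (D + 1),
    MvPolynomial.C ((i.choose j : ℕ) : ℤ) * ((MvPolynomial.finSuccEquiv ℤ m P).coeff i)

lemma aeval_cons (P : MvPolynomial (Fin (m + 1)) ℤ) (a : ℝ) (y : Fin m → ℝ) :
    MvPolynomial.aeval (Fin.cons a y : Fin (m + 1) → ℝ) P =
      Polynomial.eval₂ (MvPolynomial.aeval y : MvPolynomial (Fin m) ℤ →ₐ[ℤ] ℝ).toRingHom a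
        (MvPolynomial.finSuccEquiv ℤ m P) := by
  induction P using MvPolynomial.induction_on with
  | C c =>
    rw [MvPolynomial.aeval_C, ← MvPolynomial.algebraMap_eq, AlgEquiv.commutes,
      IsScalarTower.algebraMap_apply ℤ (MvPolynomial (Fin m) ℤ)
        (Polynomial (MvPolynomial (Fin m) ℤ)), Polynomial.algebraMap_eq, Polynomial.eval₂_C]
    simp
  | add p q hp hq => rw [map_add, map_add, Polynomial.eval₂_add, hp, hq]
  | mul_X p i hp =>
    rw [map_mul, map_mul, Polynomial.eval₂_mul, hp, MvPolynomial.aeval_X]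
    congr 1
    refine Fin.cases ?_ (fun i => ?_) i
    · rw [MvPolynomial.finSuccEquiv_X_zero, Polynomial.eval₂_X, Fin.cons_zero]
    · rw [MvPolynomial.finSuccEquiv_X_succ, Polynomial.eval₂_C, Fin.cons_succ]
      simp

lemma aeval_tc (D : ℕ) (P : MvPolynomial (Fin (m + 1)) ℤ) (hP : P.totalDegree ≤ D) (x : ℝ)
    (y : Fin m → ℝ) : MvPolynomial.aeval (Fin.cons (1 + x) y : Fin (m + 1) → ℝ) P =
      ∑ j ∈ Finset.range (D + 1), MvPolynomial.aeval y (tc D P j) * x ^ j := by
  classical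
  have hdeg : (MvPolynomial.finSuccEquiv ℤ m P).natDegree < D + 1 := by
    rw [MvPolynomial.natDegree_finSuccEquiv]
    exact Nat.lt_succ_of_le ((MvPolynomial.degreeOf_le_totalDegree _ _).trans hP)
  rw [aeval_cons, Polynomial.eval₂_eq_sum_range' _ hdeg]
  have h1 : ∀ i ∈ Finset.range (D + 1), (1 + x) ^ i =
      ∑ j ∈ Finset.range (D + 1), ((i.choose j : ℕ) : ℝ) * x ^ j := by
    intro i hi
    rw [add_comm, add_pow]
    have h2 : ∑ j ∈ Finset.range (i + 1), x ^ j * 1 ^ (i - j) * ((i.choose j : ℕ) : ℝ) =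
        ∑ j ∈ Finset.range (i + 1), ((i.choose j : ℕ) : ℝ) * x ^ j :=
      Finset.sum_congr rfl fun j _ => by rw [one_pow]; ring
    rw [h2]
    refine Finset.sum_subset (Finset.range_subset_range.2
      (by have := Finset.mem_range.1 hi; omega)) fun j _ hj => ?_
    rw [Nat.choose_eq_zero_of_lt (by have := Finset.mem_range.not.1 hj; omega), Nat.cast_zero,
      zero_mul]
  rw [Finset.sum_congr rfl fun i hi => by rw [h1 i hi, Finset.mul_sum], Finset.sum_comm]
  refine Finset.sum_congr rfl fun j _ => ?_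
  unfold tc
  rw [map_sum, Finset.sum_mul]
  refine Finset.sum_congr rfl fun i _ => ?_
  rw [map_mul, MvPolynomial.aeval_C]
  simp only [AlgHom.toRingHom_eq_coe, RingHom.coe_coe, algebraMap_int_eq, eq_intCast,
    Int.cast_natCast]
  ring

lemma exists_tc_ne (D : ℕ) (P : MvPolynomial (Fin (m + 1)) ℤ) (hP0 : P ≠ 0)
    (hP : P.totalDegree ≤ D) : ∃ j, j ≤ D ∧ tc D P j ≠ 0 := by
  classical
  have hF0 : MvPolynomial.finSuccEquiv ℤ m P ≠ 0 := by
    rwa [Ne, EmbeddingLike.map_eq_zero_iff]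
  have hdeg : (MvPolynomial.finSuccEquiv ℤ m P).natDegree ≤ D := by
    rw [MvPolynomial.natDegree_finSuccEquiv]
    exact (MvPolynomial.degreeOf_le_totalDegree _ _).trans hP
  refine ⟨(MvPolynomial.finSuccEquiv ℤ m P).natDegree, hdeg, ?_⟩
  unfold tc
  rw [Finset.sum_eq_single (MvPolynomial.finSuccEquiv ℤ m P).natDegree]
  · rw [Nat.choose_self, Nat.cast_one, MvPolynomial.C_1, one_mul]
    exact Polynomial.leadingCoeff_ne_zero.2 hF0
  · intro i _ hi
    rcases Nat.lt_or_gt_of_ne hi with h | h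
    · rw [Nat.choose_eq_zero_of_lt h, Nat.cast_zero, MvPolynomial.C_0, zero_mul]
    · rw [Polynomial.coeff_eq_zero_of_natDegree_lt h, mul_zero]
  · intro h
    exact absurd (Finset.mem_range.2 (by omega)) h

lemma tc_degree (D : ℕ) (P : MvPolynomial (Fin (m + 1)) ℤ) (hP : P.totalDegree ≤ D) (j : ℕ) :
    (tc D P j).totalDegree ≤ D := by
  classical
  unfold tc
  refine MvPolynomial.totalDegree_finsetSum_le fun i _ => ?_
  refine (MvPolynomial.totalDegree_mul _ _).trans ?_
  rw [MvPolynomial.totalDegree_C, zero_add]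
  by_cases h0 : (MvPolynomial.finSuccEquiv ℤ m P).coeff i = 0
  · rw [h0, MvPolynomial.totalDegree_zero]
    exact Nat.zero_le _
  · have := MvPolynomial.totalDegree_coeff_finSuccEquiv_add_le P i h0
    omega

lemma tc_coeff (D : ℕ) (P : MvPolynomial (Fin (m + 1)) ℤ) (H : ℝ) (hH : 0 ≤ H)
    (hPH : ∀ α, |((P.coeff α : ℤ) : ℝ)| ≤ H) (j : ℕ) (α : Fin m →₀ ℕ) :
    |(((tc D P j).coeff α : ℤ) : ℝ)| ≤ ((D + 1 : ℕ) : ℝ) * (2 ^ D * H) := by
  classical
  unfold tc
  rw [MvPolynomial.coeff_sum]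
  push_cast
  refine (Finset.abs_sum_le_sum_abs _ _).trans ?_
  have h1 : ∀ i ∈ Finset.range (D + 1), |(((MvPolynomial.C ((i.choose j : ℕ) : ℤ) *
      (MvPolynomial.finSuccEquiv ℤ m P).coeff i).coeff α : ℤ) : ℝ)| ≤ 2 ^ D * H := by
    intro i hi
    rw [MvPolynomial.coeff_C_mul, MvPolynomial.finSuccEquiv_coeff_coeff]
    push_cast
    rw [abs_mul, abs_of_nonneg (Nat.cast_nonneg _)]
    refine mul_le_mul ?_ (hPH _) (abs_nonneg _) (by positivity)
    have h2 : i.choose j ≤ 2 ^ D := (Nat.choose_le_two_pow i j).trans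
      (Nat.pow_le_pow_right (by norm_num) (by have := Finset.mem_range.1 hi; omega))
    exact_mod_cast h2
  have h3 := Finset.sum_le_card_nsmul _ _ _ h1
  rw [Finset.card_range, nsmul_eq_mul] at h3
  push_cast at h3 ⊢
  exact h3

lemma adjoin (m D : ℕ) (Z : ℝ) (hZ : 1 ≤ Z) : ∃ E : ℝ, 1 ≤ E ∧ ∀ (y : Fin m → ℝ) (x : ℝ)
    (P : MvPolynomial (Fin (m + 1)) ℤ) (H b : ℝ), 0 ≤ H → (∀ i, |y i| ≤ Z) → 0 < x → x ≤ 1 →
    P ≠ 0 → P.totalDegree ≤ D → (∀ α, |((P.coeff α : ℤ) : ℝ)| ≤ H) →
    (∀ Q : MvPolynomial (Fin m) ℤ, Q ≠ 0 → Q.totalDegree ≤ D →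
      (∀ α, |((Q.coeff α : ℤ) : ℝ)| ≤ E * H) → b ≤ |MvPolynomial.aeval y Q|) →
    E * H * x ≤ b / 2 →
    b / 2 * x ^ D ≤ |MvPolynomial.aeval (Fin.cons (1 + x) y : Fin (m + 1) → ℝ) P| := by
  classical
  obtain ⟨E0, hE0⟩ : ∃ E0 : ℝ, E0 = ((D + 1 : ℕ) : ℝ) * 2 ^ D := ⟨_, rfl⟩
  obtain ⟨E1, hE1⟩ : ∃ E1 : ℝ, E1 = (bx m D).card * (E0 * Z ^ (m * D)) := ⟨_, rfl⟩
  have hZ0 : 0 < Z := by linarith
  have hE0' : 1 ≤ E0 := by
    rw [hE0]
    have h1 : (1 : ℝ) ≤ ((D + 1 : ℕ) : ℝ) := by exact_mod_cast Nat.succ_pos D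
    have h2 : (1 : ℝ) ≤ 2 ^ D := one_le_pow₀ (by norm_num)
    nlinarith
  have hE1' : 0 ≤ E1 := by
    rw [hE1]
    have : 0 ≤ E0 := by linarith
    positivity
  refine ⟨E0 + ((D + 1 : ℕ) : ℝ) * E1, ?_, ?_⟩
  · have : 0 ≤ ((D + 1 : ℕ) : ℝ) * E1 := by positivity
    linarith
  intro y x P H b hH hy hx hx1 hP0 hPD hPH hQ hsm
  have hDE : 0 ≤ ((D + 1 : ℕ) : ℝ) * E1 := by positivity
  have hb : 0 ≤ b := by
    have : 0 ≤ (E0 + ((D + 1 : ℕ) : ℝ) * E1) * H * x := by
      have : 0 ≤ E0 := by linarith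
      positivity
    linarith
  have hco : ∀ j α, |(((tc D P j).coeff α : ℤ) : ℝ)| ≤ E0 * H := by
    intro j α
    refine (tc_coeff D P H hH hPH j α).trans (le_of_eq ?_)
    rw [hE0]
    ring
  have hval : ∀ j, |MvPolynomial.aeval y (tc D P j)| ≤ E1 * H := by
    intro j
    refine (abs_aeval_le D y Z hZ hy _ (tc_degree D P hPD j) (E0 * H)
      (mul_nonneg (by linarith) hH) (hco j)).trans (le_of_eq ?_)
    rw [hE1]
    ring
  have hex : ∃ j, tc D P j ≠ 0 := by
    obtain ⟨j, _, h⟩ := exists_tc_ne D P hP0 hPD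
    exact ⟨j, h⟩
  obtain ⟨j1, hj1D, hj1⟩ := exists_tc_ne D P hP0 hPD
  obtain ⟨j0, hj0⟩ : ∃ j0, j0 = Nat.find hex := ⟨_, rfl⟩
  have hj0D : j0 ≤ D := by
    rw [hj0]
    exact (Nat.find_min' hex hj1).trans hj1D
  have hj0ne : tc D P j0 ≠ 0 := by
    rw [hj0]
    exact Nat.find_spec hex
  have hjlt : ∀ j, j < j0 → tc D P j = 0 := by
    intro j hj
    rw [hj0] at hj
    by_contra h
    exact Nat.find_min hex hj h
  have hlead : b ≤ |MvPolynomial.aeval y (tc D P j0)| := by
    refine hQ _ hj0ne (tc_degree D P hPD j0) fun α => (hco j0 α).trans ?_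
    refine mul_le_mul_of_nonneg_right ?_ hH
    linarith
  rw [aeval_tc D P hPD, ← Finset.add_sum_erase _ _ (Finset.mem_range.2 (by omega : j0 < D + 1))]
  have hrest : |∑ j ∈ (Finset.range (D + 1)).erase j0, MvPolynomial.aeval y (tc D P j) * x ^ j| ≤
      b / 2 * x ^ j0 := by
    refine (Finset.abs_sum_le_sum_abs _ _).trans ?_
    have h1 : ∀ j ∈ (Finset.range (D + 1)).erase j0,
        |MvPolynomial.aeval y (tc D P j) * x ^ j| ≤ E1 * H * (x * x ^ j0) := by
      intro j hj
      rcases Nat.lt_or_gt_of_ne (Finset.ne_of_mem_erase hj) with h | h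
      · rw [hjlt j h, map_zero, zero_mul, abs_zero]
        positivity
      · rw [abs_mul, abs_of_nonneg (pow_nonneg hx.le j)]
        refine mul_le_mul (hval j) ?_ (pow_nonneg hx.le j) (mul_nonneg hE1' hH)
        rw [← pow_succ']
        exact pow_le_pow_of_le_one hx.le hx1 h
    have h3 := Finset.sum_le_card_nsmul _ _ _ h1
    rw [nsmul_eq_mul] at h3
    refine h3.trans ?_
    have h4 : (((Finset.range (D + 1)).erase j0).card : ℝ) ≤ ((D + 1 : ℕ) : ℝ) := by
      have := Finset.card_le_card (Finset.erase_subset j0 (Finset.range (D + 1)))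
      rw [Finset.card_range] at this
      exact_mod_cast this
    calc (((Finset.range (D + 1)).erase j0).card : ℝ) * (E1 * H * (x * x ^ j0))
        ≤ ((D + 1 : ℕ) : ℝ) * (E1 * H * (x * x ^ j0)) :=
          mul_le_mul_of_nonneg_right h4 (by positivity)
      _ = (((D + 1 : ℕ) : ℝ) * E1) * H * x * x ^ j0 := by ring
      _ ≤ (E0 + ((D + 1 : ℕ) : ℝ) * E1) * H * x * x ^ j0 := by
          have : 0 ≤ E0 := by linarith
          gcongr
          linarith
      _ ≤ b / 2 * x ^ j0 := mul_le_mul_of_nonneg_right hsm (by positivity)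
  have hmain : b * x ^ j0 ≤ |MvPolynomial.aeval y (tc D P j0) * x ^ j0| := by
    rw [abs_mul, abs_of_nonneg (pow_nonneg hx.le j0)]
    exact mul_le_mul_of_nonneg_right hlead (pow_nonneg hx.le j0)
  have htri : ∀ u w : ℝ, |u| - |w| ≤ |u + w| := fun u w => by
    have := abs_sub_abs_le_abs_sub u (-w)
    rwa [abs_neg, sub_neg_eq_add] at this
  have h5 := htri (MvPolynomial.aeval y (tc D P j0) * x ^ j0)
    (∑ j ∈ (Finset.range (D + 1)).erase j0, MvPolynomial.aeval y (tc D P j) * x ^ j)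
  have h6 : x ^ D ≤ x ^ j0 := pow_le_pow_of_le_one hx.le hx1 hj0D
  have h7 : b / 2 * x ^ D ≤ b / 2 * x ^ j0 := mul_le_mul_of_nonneg_left h6 (by linarith)
  linarith

end

/-- `cone` with an exponential lower bound -/
lemma cone' (m D R : ℕ) : ∃ δ C : ℝ, 0 < δ ∧ 0 < C ∧ ∃ n0 : ℕ, ∀ n : ℕ, n0 ≤ n →
    ∀ s : Fin m → ℕ, Function.Injective s → (∀ i, n ≤ s i) → (∀ i, s i ≤ R * n) →
    ∀ P : MvPolynomial (Fin m) ℤ, P ≠ 0 → P.totalDegree ≤ D →
    (∀ α, |((P.coeff α : ℤ) : ℝ)| ≤ Real.exp (δ * n)) →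
    Real.exp (-(C * n)) < |MvPolynomial.aeval (fun i => zt (s i)) P| := by
  obtain ⟨δ, B, hδ, hB, n0, h⟩ := cone m D R
  refine ⟨δ, Real.log B, hδ, Real.log_pos hB, n0, fun n hn s hs h1 h2 P hP0 hPD hPH => ?_⟩
  have h3 := h n hn s hs h1 h2 P hP0 hPD hPH
  have h4 : Real.exp (-(Real.log B * n)) = (B ^ n)⁻¹ := by
    rw [Real.exp_neg, mul_comm, Real.exp_nat_mul, Real.exp_log (by linarith)]
  rw [h4]
  exact h3

/-- **The tail theorem.** Arguments in decreasing order; every ratio is bounded in terms of each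
ratio of larger arguments. -/
theorem tail (m : ℕ) : ∀ (D : ℕ) (φ : ℕ → ℕ), ∃ δ C : ℝ, 0 < δ ∧ 0 < C ∧ ∃ n0 : ℕ,
    ∀ n S : ℕ, n0 ≤ n → n ≤ S → ∀ s : Fin m → ℕ, StrictAnti s → (∀ i, n ≤ s i) →
    (∀ i, s i ≤ S) →
    (∀ i j k l : Fin m, (i : ℕ) + 1 = j → j ≤ k → (k : ℕ) + 1 = l → s k ≤ φ (s i / s j) * s l) →
    ∀ P : MvPolynomial (Fin m) ℤ, P ≠ 0 → P.totalDegree ≤ D →
    (∀ α, |((P.coeff α : ℤ) : ℝ)| ≤ Real.exp (δ * n)) →
    Real.exp (-(C * S)) < |MvPolynomial.aeval (fun i => zt (s i)) P| := by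
  classical
  induction m with
  | zero =>
    intro D φ
    refine ⟨1, 1, one_pos, one_pos, 1, ?_⟩
    intro n S hn hS s _ _ _ _ P hP0 _ _
    obtain ⟨a, rfl⟩ : ∃ a : ℤ, P = MvPolynomial.C a := ⟨_, MvPolynomial.eq_C_of_isEmpty P⟩
    have ha : a ≠ 0 := fun h => hP0 (by rw [h, map_zero])
    rw [MvPolynomial.aeval_C]
    have h1 : (1 : ℝ) ≤ |(algebraMap ℤ ℝ) a| := by
      have := Int.one_le_abs ha
      rw [algebraMap_int_eq, eq_intCast]
      exact_mod_cast this
    refine lt_of_lt_of_le ?_ h1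
    rw [Real.exp_lt_one_iff]
    have : (1 : ℝ) ≤ S := by exact_mod_cast hn.trans hS
    linarith
  | succ m ih =>
    intro D φ
    rcases m with _ | m
    · -- one argument
      obtain ⟨δ, C, hδ, hC, n0, h⟩ := cone' 1 D 1
      refine ⟨δ, C, hδ, hC, n0, ?_⟩
      intro n S hn hS s hs hsn hsS _ P hP0 hPD hPH
      have h1 := h (s 0) (hn.trans (hsn 0)) s hs.injective
        (fun i => by rw [Subsingleton.elim i 0]) (fun i => by rw [Subsingleton.elim i 0, one_mul])
        P hP0 hPD (fun α => (hPH α).trans (by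
          rw [Real.exp_le_exp]
          exact mul_le_mul_of_nonneg_left (by exact_mod_cast hsn 0) hδ.le))
      refine lt_of_le_of_lt ?_ h1
      rw [Real.exp_le_exp, neg_le_neg_iff]
      exact mul_le_mul_of_nonneg_left (by exact_mod_cast hsS 0) hC.le
    · -- at least two arguments
      obtain ⟨E, hE, hadj⟩ := adjoin (m + 1) D (zt 2) t5_one_le
      obtain ⟨δ1, C1, hδ1, hC1, n1, h1⟩ := ih D φ
      obtain ⟨W, hW⟩ : ∃ W : ℝ, W = 2 * (1 + 4 * zt 2) := ⟨_, rfl⟩
      have hz2 := t5_one_le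
      have hW0 : 0 < W := by rw [hW]; linarith
      -- the threshold of the ratio
      have hlog2 : 0 < Real.log 2 := Real.log_pos (by norm_num)
      obtain ⟨R', hR'⟩ := exists_nat_ge (max 1 ((δ1 + C1 + W) / Real.log 2))
      have hR1 : 1 ≤ R' := by
        have := (le_max_left _ _).trans hR'
        exact_mod_cast this
      have hR2 : δ1 + C1 + W ≤ R' * Real.log 2 := by
        have := (le_max_right _ _).trans hR'
        rwa [div_le_iff₀ hlog2] at this
      obtain ⟨M, hM⟩ : ∃ M : ℕ, M = (Finset.range (R' + 1)).sup φ + 1 := ⟨_, rfl⟩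
      have hMφ : ∀ x, x ≤ R' → φ x ≤ M := by
        intro x hx
        rw [hM]
        exact (Finset.le_sup (f := φ) (Finset.mem_range.2 (by omega : x < R' + 1))).trans
          (Nat.le_succ _)
      have hM1 : 1 ≤ M := by rw [hM]; omega
      obtain ⟨δ2, C2, hδ2, hC2, n2, h2⟩ := cone' (m + 2) D (R' * M ^ (m + 1))
      obtain ⟨n3, hn3⟩ := exists_nat_ge (Real.log E / (δ1 / 2))
      refine ⟨min (δ1 / 2) δ2, C1 + D + 2 + C2, lt_min (by positivity) hδ2, by positivity,
        max (max n1 n2) (max n3 2), ?_⟩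
      intro n S hn hS s hs hsn hsS hφ P hP0 hPD hPH
      have hnn1 : n1 ≤ n := by omega
      have hnn2 : n2 ≤ n := by omega
      have hnn3 : n3 ≤ n := by omega
      have hnn4 : 2 ≤ n := by omega
      have hS1 : (1 : ℝ) ≤ S := by
        have : 1 ≤ S := by omega
        exact_mod_cast this
      by_cases hcase : R' * s 1 ≤ s 0
      · -- the largest argument dominates
        have hs01 : 2 ≤ s 0 := hnn4.trans (hsn 0)
        obtain ⟨hx1, hx2⟩ := zt_sub (s 0) hs01
        obtain ⟨x, hx⟩ : ∃ x, x = zt (s 0) - 1 := ⟨_, rfl⟩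
        rw [← hx] at hx1 hx2
        have hxpos : 0 < x := lt_of_lt_of_le (by positivity) hx1
        have hn1S : (n : ℝ) ≤ s 1 := by exact_mod_cast hsn 1
        have hs1 : (1 : ℝ) ≤ s 1 := by
          have h3 := hsn 1
          have : 1 ≤ s 1 := by omega
          exact_mod_cast this
        have hs1S : (s 1 : ℝ) ≤ S := by exact_mod_cast hsS 1
        have hs0S : (s 0 : ℝ) ≤ S := by exact_mod_cast hsS 0
        -- `2 ^ (-s 0)` is small
        have hpow : W * Real.exp (δ1 * n) * ((2 : ℝ) ^ (s 0))⁻¹ ≤ Real.exp (-(C1 * s 1)) := by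
          have h3 : (2 : ℝ) ^ (s 0) = Real.exp (s 0 * Real.log 2) := by
            rw [Real.exp_nat_mul, Real.exp_log (by norm_num)]
          have h4 : W ≤ Real.exp (W * s 1) := by
            have h5 := Real.add_one_le_exp (W * (s 1 : ℝ))
            have h6 : W * 1 ≤ W * s 1 := mul_le_mul_of_nonneg_left hs1 hW0.le
            linarith
          rw [h3, ← Real.exp_neg]
          calc W * Real.exp (δ1 * n) * Real.exp (-(s 0 * Real.log 2))
              ≤ Real.exp (W * s 1) * Real.exp (δ1 * s 1) *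
                Real.exp (-(R' * s 1 * Real.log 2)) := by
                have h7 : ((R' : ℝ)) * s 1 ≤ s 0 := by exact_mod_cast hcase
                have h8 : Real.exp (-(s 0 * Real.log 2)) ≤
                    Real.exp (-(R' * s 1 * Real.log 2)) := by
                  rw [Real.exp_le_exp, neg_le_neg_iff]
                  exact mul_le_mul_of_nonneg_right h7 hlog2.le
                have h9 : Real.exp (δ1 * n) ≤ Real.exp (δ1 * s 1) := by
                  rw [Real.exp_le_exp]
                  exact mul_le_mul_of_nonneg_left hn1S hδ1.le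
                gcongr
            _ = Real.exp ((W + δ1 - R' * Real.log 2) * s 1) := by
                rw [← Real.exp_add, ← Real.exp_add]
                ring_nf
            _ ≤ Real.exp (-(C1 * s 1)) := by
                rw [Real.exp_le_exp]
                have h10 : W + δ1 - R' * Real.log 2 ≤ -C1 := by linarith
                have := mul_le_mul_of_nonneg_right h10 (by linarith : (0 : ℝ) ≤ s 1)
                linarith
        have hEx : E * Real.exp (min (δ1 / 2) δ2 * n) ≤ Real.exp (δ1 * n) := by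
          have h3 : E ≤ Real.exp (δ1 / 2 * n) := by
            rw [← Real.log_le_iff_le_exp (by linarith)]
            rw [div_le_iff₀ (by positivity)] at hn3
            have h4 : (n3 : ℝ) ≤ n := by exact_mod_cast hnn3
            nlinarith
          have h4 : Real.exp (min (δ1 / 2) δ2 * n) ≤ Real.exp (δ1 / 2 * n) := by
            rw [Real.exp_le_exp]
            exact mul_le_mul_of_nonneg_right (min_le_left _ _) (Nat.cast_nonneg _)
          calc E * Real.exp (min (δ1 / 2) δ2 * n)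
              ≤ Real.exp (δ1 / 2 * n) * Real.exp (δ1 / 2 * n) :=
                mul_le_mul h3 h4 (Real.exp_pos _).le (Real.exp_pos _).le
            _ = Real.exp (δ1 * n) := by rw [← Real.exp_add]; ring_nf
        have hxle : x ≤ 1 := by
          have h3 : (1 + 4 * zt 2) * ((2 : ℝ) ^ (s 0))⁻¹ * 2 ≤ 1 := by
            have h4 : Real.exp (-(C1 * s 1)) ≤ 1 := by
              rw [Real.exp_le_one_iff]
              have : 0 ≤ C1 * (s 1 : ℝ) := by positivity
              linarith
            have h5 : (1 : ℝ) ≤ Real.exp (δ1 * n) := by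
              rw [Real.one_le_exp_iff]
              positivity
            have h6 : W * ((2 : ℝ) ^ (s 0))⁻¹ ≤ W * Real.exp (δ1 * n) * ((2 : ℝ) ^ (s 0))⁻¹ := by
              refine mul_le_mul_of_nonneg_right ?_ (by positivity)
              exact le_mul_of_one_le_right hW0.le h5
            rw [hW] at h6 hpow
            nlinarith
          have h4 : 0 ≤ (1 + 4 * zt 2) * ((2 : ℝ) ^ (s 0))⁻¹ := by positivity
          linarith
        have hy : ∀ i : Fin (m + 1), |zt (s i.succ)| ≤ zt 2 := by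
          intro i
          have h3 : 2 ≤ s i.succ := hnn4.trans (hsn _)
          have h4 := (zt_sub _ h3).1
          have h5 : 0 ≤ ((2 : ℝ) ^ (s i.succ))⁻¹ := by positivity
          rw [abs_of_nonneg (by linarith)]
          exact t5_zt_le _ h3
        have hle1 : ∀ i : Fin (m + 1), s i.succ ≤ s 1 := by
          intro i
          refine hs.antitone ?_
          rw [Fin.le_def]
          simp
        have key := hadj (fun i => zt (s i.succ)) x P (Real.exp (min (δ1 / 2) δ2 * n))
          (Real.exp (-(C1 * s 1))) (Real.exp_pos _).le hy hxpos hxle hP0 hPD hPH (by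
            intro Q hQ0 hQD hQH
            refine (h1 n (s 1) hnn1 (hsn 1) (fun i => s i.succ)
              (hs.comp_strictMono (Fin.strictMono_succ)) (fun i => hsn _) hle1 ?_ Q hQ0 hQD
              (fun α => (hQH α).trans hEx)).le
            intro i j k l hij hjk hkl
            exact hφ i.succ j.succ k.succ l.succ (by simp [hij]) (by simpa using hjk)
              (by simp [hkl])) (by
            calc E * Real.exp (min (δ1 / 2) δ2 * n) * x
                ≤ Real.exp (δ1 * n) * ((1 + 4 * zt 2) * ((2 : ℝ) ^ (s 0))⁻¹) :=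
                  mul_le_mul hEx hx2 hxpos.le (Real.exp_pos _).le
              _ = (W * Real.exp (δ1 * n) * ((2 : ℝ) ^ (s 0))⁻¹) / 2 := by rw [hW]; ring
              _ ≤ Real.exp (-(C1 * s 1)) / 2 := by linarith)
        have hcons : (Fin.cons (1 + x) (fun i : Fin (m + 1) => zt (s i.succ)) :
            Fin (m + 2) → ℝ) = fun i => zt (s i) := by
          funext i
          refine Fin.cases ?_ (fun i => ?_) i
          · rw [Fin.cons_zero, hx]
            ring
          · rw [Fin.cons_succ]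
        rw [hcons] at key
        refine lt_of_lt_of_le ?_ key
        -- the final comparison
        have h3 : Real.exp (-(D * (S : ℝ))) ≤ x ^ D := by
          have h4 : Real.exp (-(s 0 : ℝ)) ≤ x := by
            refine le_trans ?_ hx1
            rw [Real.exp_neg]
            refine inv_anti₀ (by positivity) ?_
            have h5 : Real.exp (s 0 : ℝ) = Real.exp 1 ^ (s 0) := by
              rw [← Real.exp_nat_mul, mul_one]
            rw [h5]
            exact pow_le_pow_left₀ (by norm_num) (by linarith [Real.add_one_le_exp (1 : ℝ)]) _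
          calc Real.exp (-(D * (S : ℝ))) ≤ Real.exp (-(s 0 : ℝ)) ^ D := by
                rw [← Real.exp_nat_mul, Real.exp_le_exp]
                have := mul_le_mul_of_nonneg_left hs0S (Nat.cast_nonneg (α := ℝ) D)
                linarith
            _ ≤ x ^ D := pow_le_pow_left₀ (Real.exp_pos _).le h4 _
        have h4 : Real.exp (-(C1 * S + 1)) < Real.exp (-(C1 * s 1)) / 2 := by
          have h5 : Real.exp (-(C1 * S + 1)) = Real.exp (-(C1 * S)) * (Real.exp 1)⁻¹ := by
            rw [← Real.exp_neg, ← Real.exp_add]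
            ring_nf
          have h6 : Real.exp (-(C1 * S)) ≤ Real.exp (-(C1 * s 1)) := by
            rw [Real.exp_le_exp, neg_le_neg_iff]
            exact mul_le_mul_of_nonneg_left hs1S hC1.le
          have h7 : (Real.exp 1)⁻¹ < 2⁻¹ :=
            inv_strictAnti₀ (by norm_num) (by linarith [Real.exp_one_gt_d9])
          rw [h5, div_eq_mul_inv]
          exact lt_of_le_of_lt (mul_le_mul_of_nonneg_right h6 (by positivity))
            (mul_lt_mul_of_pos_left h7 (Real.exp_pos _))
        calc Real.exp (-((C1 + D + 2 + C2) * S))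
            ≤ Real.exp (-(C1 * S + 1)) * Real.exp (-(D * (S : ℝ))) := by
              rw [← Real.exp_add, Real.exp_le_exp]
              have : 0 ≤ C2 * (S : ℝ) := by positivity
              nlinarith
          _ < Real.exp (-(C1 * s 1)) / 2 * Real.exp (-(D * (S : ℝ))) :=
              mul_lt_mul_of_pos_right h4 (Real.exp_pos _)
          _ ≤ Real.exp (-(C1 * s 1)) / 2 * x ^ D :=
              mul_le_mul_of_nonneg_left h3 (by positivity)
      · -- all arguments in a cone
        push Not at hcase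
        have hs1pos : 0 < s 1 := by have := hsn 1; omega
        have hdiv : s 0 / s 1 ≤ R' := by
          refine Nat.div_le_of_le_mul ?_
          rw [mul_comm]
          exact hcase.le
        have key : ∀ j (hj : j < m + 2), s 0 ≤ R' * M ^ j * s ⟨j, hj⟩ := by
          intro j
          induction j with
          | zero =>
            intro hj
            rw [pow_zero, mul_one]
            exact Nat.le_mul_of_pos_left _ hR1
          | succ j ihj =>
            intro hj
            rcases j with _ | j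
            · calc s 0 ≤ R' * s 1 := hcase.le
                _ ≤ R' * M ^ 1 * s 1 := by
                  rw [pow_one]
                  exact Nat.mul_le_mul_right _ (Nat.le_mul_of_pos_right _ hM1)
                _ = _ := rfl
            · have h3 := ihj (by omega)
              have h4 := hφ 0 1 ⟨j + 1, by omega⟩ ⟨j + 2, hj⟩ (by simp)
                (by rw [Fin.le_def]; simp) rfl
              calc s 0 ≤ R' * M ^ (j + 1) * s ⟨j + 1, by omega⟩ := h3
                _ ≤ R' * M ^ (j + 1) * (M * s ⟨j + 2, hj⟩) :=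
                  Nat.mul_le_mul_left _ (h4.trans (Nat.mul_le_mul_right _ (hMφ _ hdiv)))
                _ = R' * M ^ (j + 1 + 1) * s ⟨j + 1 + 1, hj⟩ := by ring
        have hlast := key (m + 1) (by omega)
        have h3 := h2 (s ⟨m + 1, by omega⟩) (hnn2.trans (hsn _)) s hs.injective
          (fun i => hs.antitone (by rw [Fin.le_def]; exact Nat.le_of_lt_succ i.2))
          (fun i => (hs.antitone (Fin.zero_le i)).trans hlast) P hP0 hPD
          (fun α => (hPH α).trans (by
            rw [Real.exp_le_exp]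
            have h4 : (n : ℝ) ≤ s ⟨m + 1, by omega⟩ := by exact_mod_cast hsn _
            exact mul_le_mul (min_le_right _ _) h4 (Nat.cast_nonneg _) hδ2.le))
        refine lt_of_le_of_lt ?_ h3
        rw [Real.exp_le_exp, neg_le_neg_iff]
        have h4 : (s ⟨m + 1, by omega⟩ : ℝ) ≤ S := by exact_mod_cast hsS _
        have h5 : C2 * (s ⟨m + 1, by omega⟩ : ℝ) ≤ C2 * S := mul_le_mul_of_nonneg_left h4 hC2.le
        have h6 : 0 ≤ (C1 + D + 2) * (S : ℝ) := by positivity
        linarith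

end Pool.Agent.H298Y
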