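import Pool.Agent.Y760.ZF.Prod
import Pool.Agent.H298Y.Tail

/-!
# Polynomials with coefficients of arbitrary exponential size: arguments in a cone

This is deduced from the theorem on products of multiple zeta values of `Pool.Agent.Y760.ZF.Prod`.
-/

set_option autoImplicit false

namespace Pool.Agent.H298Y

open Filter Topology Pool.Agent.Y760.ZF Pool.Agent.Y760.ZG

lemma sti_single (x : ℕ) : ∀ w' w : List ℕ, w ∈ sti [x] w' →
    List.Perm w (x :: w') ∨ w.length ≤ w'.length := by
  intro w'
  induction w' with
  | nil =>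
    intro w hw
    rw [sti, List.mem_singleton] at hw
    left
    rw [hw]
  | cons j l ih =>
    intro w hw
    rw [sti, List.mem_append, List.mem_append, List.mem_map, List.mem_map, List.mem_map] at hw
    rcases hw with (⟨w1, hw1, rfl⟩ | ⟨w1, hw1, rfl⟩) | ⟨w1, hw1, rfl⟩
    · rw [sti, List.mem_singleton] at hw1
      left
      rw [hw1]
    · rcases ih w1 hw1 with h | h
      · left
        exact (h.cons j).trans (List.Perm.swap x j l)
      · right
        simp only [List.length_cons]
        omega
    · rw [sti, List.mem_singleton] at hw1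
      right
      rw [hw1]
      simp

lemma mem_sti_single (x : ℕ) (w' : List ℕ) : x :: w' ∈ sti [x] w' := by
  cases w' with
  | nil => rw [sti, List.mem_singleton]
  | cons j l =>
    rw [sti, List.mem_append, List.mem_append, List.mem_map]
    left
    left
    exact ⟨j :: l, by rw [sti, List.mem_singleton], rfl⟩

lemma stil_single : ∀ L w : List ℕ, w ∈ stil (L.map fun x => [x]) →
    w.length ≤ L.length ∧ (w.length = L.length → List.Perm w L) := by
  intro L
  induction L with
  | nil =>
    intro w hw
    rw [List.map_nil, stil, List.mem_singleton] at hw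
    rw [hw]
    exact ⟨le_rfl, fun _ => List.Perm.refl _⟩
  | cons x L ih =>
    intro w hw
    rw [List.map_cons, stil, List.mem_flatMap] at hw
    obtain ⟨w', hw', hw⟩ := hw
    obtain ⟨h1, h2⟩ := ih w' hw'
    rcases sti_single x w' w hw with h | h
    · have h3 := h.length_eq
      simp only [List.length_cons] at h3 ⊢
      refine ⟨by omega, fun h4 => ?_⟩
      exact h.trans ((h2 (by omega)).cons x)
    · simp only [List.length_cons]
      exact ⟨by omega, fun h4 => by omega⟩

lemma mem_stil_single : ∀ L : List ℕ, L ∈ stil (L.map fun x => [x]) := by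
  intro L
  induction L with
  | nil => rw [List.map_nil, stil, List.mem_singleton]
  | cons x L ih =>
    rw [List.map_cons, stil, List.mem_flatMap]
    exact ⟨L, ih, mem_sti_single x L⟩

section

variable {m : ℕ}

/-- the list of the arguments with multiplicities -/
def ML (s : Fin m → ℕ) (α : Fin m →₀ ℕ) : List ℕ :=
  (List.finRange m).flatMap fun i => List.replicate (α i) (s i)

lemma count_ML (s : Fin m → ℕ) (hs : Function.Injective s) (α : Fin m →₀ ℕ) (j : Fin m) :
    (ML s α).count (s j) = α j := by
  classical
  unfold ML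
  rw [List.count_flatMap]
  have h1 : (List.count (s j) ∘ fun i => List.replicate (α i) (s i)) =
      fun i => if i = j then α i else 0 := by
    funext i
    simp only [Function.comp_apply, List.count_replicate, beq_iff_eq, hs.eq_iff]
  rw [h1, ← Fin.sum_univ_def, Finset.sum_ite_eq' Finset.univ j]
  simp

lemma length_ML (s : Fin m → ℕ) (α : Fin m →₀ ℕ) : (ML s α).length = ∑ i, α i := by
  unfold ML
  rw [List.length_flatMap]
  have h1 : (fun i => (List.replicate (α i) (s i)).length) = fun i => α i := by
    funext i
    rw [List.length_replicate]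
  rw [h1, ← Fin.sum_univ_def]

lemma prod_flat {ι : Type*} (l : List ι) (g : ι → List ℕ) (f : ℕ → ℝ) :
    ((l.flatMap g).map f).prod = (l.map fun i => ((g i).map f).prod).prod := by
  induction l with
  | nil => simp
  | cons a l ih => rw [List.flatMap_cons, List.map_append, List.prod_append, ih, List.map_cons,
      List.prod_cons]

lemma prod_ML (s : Fin m → ℕ) (α : Fin m →₀ ℕ) (f : ℕ → ℝ) :
    ((ML s α).map f).prod = ∏ i, f (s i) ^ α i := by
  unfold ML
  rw [prod_flat, Fin.prod_univ_def]
  congr 1
  refine List.map_congr_left fun i _ => ?_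
  rw [List.map_replicate, List.prod_replicate]

lemma mem_ML (s : Fin m → ℕ) (α : Fin m →₀ ℕ) (x : ℕ) (hx : x ∈ ML s α) : ∃ i, x = s i := by
  unfold ML at hx
  rw [List.mem_flatMap] at hx
  obtain ⟨i, _, h⟩ := hx
  exact ⟨i, List.eq_of_mem_replicate h⟩

end

lemma mz_single (a : ℕ) : mz [a] = zt a := by
  rw [mz, zt]
  refine tsum_congr fun k => ?_
  rw [hr_nil]
  push_cast
  rfl

/-- **arguments in a cone, coefficients of arbitrary exponential size** -/
theorem cone_any (m D R : ℕ) (a : ℝ) : ∃ C : ℝ, 0 < C ∧ ∃ n0 : ℕ, ∀ n : ℕ, n0 ≤ n →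
    ∀ s : Fin m → ℕ, Function.Injective s → (∀ i, n ≤ s i) → (∀ i, s i ≤ R * n) →
    ∀ P : MvPolynomial (Fin m) ℤ, P ≠ 0 → P.totalDegree ≤ D →
    (∀ α, |((P.coeff α : ℤ) : ℝ)| ≤ Real.exp (a * n)) →
    Real.exp (-(C * n)) < |MvPolynomial.aeval (fun i => zt (s i)) P| := by
  classical
  obtain ⟨B, hB, n0, h⟩ := mainM (l := 1) (fun _ => (1 : ℝ)) (fun _ => isAlgebraic_one)
    (by rw [linearIndependent_unique_iff]; exact one_ne_zero) ((bx m D).card) 1 D (R : ℝ)
    (Real.exp a)
  refine ⟨Real.log B, Real.log_pos hB, max n0 1, ?_⟩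
  intro n hn s hs hs1 hs2 P hP0 hPD hPH
  have hn0 : n0 ≤ n := by omega
  have hn1 : 1 ≤ n := by omega
  have hcnt : ∀ (α : Fin m →₀ ℕ) (i : Fin m),
      ((ML s α).map fun x => [x]).count [s i] = α i := by
    intro α i
    rw [List.count_map_of_injective _ (fun x : ℕ => [x]) (fun x y hxy => by simpa using hxy),
      count_ML s hs]
  have hinj : Function.Injective fun α : Fin m →₀ ℕ => (ML s α).map fun x => [x] := by
    intro α β hαβ
    ext i
    rw [← hcnt α i, ← hcnt β i]
    exact congrArg (List.count [s i]) hαβ
  obtain ⟨T, hT⟩ : ∃ T : Finset (List (List ℕ)),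
      T = P.support.image fun α => (ML s α).map fun x => [x] := ⟨_, rfl⟩
  obtain ⟨c, hc⟩ : ∃ c : List (List ℕ) → Fin 1 → ℤ, c = fun M _ =>
      P.coeff (Finsupp.equivFunOnFinite.symm fun i => M.count [s i]) := ⟨_, rfl⟩
  have hcα : ∀ (α : Fin m →₀ ℕ) (j : Fin 1), c ((ML s α).map fun x => [x]) j = P.coeff α := by
    intro α j
    rw [hc]
    show P.coeff (Finsupp.equivFunOnFinite.symm fun i => ((ML s α).map fun x => [x]).count [s i])
      = P.coeff α
    congr 1
    ext i
    rw [Finsupp.equivFunOnFinite_symm_apply_apply]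
    exact hcnt α i
  have hdeg : ∀ α ∈ P.support, ∑ i, α i ≤ P.totalDegree := by
    intro α hα
    have h1 := MvPolynomial.le_totalDegree hα
    rwa [Finsupp.sum_fintype _ _ (fun _ => rfl)] at h1
  have hval : ∑ M ∈ T, (∑ j, (fun _ : Fin 1 => (1 : ℝ)) j * c M j) * (M.map mz).prod =
      MvPolynomial.aeval (fun i => zt (s i)) P := by
    rw [hT, Finset.sum_image fun α _ β _ h => hinj h, MvPolynomial.aeval_def,
      MvPolynomial.eval₂_eq']
    refine Finset.sum_congr rfl fun α _ => ?_
    rw [Fin.sum_univ_one, hcα, one_mul, List.map_map]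
    congr 1
    rw [← prod_ML s α fun x => zt x]
    congr 1
    refine List.map_congr_left fun x _ => ?_
    exact mz_single x
  have hmain := h n hn0 T (by
      rw [hT]
      exact Finset.card_image_le.trans (Finset.card_le_card fun α hα => mem_bx P D hPD α hα)) (by
      intro M hM
      rw [hT, Finset.mem_image] at hM
      obtain ⟨α, hα, rfl⟩ := hM
      refine ⟨?_, ?_⟩
      · rw [List.length_map, length_ML]
        exact (hdeg α hα).trans hPD
      · intro u hu
        rw [List.mem_map] at hu
        obtain ⟨x, hx, rfl⟩ := hu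
        obtain ⟨i, rfl⟩ := mem_ML s α x hx
        refine ⟨le_rfl, ?_, ?_⟩
        · intro y hy
          rw [List.mem_singleton] at hy
          rw [hy]
          exact ⟨hn1.trans (hs1 i), by exact_mod_cast hs2 i⟩
        · intro k hk
          simp only [List.head?_cons, Option.mem_def, Option.some.injEq] at hk
          rw [← hk]
          exact hs1 i) c (by
      intro M hM j
      rw [hT, Finset.mem_image] at hM
      obtain ⟨α, hα, rfl⟩ := hM
      rw [hcα]
      refine (hPH α).trans (le_of_eq ?_)
      rw [← Real.exp_nat_mul, mul_comm])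
  rw [hval] at hmain
  have hexp : Real.exp (-(Real.log B * n)) = (B ^ n)⁻¹ := by
    rw [Real.exp_neg, mul_comm, Real.exp_nat_mul, Real.exp_log (by linarith)]
  rw [hexp]
  rcases hmain with ⟨h0, _⟩ | h1
  · exfalso
    -- a monomial of maximal degree
    obtain ⟨α0, hα0, hα0d⟩ : ∃ α ∈ P.support, ∑ i, α i = P.totalDegree := by
      obtain ⟨α, hα, h2⟩ := Finset.exists_mem_eq_sup P.support
        (MvPolynomial.support_nonempty.2 hP0) (fun α => α.sum fun _ e => e)
      refine ⟨α, hα, ?_⟩
      rw [MvPolynomial.totalDegree, h2, Finsupp.sum_fintype _ _ (fun _ => rfl)]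
    have h2 := h0 (ML s α0) 0
    unfold co at h2
    rw [hT, Finset.sum_image fun α _ β _ h => hinj h, Finset.sum_eq_single α0] at h2
    · rw [hcα, mul_eq_zero] at h2
      rcases h2 with h2 | h2
      · exact (MvPolynomial.mem_support_iff.1 hα0) h2
      · have h3 : 0 < (stil ((ML s α0).map fun x => [x])).countP (· = ML s α0) := by
          rw [List.countP_pos_iff]
          exact ⟨ML s α0, mem_stil_single _, by simp⟩
        have h4 : (((stil ((ML s α0).map fun x => [x])).countP (· = ML s α0) : ℕ) : ℤ) = 0 := h2
        omega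
    · intro α hα hne
      have h3 : (stil ((ML s α).map fun x => [x])).countP (· = ML s α0) = 0 := by
        rw [List.countP_eq_zero]
        intro w hw hw0
        have hw1 : w = ML s α0 := by simpa using hw0
        obtain ⟨h4, h5⟩ := stil_single (ML s α) w hw
        rw [hw1, length_ML, length_ML] at h4 h5
        have h6 := hdeg α hα
        have h7 := h5 (by omega)
        apply hne
        ext i
        rw [← count_ML s hs α i, ← count_ML s hs α0 i]
        exact (h7.count_eq (s i)).symm
      rw [h3]
      simp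
    · intro h
      exact absurd hα0 h
  · exact h1

end Pool.Agent.H298Y
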