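import Pool.Agent.H298Z.Dir2

set_option autoImplicit false

namespace Pool.Agent.H298Y

open ArithmeticFunction Finset MvPolynomial Pool.Agent.H298Z

/-- the arithmetic function `n ^ v ↦ w n` (`n ≥ 1`), zero outside the `v`-th powers -/
def pwf {R : Type*} [CommRing R] (v : ℕ) (w : ℕ → R) : ArithmeticFunction R :=
  ⟨fun N => ∑ n ∈ Finset.Icc 1 N, if n ^ v = N then w n else 0, by simp⟩

section

variable {R : Type*} [CommRing R]

lemma pwf_apply (v : ℕ) (w : ℕ → R) (n : ℕ) :
    pwf v w n = ∑ N ∈ Finset.Icc 1 n, if N ^ v = n then w N else 0 := rfl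

lemma pwf_pow (v : ℕ) (w : ℕ → R) (N : ℕ) (hv : 1 ≤ v) (hN : 1 ≤ N) :
    pwf v w (N ^ v) = w N := by
  rw [pwf_apply, Finset.sum_eq_single N]
  · rw [if_pos rfl]
  · intro b _ hb
    rw [if_neg]
    intro h
    exact hb (Nat.pow_left_injective (n := v) (by omega) h)
  · intro h
    exfalso
    apply h
    rw [Finset.mem_Icc]
    exact ⟨hN, Nat.le_self_pow (by omega) N⟩

lemma pwf_eq_zero (v : ℕ) (w : ℕ → R) (n : ℕ) (h : ∀ N, 1 ≤ N → N ^ v ≠ n) :
    pwf v w n = 0 := by
  rw [pwf_apply]
  refine Finset.sum_eq_zero fun N hN => ?_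
  rw [if_neg (h N (Finset.mem_Icc.1 hN).1)]

/-- the value of `F * D_p φ` at `n p ^ v` -/
lemma conv_value (v p n : ℕ) (w : ℕ → R) (hv : 1 ≤ v) (hp : p.Prime) (hn : n ≠ 0)
    (F : ArithmeticFunction R) (hF : ∀ a < n, F a = 0) :
    (F * Dp p (pwf v w)) (n * p ^ v) = F n * ((v : R) * w p) := by
  have hp0 : 0 < p ^ v := pow_pos hp.pos v
  rw [mul_apply, Finset.sum_eq_single (n, p ^ v)]
  · simp only
    rw [Dp_apply, pwf_pow v w p hv hp.one_lt.le, hp.factorization_pow, Finsupp.single_eq_same]
  · rintro ⟨x, y⟩ hxy hne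
    obtain ⟨h1, h2⟩ := Nat.mem_divisorsAntidiagonal.1 hxy
    simp only at h1 ⊢
    rw [Dp_apply]
    by_cases hpy : p ∣ y
    · by_cases hN : ∃ N, 1 ≤ N ∧ N ^ v = y
      · obtain ⟨N, hN1, hNy⟩ := hN
        have hpN : p ∣ N := by
          rw [← hNy] at hpy
          exact hp.dvd_of_dvd_pow hpy
        obtain ⟨z, rfl⟩ := hpN
        have hz : 1 ≤ z := by
          rcases Nat.eq_zero_or_pos z with h | h
          · rw [h] at hN1; omega
          · exact h
        have h3 : x * z ^ v = n := by
          have h4 : (x * z ^ v) * p ^ v = n * p ^ v := by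
            rw [← h1, ← hNy, mul_pow]
            ring
          exact Nat.eq_of_mul_eq_mul_right hp0 h4
        have hx : x < n := by
          rcases Nat.lt_or_ge x n with h | h
          · exact h
          · exfalso
            have hx0 : 0 < x := by omega
            have h5 : z ^ v = 1 := by
              have h6 : x * z ^ v ≤ x * 1 := by rw [h3, mul_one]; exact h
              have h7 := Nat.le_of_mul_le_mul_left h6 hx0
              have h8 : 1 ≤ z ^ v := Nat.one_le_pow _ _ hz
              omega
            apply hne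
            have h9 : z = 1 := by
              rcases Nat.pow_eq_one.1 h5 with h | h
              · exact h
              · omega
            rw [h9, mul_one] at hNy
            rw [h5, mul_one] at h3
            rw [h3, hNy]
        rw [hF x hx, zero_mul]
      · rw [pwf_eq_zero v w y (fun N hN1 hNy => hN ⟨N, hN1, hNy⟩)]
        ring
    · rw [Nat.factorization_eq_zero_of_not_dvd hpy]
      simp
  · intro h
    exfalso
    apply h
    rw [Nat.mem_divisorsAntidiagonal]
    exact ⟨rfl, mul_ne_zero hn hp0.ne'⟩

/-- the value of `F * D_p φ` at `n p ^ v` vanishes for larger powers -/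
lemma conv_zero (v u p n : ℕ) (w : ℕ → R) (hvw : v < u) (hp : p.Prime) (hpn : ¬ p ∣ n)
    (F : ArithmeticFunction R) : (F * Dp p (pwf u w)) (n * p ^ v) = 0 := by
  rw [mul_apply]
  refine Finset.sum_eq_zero fun z hz => ?_
  obtain ⟨h1, h2⟩ := Nat.mem_divisorsAntidiagonal.1 hz
  rw [Dp_apply]
  by_cases hpy : p ∣ z.2
  · rw [pwf_eq_zero u w z.2]
    · ring
    · intro N hN1 hNy
      have hpN : p ∣ N := by
        rw [← hNy] at hpy
        exact hp.dvd_of_dvd_pow hpy
      have h3 : p ^ u ∣ n * p ^ v := by
        rw [← h1, ← hNy]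
        exact Dvd.dvd.mul_left (pow_dvd_pow_of_dvd hpN u) _
      apply hpn
      have h4 : p ^ (u - v) ∣ n := by
        have h5 : p ^ (u - v) * p ^ v ∣ n * p ^ v := by
          rw [← pow_add, Nat.sub_add_cancel hvw.le]
          exact h3
        exact Nat.dvd_of_mul_dvd_mul_right (pow_pos hp.pos v) h5
      exact (dvd_pow_self p (by omega)).trans h4
  · rw [Nat.factorization_eq_zero_of_not_dvd hpy]
    simp

lemma sum_apply' {m : ℕ} (s : Finset (Fin m)) (f : Fin m → ArithmeticFunction R) (n : ℕ) :
    (∑ j ∈ s, f j) n = ∑ j ∈ s, f j n := by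
  classical
  induction s using Finset.induction_on with
  | empty => simp
  | insert a s ha ihs =>
    rw [Finset.sum_insert ha, Finset.sum_insert ha, ArithmeticFunction.add_apply, ihs]

end

theorem indep {R : Type*} [Field R] [CharZero R] {m : ℕ} (v : Fin m → ℕ) (hv : ∀ i, 1 ≤ v i)
    (w : Fin m → ℕ → R)
    (hw : ∀ (e : ℕ) (a : Fin m → R) (X : ℕ), (∀ p : ℕ, p.Prime → X < p →
      ∑ j ∈ Finset.univ.filter (fun j => v j = e), a j * w j p = 0) → ∀ j, v j = e → a j = 0)
    (P : MvPolynomial (Fin m) R) (hP : P ≠ 0) :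
    MvPolynomial.aeval (fun i => pwf (v i) (w i)) P ≠ 0 := by
  classical
  have key : ∀ d : ℕ, ∀ P : MvPolynomial (Fin m) R, P ≠ 0 → P.totalDegree ≤ d →
      MvPolynomial.aeval (fun i => pwf (v i) (w i)) P ≠ 0 := by
    intro d
    induction d with
    | zero =>
      intro P hP hd h0
      have h1 : P = C (coeff 0 P) := totalDegree_eq_zero_iff_eq_C.1 (Nat.le_zero.1 hd)
      have h2 := congrArg (fun f : ArithmeticFunction R => f 1) h0
      rw [h1, show aeval (fun i => pwf (v i) (w i)) (C (coeff 0 P)) =
        algebraMap R (ArithmeticFunction R) (coeff 0 P) from MvPolynomial.algHom_C _ _,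
        algebraMap_apply', if_pos rfl] at h2
      have h3 : coeff 0 P = 0 := by simpa using h2
      rw [h3, _root_.map_zero] at h1
      exact hP h1
    | succ d ih =>
      intro P hP hd h0
      by_cases hdeg : P.totalDegree = 0
      · have h1 : P = C (coeff 0 P) := totalDegree_eq_zero_iff_eq_C.1 hdeg
        have h2 := congrArg (fun f : ArithmeticFunction R => f 1) h0
        rw [h1, show aeval (fun i => pwf (v i) (w i)) (C (coeff 0 P)) =
          algebraMap R (ArithmeticFunction R) (coeff 0 P) from MvPolynomial.algHom_C _ _,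
          algebraMap_apply', if_pos rfl] at h2
        have h3 : coeff 0 P = 0 := by simpa using h2
        rw [h3, _root_.map_zero] at h1
        exact hP h1
      · obtain ⟨j₁, hj₁⟩ := exists_pderiv_ne m P hdeg
        -- the least exponent
        have hexe : ∃ e, ∃ j, v j = e ∧ pderiv j P ≠ 0 := ⟨v j₁, j₁, rfl, hj₁⟩
        obtain ⟨e, he⟩ : ∃ e, e = Nat.find hexe := ⟨_, rfl⟩
        obtain ⟨j₀, hvj₀, hj₀⟩ : ∃ j, v j = e ∧ pderiv j P ≠ 0 := by
          rw [he]; exact Nat.find_spec hexe
        have hmine : ∀ j, v j < e → pderiv j P = 0 := by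
          intro j hj
          by_contra hne
          rw [he] at hj
          exact Nat.find_min hexe hj ⟨j, rfl, hne⟩
        have he1 : 1 ≤ e := by rw [← hvj₀]; exact hv j₀
        obtain ⟨φ, hφ⟩ : ∃ φ : Fin m → ArithmeticFunction R, φ = fun i => pwf (v i) (w i) :=
          ⟨_, rfl⟩
        have hφi : ∀ i, φ i = pwf (v i) (w i) := fun i => by rw [hφ]
        rw [← hφ] at h0
        have hF₀ : aeval φ (pderiv j₀ P) ≠ 0 := by
          rw [hφ]
          exact ih _ hj₀ (pderiv_deg d m P hd j₀)
        -- the least index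
        have hexn : ∃ n, ∃ j, v j = e ∧ aeval φ (pderiv j P) n ≠ 0 := by
          by_contra hcon
          push Not at hcon
          apply hF₀
          ext n
          exact hcon n j₀ hvj₀
        obtain ⟨n, hn⟩ : ∃ n, n = Nat.find hexn := ⟨_, rfl⟩
        obtain ⟨j₂, hvj₂, hj₂⟩ : ∃ j, v j = e ∧ aeval φ (pderiv j P) n ≠ 0 := by
          rw [hn]; exact Nat.find_spec hexn
        have hminn : ∀ j, v j = e → ∀ a < n, aeval φ (pderiv j P) a = 0 := by
          intro j hj a ha
          by_contra hne
          rw [hn] at ha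
          exact Nat.find_min hexn ha ⟨j, hj, hne⟩
        have hn0 : n ≠ 0 := by
          rintro rfl
          exact hj₂ ArithmeticFunction.map_zero
        refine hj₂ (hw e (fun j => aeval φ (pderiv j P) n) n ?_ j₂ hvj₂)
        intro p hp hnp
        have hpn : ¬ p ∣ n := fun h => by
          have := Nat.le_of_dvd (by omega) h
          omega
        have h1 := congrArg (fun f : ArithmeticFunction R => f (n * p ^ e)) (chain' m p φ P)
        rw [h0, Dp_apply, ArithmeticFunction.zero_apply, mul_zero, sum_apply'] at h1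
        have h2 : ∀ j, (aeval φ (pderiv j P) * Dp p (φ j)) (n * p ^ e) =
            if v j = e then (e : R) * (aeval φ (pderiv j P) n * w j p) else 0 := by
          intro j
          split_ifs with h
          · rw [hφi j, h, conv_value e p n (w j) he1 hp hn0 _ (hminn j h)]
            ring
          · rcases Nat.lt_or_gt_of_ne h with h | h
            · rw [hmine j h, _root_.map_zero, zero_mul]
              rfl
            · rw [hφi j]
              exact conv_zero e (v j) p n (w j) h hp hpn _
        rw [Finset.sum_congr rfl fun j _ => h2 j, ← Finset.sum_filter, ← Finset.mul_sum] at h1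
        have he0 : (e : R) ≠ 0 := by exact_mod_cast (by omega : e ≠ 0)
        exact (mul_eq_zero.1 h1.symm).resolve_left he0
  exact key _ P hP le_rfl

end Pool.Agent.H298Y
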