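import Mathlib

set_option autoImplicit false

namespace Pool.Agent.H298Y

/-!
JOB T3 (helper298, MP_a89d6d_nt, very_famous). Generalised Vandermonde: a real polynomial with at
most `k` terms has fewer than `k` distinct positive roots.

PROOF. `P = ∑ j ∈ J, C (a j) * X ^ (s j)` has at most `|J|` nonzero coefficients. If `P ≠ 0`, then by
Descartes' rule of signs (`Polynomial.roots_countP_pos_le_signVariations` in Mathlib) the number of
positive roots is at most the number of sign variations, which is at most (number of nonzero
coefficients) - 1 < |J| ≤ |T|, a contradiction. (Or prove it directly by induction on `|J|` with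
Rolle's theorem: divide by `x ^ (least exponent)` and differentiate.) So `P = 0`, and as `s` is
injective on `J` every `a j` is a coefficient of `P`.
-/

open Polynomial in
theorem signVariations_le_card (n : ℕ) : ∀ P : ℝ[X], P.support.card = n + 1 →
    P.signVariations ≤ n := by
  induction n with
  | zero =>
    intro P hP
    obtain ⟨k, x, hx, rfl⟩ := Polynomial.card_support_eq_one.1 hP
    rw [Polynomial.C_mul_X_pow_eq_monomial, Polynomial.signVariations_monomial]
  | succ n ih =>
    intro P hP
    have h1 : P.eraseLead.support.card = n + 1 := Polynomial.card_support_eraseLead' hP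
    have h2 := ih _ h1
    have h3 := Polynomial.signVariations_le_eraseLead_succ P
    omega

open Polynomial in
theorem gv {ι : Type*} (J : Finset ι) (s : ι → ℕ) (hs : Set.InjOn s J) (a : ι → ℝ) (T : Finset ℝ)
    (hT : ∀ x ∈ T, 0 < x) (hc : J.card ≤ T.card) (h : ∀ x ∈ T, ∑ j ∈ J, a j * x ^ (s j) = 0) :
    ∀ j ∈ J, a j = 0 := by
  classical
  set P : ℝ[X] := ∑ j ∈ J, C (a j) * X ^ (s j) with hP
  have hcoeff : ∀ j ∈ J, P.coeff (s j) = a j := by
    intro j hj
    rw [hP, finsetSum_coeff, Finset.sum_eq_single j]
    · simp
    · intro i hi hij
      rw [coeff_C_mul, coeff_X_pow, if_neg, mul_zero]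
      intro he
      exact hij (hs hi hj he.symm)
    · intro hj'
      exact absurd hj hj'
  have hsupp : P.support ⊆ J.image s := by
    intro n hn
    by_contra hnot
    rw [mem_support_iff] at hn
    apply hn
    rw [hP, finsetSum_coeff]
    refine Finset.sum_eq_zero fun j hj => ?_
    rw [coeff_C_mul, coeff_X_pow, if_neg, mul_zero]
    rintro rfl
    exact hnot (Finset.mem_image_of_mem s hj)
  have hcard : P.support.card ≤ J.card := (Finset.card_le_card hsupp).trans Finset.card_image_le
  by_cases hP0 : P = 0
  · intro j hj
    rw [← hcoeff j hj, hP0, coeff_zero]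
  · exfalso
    have hpos : 0 < P.support.card := Finset.card_pos.2 (support_nonempty.2 hP0)
    obtain ⟨n, hn⟩ : ∃ n, P.support.card = n + 1 := ⟨P.support.card - 1, by omega⟩
    have h1 := signVariations_le_card n P hn
    have h2 := roots_countP_pos_le_signVariations P
    have h3 : T.val ≤ P.roots.filter (0 < ·) := by
      rw [Multiset.le_iff_subset T.nodup]
      intro x hx
      rw [Multiset.mem_filter]
      refine ⟨?_, hT x hx⟩
      rw [mem_roots hP0, IsRoot.def, hP, eval_finsetSum]
      simpa using h x hx
    have h4 : T.card ≤ P.roots.countP (0 < ·) := by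
      rw [Multiset.countP_eq_card_filter]
      exact Multiset.card_le_card h3
    omega

end Pool.Agent.H298Y
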