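-- Paste back the complete file with the proof (statement unchanged). Due 18:00 UTC if possible. helper298
import Mathlib

set_option autoImplicit false

namespace Pool.Agent.H298Y

open Filter Topology

theorem t4_fac_le {z : ℤ} (hz : z ≠ 0) (p : ℕ) (hp : p.Prime) :
    ((z.natAbs.factorization p : ℕ) : ℝ) * Real.log 2 ≤ Real.log |(z : ℝ)| := by
  have h1 : p ^ z.natAbs.factorization p ∣ z.natAbs := Nat.ordProj_dvd _ _
  have hz' : 0 < z.natAbs := Int.natAbs_pos.2 hz
  have h2 : 2 ^ z.natAbs.factorization p ≤ z.natAbs :=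
    (Nat.pow_le_pow_left hp.two_le _).trans (Nat.le_of_dvd hz' h1)
  have h3 : ((2 : ℝ)) ^ z.natAbs.factorization p ≤ |(z : ℝ)| := by
    have h4 : ((2 ^ z.natAbs.factorization p : ℕ) : ℝ) ≤ (z.natAbs : ℝ) := by exact_mod_cast h2
    have h5 : (z.natAbs : ℝ) = |(z : ℝ)| := by
      rw [← Int.cast_abs, Int.abs_eq_natAbs]
      simp
    rw [← h5]
    exact_mod_cast h2
  have h4 := Real.log_le_log (by positivity) h3
  rwa [Real.log_pow] at h4

theorem class_eq {m : ℕ} (s : ℕ → Fin m → ℕ) (L : ℕ → ℝ) (F : Filter ℕ) [F.NeBot]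
    (hL : Tendsto L F atTop) (ρ : Fin m → ℝ)
    (hρ : ∀ i, Tendsto (fun t => (s t i : ℝ) / L t) F (𝓝 (ρ i))) (v : Fin m → ℕ)
    (hv : ∀ γ : Fin m → ℤ, ∑ i, (γ i : ℝ) * ρ i = 0 → ∑ i, γ i * (v i : ℤ) = 0)
    (a b : Fin m → ℕ) (ha : ∀ i, a i ≠ 0) (hb : ∀ i, b i ≠ 0) (x y : ℕ → ℤ)
    (hx : ∀ ε : ℝ, 0 < ε → ∀ᶠ t in F, |(x t : ℝ)| ≤ Real.exp (ε * L t))
    (hy : ∀ ε : ℝ, 0 < ε → ∀ᶠ t in F, |(y t : ℝ)| ≤ Real.exp (ε * L t))
    (hy0 : ∀ᶠ t in F, y t ≠ 0)
    (h : ∀ᶠ t in F, (∏ i, (b i : ℤ) ^ (s t i)) * y t = (∏ i, (a i : ℤ) ^ (s t i)) * x t) :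
    ∏ i, a i ^ v i = ∏ i, b i ^ v i := by
  have hx0 : ∀ᶠ t in F, x t ≠ 0 := by
    filter_upwards [hy0, h] with t h1 h2 h3
    rw [h3, mul_zero] at h2
    rcases mul_eq_zero.1 h2 with h4 | h4
    · rw [Finset.prod_eq_zero_iff] at h4
      obtain ⟨i, -, hi⟩ := h4
      have h6 : ((b i : ℕ) : ℤ) = 0 := by
        by_contra h0
        exact (pow_ne_zero _ h0) hi
      exact hb i (by exact_mod_cast h6)
    · exact h1 h4
  -- the exponents of `x` and `y` are negligible
  have hneg : ∀ (w : ℕ → ℤ), (∀ ε : ℝ, 0 < ε → ∀ᶠ t in F, |(w t : ℝ)| ≤ Real.exp (ε * L t)) →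
      (∀ᶠ t in F, w t ≠ 0) → ∀ p : ℕ, p.Prime →
      Tendsto (fun t => (((w t).natAbs.factorization p : ℕ) : ℝ) / L t) F (𝓝 0) := by
    intro w hw hw0 p hp
    rw [Metric.tendsto_nhds]
    intro ε hε
    have hlog2 : 0 < Real.log 2 := Real.log_pos (by norm_num)
    filter_upwards [hw (ε / 2 * Real.log 2) (by positivity), hw0, hL.eventually_gt_atTop 0]
      with t h1 h2 h3
    have h4 := t4_fac_le h2 p hp
    have h5 : Real.log |(w t : ℝ)| ≤ ε / 2 * Real.log 2 * L t := by
      have h6 : 0 < |(w t : ℝ)| := abs_pos.2 (by exact_mod_cast h2)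
      have h7 := Real.log_le_log h6 h1
      rwa [Real.log_exp] at h7
    have h6 : (((w t).natAbs.factorization p : ℕ) : ℝ) ≤ ε / 2 * L t := by
      have h7 : (((w t).natAbs.factorization p : ℕ) : ℝ) * Real.log 2 ≤ (ε / 2 * L t) * Real.log 2 := by
        calc _ ≤ Real.log |(w t : ℝ)| := h4
          _ ≤ ε / 2 * Real.log 2 * L t := h5
          _ = (ε / 2 * L t) * Real.log 2 := by ring
      exact le_of_mul_le_mul_right h7 hlog2
    rw [Real.dist_eq, sub_zero, abs_of_nonneg (by positivity), div_lt_iff₀ h3]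
    nlinarith
  -- the exponent identity
  have key : ∀ p : ℕ, p.Prime →
      ∑ i, (((b i).factorization p : ℤ) - ((a i).factorization p : ℤ)) * (v i : ℤ) = 0 := by
    intro p hp
    apply hv
    have hid : ∀ᶠ t in F,
        ∑ i, ((((b i).factorization p : ℤ) - ((a i).factorization p : ℤ) : ℤ) : ℝ) *
          ((s t i : ℝ) / L t) +
          ((((y t).natAbs.factorization p : ℕ) : ℝ) / L t -
            (((x t).natAbs.factorization p : ℕ) : ℝ) / L t) = 0 := by
      filter_upwards [hx0, hy0, h, hL.eventually_gt_atTop 0] with t h1 h2 h3 h4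
      have hA : ∀ c : Fin m → ℕ, (∀ i, c i ≠ 0) → (∏ i, c i ^ s t i) ≠ 0 := fun c hc =>
        Finset.prod_ne_zero_iff.2 fun i _ => pow_ne_zero _ (hc i)
      have e1 : (∏ i, b i ^ s t i) * (y t).natAbs = (∏ i, a i ^ s t i) * (x t).natAbs := by
        have h5 := congrArg Int.natAbs h3
        rw [Int.natAbs_mul, Int.natAbs_mul] at h5
        have h6 : ∀ c : Fin m → ℕ, (∏ i, (c i : ℤ) ^ s t i).natAbs = ∏ i, c i ^ s t i := by
          intro c
          have h7 : (∏ i, (c i : ℤ) ^ s t i) = ((∏ i, c i ^ s t i : ℕ) : ℤ) := by push_cast; rfl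
          rw [h7, Int.natAbs_natCast]
        rwa [h6, h6] at h5
      have hfac : ∀ c : Fin m → ℕ, (∀ i, c i ≠ 0) →
          (∏ i, c i ^ s t i).factorization p = ∑ i, s t i * (c i).factorization p := by
        intro c hc
        rw [Nat.factorization_prod (fun i _ => pow_ne_zero _ (hc i)), Finsupp.coe_finsetSum,
          Finset.sum_apply]
        refine Finset.sum_congr rfl fun i _ => ?_
        rw [Nat.factorization_pow]
        rfl
      have e2 : ((∏ i, b i ^ s t i) * (y t).natAbs).factorization p =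
          ((∏ i, a i ^ s t i) * (x t).natAbs).factorization p := by rw [e1]
      rw [Nat.factorization_mul (hA b hb) (Int.natAbs_ne_zero.2 h2),
        Nat.factorization_mul (hA a ha) (Int.natAbs_ne_zero.2 h1), Finsupp.add_apply,
        Finsupp.add_apply, hfac b hb, hfac a ha] at e2
      have e3 : ∑ i, (s t i : ℝ) * ((b i).factorization p : ℝ) +
          ((y t).natAbs.factorization p : ℝ) = ∑ i, (s t i : ℝ) * ((a i).factorization p : ℝ) +
          ((x t).natAbs.factorization p : ℝ) := by exact_mod_cast e2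
      have e4 : ∑ i, ((((b i).factorization p : ℤ) - ((a i).factorization p : ℤ) : ℤ) : ℝ) *
          ((s t i : ℝ) / L t) = (∑ i, (s t i : ℝ) * ((b i).factorization p : ℝ) -
            ∑ i, (s t i : ℝ) * ((a i).factorization p : ℝ)) / L t := by
        rw [← Finset.sum_sub_distrib, Finset.sum_div]
        refine Finset.sum_congr rfl fun i _ => ?_
        push_cast
        ring
      rw [e4, ← sub_div, ← add_div, div_eq_zero_iff]
      left
      linarith
    have hlim : Tendsto (fun t =>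
        ∑ i, ((((b i).factorization p : ℤ) - ((a i).factorization p : ℤ) : ℤ) : ℝ) *
          ((s t i : ℝ) / L t) +
          ((((y t).natAbs.factorization p : ℕ) : ℝ) / L t -
            (((x t).natAbs.factorization p : ℕ) : ℝ) / L t)) F
        (𝓝 (∑ i, ((((b i).factorization p : ℤ) - ((a i).factorization p : ℤ) : ℤ) : ℝ) * ρ i +
          (0 - 0))) := by
      refine Tendsto.add ?_ ((hneg y hy hy0 p hp).sub (hneg x hx hx0 p hp))
      exact tendsto_finsetSum _ fun i _ => (hρ i).const_mul _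
    have h2 : Tendsto (fun _ : ℕ => (0 : ℝ)) F
        (𝓝 (∑ i, ((((b i).factorization p : ℤ) - ((a i).factorization p : ℤ) : ℤ) : ℝ) * ρ i +
          (0 - 0))) := hlim.congr' (by filter_upwards [hid] with t ht using ht)
    have h3 := tendsto_nhds_unique h2 tendsto_const_nhds
    rw [sub_zero, add_zero] at h3
    exact h3
  have hA : ∀ c : Fin m → ℕ, (∀ i, c i ≠ 0) → (∏ i, c i ^ v i) ≠ 0 := fun c hc =>
    Finset.prod_ne_zero_iff.2 fun i _ => pow_ne_zero _ (hc i)
  have hfac : ∀ c : Fin m → ℕ, (∀ i, c i ≠ 0) → ∀ p : ℕ,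
      (∏ i, c i ^ v i).factorization p = ∑ i, v i * (c i).factorization p := by
    intro c hc p
    rw [Nat.factorization_prod (fun i _ => pow_ne_zero _ (hc i)), Finsupp.coe_finsetSum,
      Finset.sum_apply]
    refine Finset.sum_congr rfl fun i _ => ?_
    rw [Nat.factorization_pow]
    rfl
  refine Nat.eq_of_factorization_eq (hA a ha) (hA b hb) fun p => ?_
  rw [hfac a ha, hfac b hb]
  by_cases hp : p.Prime
  · have h1 := key p hp
    have h2 : ∑ i, ((v i : ℤ)) * ((a i).factorization p : ℤ) =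
        ∑ i, ((v i : ℤ)) * ((b i).factorization p : ℤ) := by
      have h3 : ∑ i, ((v i : ℤ)) * ((b i).factorization p : ℤ) -
          ∑ i, ((v i : ℤ)) * ((a i).factorization p : ℤ) = 0 := by
        rw [← h1, ← Finset.sum_sub_distrib]
        refine Finset.sum_congr rfl fun i _ => ?_
        ring
      linarith
    exact_mod_cast h2
  · refine Finset.sum_congr rfl fun i _ => ?_
    rw [Nat.factorization_eq_zero_of_not_prime _ hp, Nat.factorization_eq_zero_of_not_prime _ hp]

end Pool.Agent.H298Y
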