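import Mathlib

set_option autoImplicit false

namespace Pool.Agent.H298Y

/-!
JOB T5 (helper298, MP_a89d6d_nt, very_famous). Truncation of zeta values inside a polynomial.
-/

/-- the zeta value `ζ(s)` -/
noncomputable def zt (s : ℕ) : ℝ := ∑' n : ℕ, 1 / ((n : ℝ) + 1) ^ s

/-- the truncated zeta value `∑_{1 ≤ n ≤ K} n ^ (-s)` -/
noncomputable def ztK (K s : ℕ) : ℝ := ∑ n ∈ Finset.range K, 1 / ((n : ℝ) + 1) ^ s

theorem t5_summable (s : ℕ) (hs : 2 ≤ s) : Summable (fun n : ℕ => 1 / ((n : ℝ) + 1) ^ s) := by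
  have h := (Real.summable_one_div_nat_pow (p := s)).mpr (by omega : 1 < s)
  have h2 := (summable_nat_add_iff 1).mpr h
  have h3 : (fun n : ℕ => 1 / ((n : ℝ) + 1) ^ s) = fun n : ℕ => 1 / (((n + 1 : ℕ)) : ℝ) ^ s := by
    funext n; push_cast; rfl
  rw [h3]; exact h2

theorem t5_tail (K s : ℕ) (hK : 1 ≤ K) (hs : 2 ≤ s) :
    0 ≤ zt s - ztK K s ∧ zt s - ztK K s ≤ zt 2 * ((K : ℝ) ^ 2 / (K : ℝ) ^ s) := by
  have hsum := t5_summable s hs
  have h1 := hsum.sum_add_tsum_nat_add K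
  have h2 : zt s - ztK K s = ∑' i : ℕ, 1 / (((i + K : ℕ) : ℝ) + 1) ^ s := by
    unfold zt ztK; linarith
  rw [h2]
  have hKr : (1 : ℝ) ≤ (K : ℝ) := by exact_mod_cast hK
  refine ⟨tsum_nonneg (fun i => by positivity), ?_⟩
  have hterm : ∀ i : ℕ, 1 / (((i + K : ℕ) : ℝ) + 1) ^ s
      ≤ (K : ℝ) ^ 2 / (K : ℝ) ^ s * (1 / ((i : ℝ) + 1) ^ 2) := by
    intro i
    obtain ⟨t, rfl⟩ : ∃ t, s = t + 2 := ⟨s - 2, by omega⟩
    have hi : (0 : ℝ) ≤ (i : ℝ) := Nat.cast_nonneg i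
    have e1 : (K : ℝ) ^ 2 / (K : ℝ) ^ (t + 2) * (1 / ((i : ℝ) + 1) ^ 2)
        = 1 / ((K : ℝ) ^ t * ((i : ℝ) + 1) ^ 2) := by
      have hK0 : (K : ℝ) ≠ 0 := by positivity
      have hi0 : (i : ℝ) + 1 ≠ 0 := by positivity
      rw [pow_add]
      field_simp
    rw [e1]
    apply one_div_le_one_div_of_le (by positivity)
    rw [pow_add]
    have a1 : (K : ℝ) ^ t ≤ (((i + K : ℕ) : ℝ) + 1) ^ t := by
      apply pow_le_pow_left₀ (by positivity)
      push_cast; linarith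
    have a2 : ((i : ℝ) + 1) ^ 2 ≤ (((i + K : ℕ) : ℝ) + 1) ^ 2 := by
      apply pow_le_pow_left₀ (by positivity)
      push_cast; linarith
    exact mul_le_mul a1 a2 (by positivity) (by positivity)
  have hs2 := t5_summable 2 le_rfl
  have hshift : Summable (fun i : ℕ => 1 / (((i + K : ℕ) : ℝ) + 1) ^ s) :=
    (summable_nat_add_iff (f := fun n : ℕ => 1 / ((n : ℝ) + 1) ^ s) K).mpr hsum
  have h3 := Summable.tsum_le_tsum hterm hshift (hs2.mul_left _)
  rw [tsum_mul_left] at h3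
  calc _ ≤ _ := h3
    _ = zt 2 * ((K : ℝ) ^ 2 / (K : ℝ) ^ s) := by unfold zt; ring

theorem t5_ztK_nonneg (K s : ℕ) : 0 ≤ ztK K s :=
  Finset.sum_nonneg (fun i _ => by positivity)

theorem t5_zt_le (s : ℕ) (hs : 2 ≤ s) : zt s ≤ zt 2 := by
  unfold zt
  apply Summable.tsum_le_tsum _ (t5_summable s hs) (t5_summable 2 le_rfl)
  intro i
  have hi : (0 : ℝ) ≤ (i : ℝ) := Nat.cast_nonneg i
  apply one_div_le_one_div_of_le (by positivity)
  exact pow_le_pow_right₀ (by linarith) hs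

theorem t5_one_le : 1 ≤ zt 2 := by
  have h1 := (t5_summable 2 le_rfl).sum_add_tsum_nat_add 1
  have h2 : 0 ≤ ∑' i : ℕ, 1 / (((i + 1 : ℕ) : ℝ) + 1) ^ 2 := tsum_nonneg (fun i => by positivity)
  have h3 : zt 2 = ∑' i : ℕ, 1 / ((i : ℝ) + 1) ^ 2 := rfl
  rw [h3, ← h1]
  simp only [Finset.sum_range_one, Nat.cast_zero, zero_add, one_pow, div_one]
  linarith

/-- comparison of two monomials -/
theorem t5_monomial {m : ℕ} (x y : Fin m → ℝ) (B η : ℝ) (hB : 1 ≤ B) (hη : 0 ≤ η)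
    (hx0 : ∀ i, 0 ≤ x i) (hxB : ∀ i, x i ≤ B) (hy0 : ∀ i, 0 ≤ y i) (hyB : ∀ i, y i ≤ B)
    (hxy : ∀ i, |x i - y i| ≤ η) (α : Fin m →₀ ℕ) :
    (0 ≤ ∏ i, x i ^ α i ∧ ∏ i, x i ^ α i ≤ B ^ (∑ i, α i)) ∧
    (0 ≤ ∏ i, y i ^ α i ∧ ∏ i, y i ^ α i ≤ B ^ (∑ i, α i)) ∧
    |∏ i, x i ^ α i - ∏ i, y i ^ α i| ≤ (∑ i, α i : ℕ) * B ^ (∑ i, α i) * η := by
  have hadd : ∀ α β : Fin m →₀ ℕ,
      ((0 ≤ ∏ i, x i ^ α i ∧ ∏ i, x i ^ α i ≤ B ^ (∑ i, α i)) ∧
      (0 ≤ ∏ i, y i ^ α i ∧ ∏ i, y i ^ α i ≤ B ^ (∑ i, α i)) ∧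
      |∏ i, x i ^ α i - ∏ i, y i ^ α i| ≤ (∑ i, α i : ℕ) * B ^ (∑ i, α i) * η) →
      ((0 ≤ ∏ i, x i ^ β i ∧ ∏ i, x i ^ β i ≤ B ^ (∑ i, β i)) ∧
      (0 ≤ ∏ i, y i ^ β i ∧ ∏ i, y i ^ β i ≤ B ^ (∑ i, β i)) ∧
      |∏ i, x i ^ β i - ∏ i, y i ^ β i| ≤ (∑ i, β i : ℕ) * B ^ (∑ i, β i) * η) →
      ((0 ≤ ∏ i, x i ^ (α + β) i ∧ ∏ i, x i ^ (α + β) i ≤ B ^ (∑ i, (α + β) i)) ∧
      (0 ≤ ∏ i, y i ^ (α + β) i ∧ ∏ i, y i ^ (α + β) i ≤ B ^ (∑ i, (α + β) i)) ∧
      |∏ i, x i ^ (α + β) i - ∏ i, y i ^ (α + β) i|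
        ≤ (∑ i, (α + β) i : ℕ) * B ^ (∑ i, (α + β) i) * η) := by
    intro α β hα hβ
    have ex : ∀ z : Fin m → ℝ, ∏ i, z i ^ (α + β) i = (∏ i, z i ^ α i) * ∏ i, z i ^ β i := by
      intro z
      rw [← Finset.prod_mul_distrib]
      apply Finset.prod_congr rfl
      intro i _
      rw [Finsupp.add_apply, pow_add]
    have es : ∑ i, (α + β) i = (∑ i, α i) + ∑ i, β i := by
      rw [← Finset.sum_add_distrib]
      rfl
    rw [ex x, ex y, es]
    obtain ⟨⟨a1, a2⟩, ⟨a3, a4⟩, a5⟩ := hα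
    obtain ⟨⟨b1, b2⟩, ⟨b3, b4⟩, b5⟩ := hβ
    set X := ∏ i, x i ^ α i
    set X' := ∏ i, x i ^ β i
    set Z := ∏ i, y i ^ α i
    set Z' := ∏ i, y i ^ β i
    set a := ∑ i, α i
    set b := ∑ i, β i
    have hBa : 0 ≤ B ^ a := by positivity
    have hBb : 0 ≤ B ^ b := by positivity
    refine ⟨⟨mul_nonneg a1 b1, ?_⟩, ⟨mul_nonneg a3 b3, ?_⟩, ?_⟩
    · rw [pow_add]; exact mul_le_mul a2 b2 b1 hBa
    · rw [pow_add]; exact mul_le_mul a4 b4 b3 hBa
    · have e : X * X' - Z * Z' = X * (X' - Z') + (X - Z) * Z' := by ring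
      rw [e]
      calc |X * (X' - Z') + (X - Z) * Z'|
          ≤ |X * (X' - Z')| + |(X - Z) * Z'| := abs_add_le _ _
        _ = X * |X' - Z'| + |X - Z| * Z' := by
            rw [abs_mul, abs_mul, abs_of_nonneg a1, abs_of_nonneg b3]
        _ ≤ B ^ a * ((b : ℝ) * B ^ b * η) + ((a : ℝ) * B ^ a * η) * B ^ b := by
            apply add_le_add
            · exact mul_le_mul a2 b5 (abs_nonneg _) hBa
            · exact mul_le_mul a5 b4 b3 (by positivity)
        _ = ((a + b : ℕ) : ℝ) * B ^ (a + b) * η := by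
            push_cast; rw [pow_add]; ring
  induction α using Finsupp.induction_linear with
  | zero => simp
  | add α β hα hβ => exact hadd α β hα hβ
  | single i k =>
    induction k with
    | zero => simp
    | succ k ih =>
      have e : Finsupp.single i (k + 1) = Finsupp.single i k + Finsupp.single i 1 := by
        rw [← Finsupp.single_add]
      rw [e]
      apply hadd _ _ ih
      have hp : ∀ z : Fin m → ℝ, ∏ j, z j ^ (Finsupp.single i 1 : Fin m →₀ ℕ) j = z i := by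
        intro z
        rw [Finset.prod_eq_single i]
        · simp
        · intro j _ hj
          rw [Finsupp.single_eq_of_ne hj, pow_zero]
        · intro h; exact absurd (Finset.mem_univ i) h
      have hs : ∑ j, (Finsupp.single i 1 : Fin m →₀ ℕ) j = 1 := by
        rw [Finset.sum_eq_single i]
        · simp
        · intro j _ hj
          rw [Finsupp.single_eq_of_ne hj]
        · intro h; exact absurd (Finset.mem_univ i) h
      rw [hp x, hp y, hs]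
      refine ⟨⟨hx0 i, by simpa using hxB i⟩, ⟨hy0 i, by simpa using hyB i⟩, ?_⟩
      have h1 := hxy i
      simp only [Nat.cast_one, one_mul, pow_one]
      nlinarith [h1]

theorem trunc (m D : ℕ) : ∃ C : ℝ, 0 < C ∧ ∀ (K n : ℕ) (s : Fin m → ℕ), 1 ≤ K → 2 ≤ n →
    (∀ i, n ≤ s i) → ∀ (P : MvPolynomial (Fin m) ℤ) (H : ℝ), 0 ≤ H → P.totalDegree ≤ D →
    (∀ α, |((P.coeff α : ℤ) : ℝ)| ≤ H) →
    |MvPolynomial.aeval (fun i => zt (s i)) P - MvPolynomial.aeval (fun i => ztK K (s i)) P| ≤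
      C * H * ((K : ℝ) ^ 2 / (K : ℝ) ^ n) := by
  set B : ℝ := zt 2 with hBdef
  have hB : 1 ≤ B := t5_one_le
  refine ⟨((D : ℝ) + 1) ^ m * ((D : ℝ) * B ^ D * B) + 1, by positivity, ?_⟩
  intro K n s hK hn hs P H hH hP hcoef
  have hKr : (1 : ℝ) ≤ (K : ℝ) := by exact_mod_cast hK
  have hKpos : (0 : ℝ) < (K : ℝ) := by linarith
  set q : ℝ := (K : ℝ) ^ 2 / (K : ℝ) ^ n with hq
  have hq0 : 0 ≤ q := by positivity
  have hη : 0 ≤ B * q := by positivity
  have hxy : ∀ i, |zt (s i) - ztK K (s i)| ≤ B * q := by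
    intro i
    have hs2 : 2 ≤ s i := le_trans hn (hs i)
    obtain ⟨h1, h2⟩ := t5_tail K (s i) hK hs2
    rw [abs_of_nonneg h1]
    refine le_trans h2 ?_
    apply mul_le_mul_of_nonneg_left _ (by linarith)
    apply div_le_div_of_nonneg_left (by positivity) (by positivity)
    exact pow_le_pow_right₀ hKr (hs i)
  have hy0 : ∀ i, 0 ≤ ztK K (s i) := fun i => t5_ztK_nonneg K (s i)
  have hyx : ∀ i, ztK K (s i) ≤ zt (s i) := by
    intro i
    have := (t5_tail K (s i) hK (le_trans hn (hs i))).1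
    linarith
  have hxB : ∀ i, zt (s i) ≤ B := fun i => t5_zt_le (s i) (le_trans hn (hs i))
  have hmon := t5_monomial (fun i => zt (s i)) (fun i => ztK K (s i)) B (B * q) hB hη
    (fun i => le_trans (hy0 i) (hyx i)) hxB hy0 (fun i => le_trans (hyx i) (hxB i)) hxy
  rw [MvPolynomial.aeval_def, MvPolynomial.aeval_def, MvPolynomial.eval₂_eq',
    MvPolynomial.eval₂_eq', ← Finset.sum_sub_distrib]
  have hdeg : ∀ d ∈ P.support, ∑ i, d i ≤ D := by
    intro d hd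
    have h1 := MvPolynomial.le_totalDegree hd
    rw [Finsupp.sum_fintype _ _ (fun _ => rfl)] at h1
    exact le_trans h1 hP
  have hcard : (P.support.card : ℝ) ≤ ((D : ℝ) + 1) ^ m := by
    have h1 : P.support.card ≤ (Fintype.piFinset (fun _ : Fin m => Finset.range (D + 1))).card := by
      apply Finset.card_le_card_of_injOn (fun d : Fin m →₀ ℕ => (d : Fin m → ℕ))
      · intro d hd
        have hd' : d ∈ P.support := hd
        have h2 := hdeg d hd'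
        rw [Finset.mem_coe, Fintype.mem_piFinset]
        intro i
        rw [Finset.mem_range]
        have h3 : d i ≤ ∑ j, d j := Finset.single_le_sum (fun j _ => Nat.zero_le _) (Finset.mem_univ i)
        show d i < D + 1
        omega
      · intro d _ e _ h
        exact DFunLike.coe_injective h
    rw [Fintype.card_piFinset_const, Finset.card_range] at h1
    have h2 : (P.support.card : ℝ) ≤ (((D + 1) ^ m : ℕ) : ℝ) := by exact_mod_cast h1
    push_cast at h2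
    simpa using h2
  calc |∑ d ∈ P.support, ((algebraMap ℤ ℝ) (MvPolynomial.coeff d P) * ∏ i, zt (s i) ^ d i
          - (algebraMap ℤ ℝ) (MvPolynomial.coeff d P) * ∏ i, ztK K (s i) ^ d i)|
      ≤ ∑ d ∈ P.support, |(algebraMap ℤ ℝ) (MvPolynomial.coeff d P) * ∏ i, zt (s i) ^ d i
          - (algebraMap ℤ ℝ) (MvPolynomial.coeff d P) * ∏ i, ztK K (s i) ^ d i| :=
        Finset.abs_sum_le_sum_abs _ _
    _ ≤ ∑ d ∈ P.support, H * ((D : ℝ) * B ^ D * (B * q)) := by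
        apply Finset.sum_le_sum
        intro d hd
        rw [← mul_sub, abs_mul]
        have h1 : |(algebraMap ℤ ℝ) (MvPolynomial.coeff d P)| ≤ H := by
          simpa using hcoef d
        have h2 := (hmon d).2.2
        have h3 : ((∑ i, d i : ℕ) : ℝ) * B ^ (∑ i, d i) * (B * q)
            ≤ (D : ℝ) * B ^ D * (B * q) := by
          have h4 : ((∑ i, d i : ℕ) : ℝ) ≤ (D : ℝ) := by exact_mod_cast hdeg d hd
          have h5 : B ^ (∑ i, d i) ≤ B ^ D := pow_le_pow_right₀ hB (hdeg d hd)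
          apply mul_le_mul_of_nonneg_right _ hη
          exact mul_le_mul h4 h5 (by positivity) (by positivity)
        exact mul_le_mul h1 (le_trans h2 h3) (abs_nonneg _) hH
    _ = (P.support.card : ℝ) * (H * ((D : ℝ) * B ^ D * (B * q))) := by
        rw [Finset.sum_const, nsmul_eq_mul]
    _ ≤ ((D : ℝ) + 1) ^ m * (H * ((D : ℝ) * B ^ D * (B * q))) :=
        mul_le_mul_of_nonneg_right hcard (by positivity)
    _ ≤ (((D : ℝ) + 1) ^ m * ((D : ℝ) * B ^ D * B) + 1) * H * q := by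
        have : 0 ≤ H * q := by positivity
        nlinarith [this]

end Pool.Agent.H298Y
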