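import Pool.Agent.TH507.ZS.KL3
import Pool.Agent.H298Y.T2
import Pool.Agent.H298Y.T3
import Pool.Agent.H298Y.T4
import Pool.Agent.H298Y.T5

/-!
# Unit germs `∏ k ^ (-s_i)` and their classes
-/

set_option autoImplicit false

namespace Pool.Agent.H298Y

open Filter Topology Pool.Agent.TH932.Germs Pool.Agent.TH551.SU Pool.Agent.TH461.SST
open Pool.Agent.TH507.ZS

lemma gm_prod {ι : Type*} (A : Finset ι) (f : ι → ℕ → ℚ) :
    gm (fun n => ∏ i ∈ A, f i n) = ∏ i ∈ A, gm (f i) := by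
  classical
  induction A using Finset.induction_on with
  | empty => simp [gm_one]
  | insert a A ha ih =>
    rw [Finset.prod_insert ha, ← ih, gm_mul]
    congr 1
    funext n
    rw [Finset.prod_insert ha]

section

variable {m : ℕ}

/-- the germ of `k ^ (-s_i)` -/
noncomputable def om (s : ℕ → Fin m → ℕ) (i : Fin m) (k : ℕ) : GG :=
  gm fun t => ((k : ℚ) ^ (s t i))⁻¹

/-- the product of the `((k + 1) ^ (e i)) ^ (β (i, k))` -/
def Zf (e : Fin m → ℕ) (β : (Fin m × ℕ) →₀ ℕ) : ℕ :=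
  ∏ x ∈ β.support, ((x.2 + 1) ^ (e x.1)) ^ (β x)

/-- the product of the `(k + 1) ^ (β (i, k))` for a fixed `i` -/
def Af (β : (Fin m × ℕ) →₀ ℕ) (i : Fin m) : ℕ :=
  ∏ x ∈ β.support, if x.1 = i then (x.2 + 1) ^ (β x) else 1

lemma Af_pos (β : (Fin m × ℕ) →₀ ℕ) (i : Fin m) : 0 < Af β i := by
  unfold Af
  refine Finset.prod_pos fun x _ => ?_
  split_ifs
  · positivity
  · exact one_pos

lemma Zf_pos (e : Fin m → ℕ) (β : (Fin m × ℕ) →₀ ℕ) : 0 < Zf e β := by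
  unfold Zf
  exact Finset.prod_pos fun x _ => by positivity

lemma Zf_eq (e : Fin m → ℕ) (β : (Fin m × ℕ) →₀ ℕ) : Zf e β = ∏ i, (Af β i) ^ (e i) := by
  unfold Zf Af
  simp only [← Finset.prod_pow]
  rw [Finset.prod_comm]
  refine Finset.prod_congr rfl fun x _ => ?_
  rw [Finset.prod_eq_single x.1]
  · rw [if_pos rfl, ← pow_mul, ← pow_mul, mul_comm]
  · intro i _ hi
    rw [if_neg (Ne.symm hi), one_pow]
  · intro h
    exact absurd (Finset.mem_univ _) h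

lemma U_eq (s : ℕ → Fin m → ℕ) (β : (Fin m × ℕ) →₀ ℕ) :
    ∏ x ∈ β.support, (om s x.1 (x.2 + 1)) ^ (β x) = gm fun t => ((Zf (s t) β : ℕ) : ℚ)⁻¹ := by
  unfold om Zf
  simp only [gm_pow]
  rw [← gm_prod]
  congr 1
  funext t
  push_cast
  rw [← Finset.prod_inv_distrib]
  refine Finset.prod_congr rfl fun x _ => ?_
  rw [inv_pow]

/-- a family containing all primes up to `M` -/
lemma exists_primes (M : ℕ) : ∃ (r : ℕ) (b : Fin r → ℕ), (∀ v, (b v).Prime) ∧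
    Function.Injective b ∧ ∀ p, p.Prime → p ≤ M → ∃ v, b v = p := by
  classical
  let S := (Finset.range (M + 1)).filter Nat.Prime
  refine ⟨S.card, fun v => (S.equivFin.symm v : ℕ), fun v => ?_, ?_, ?_⟩
  · exact (Finset.mem_filter.1 (S.equivFin.symm v).2).2
  · exact Subtype.val_injective.comp S.equivFin.symm.injective
  · intro p hp hpM
    have hpS : p ∈ S := Finset.mem_filter.2 ⟨Finset.mem_range.2 (by omega), hp⟩
    exact ⟨S.equivFin ⟨p, hpS⟩, by simp⟩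

lemma hsu (s : ℕ → Fin m → ℕ) (L : ℕ → ℝ) (R : ℝ) (hs : ∀ t i, (s t i : ℝ) ≤ R * L t)
    (β : (Fin m × ℕ) →₀ ℕ) (M : ℕ) (hM : ∀ x ∈ β.support, x.2 + 1 ≤ M) {r : ℕ} (b : Fin r → ℕ)
    (hbi : Function.Injective b) (hbM : ∀ p, p.Prime → p ≤ M → ∃ v, b v = p) :
    HSU b L (gm fun t => ((Zf (s t) β : ℕ) : ℚ)⁻¹) := by
  have h1 : ∀ t, HB b (Real.log (Zf (s t) β : ℕ) / Real.log 2) ((Zf (s t) β : ℕ) : ℚ) := by
    intro t
    refine HB.nat b hbi _ (Zf_pos _ _).ne' fun p hp hpd => ?_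
    unfold Zf at hpd
    obtain ⟨x, hx, hpx⟩ := (hp.prime.dvd_finset_prod_iff _).1 hpd
    have h2 := hp.dvd_of_dvd_pow (hp.dvd_of_dvd_pow hpx)
    exact hbM p hp ((Nat.le_of_dvd (by omega) h2).trans (hM x hx))
  have hl2 : 0 < Real.log 2 := Real.log_pos (by norm_num)
  refine ⟨_, (∑ x ∈ β.support, (β x : ℝ) * (R * Real.log (x.2 + 1))) / Real.log 2, rfl,
    fun t => (h1 t).inv.isSU, Eventually.of_forall fun t => (h1 t).inv.mono ?_⟩
  rw [div_mul_eq_mul_div]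
  refine div_le_div_of_nonneg_right ?_ hl2.le
  unfold Zf
  push_cast
  rw [Real.log_prod (fun x _ => by positivity), Finset.sum_mul]
  refine Finset.sum_le_sum fun x _ => ?_
  rw [Real.log_pow, Real.log_pow]
  have h3 : 0 ≤ Real.log ((x.2 : ℝ) + 1) := Real.log_nonneg (by linarith [Nat.cast_nonneg (α := ℝ) x.2])
  have h4 := hs t x.1
  have h5 : (s t x.1 : ℝ) * Real.log ((x.2 : ℝ) + 1) ≤ R * L t * Real.log ((x.2 : ℝ) + 1) :=
    mul_le_mul_of_nonneg_right h4 h3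
  calc (β x : ℝ) * ((s t x.1 : ℝ) * Real.log ((x.2 : ℝ) + 1)) ≤
        (β x : ℝ) * (R * L t * Real.log ((x.2 : ℝ) + 1)) :=
        mul_le_mul_of_nonneg_left h5 (Nat.cast_nonneg _)
    _ = _ := by ring

/-- units with negligible quotient have the same weight `∏ a_i ^ v_i` -/
lemma same_weight (s : ℕ → Fin m → ℕ) (L : ℕ → ℝ) (hL : Tendsto L atTop atTop) (ρ : Fin m → ℝ)
    (hρ : ∀ i, Tendsto (fun t => (s t i : ℝ) / L t) (UU : Filter ℕ) (𝓝 (ρ i))) (v : Fin m → ℕ)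
    (hv : ∀ γ : Fin m → ℤ, ∑ i, (γ i : ℝ) * ρ i = 0 → ∑ i, γ i * (v i : ℤ) = 0)
    (β β' : (Fin m × ℕ) →₀ ℕ)
    (h : (gm fun t => ((Zf (s t) β : ℕ) : ℚ)⁻¹) / (gm fun t => ((Zf (s t) β' : ℕ) : ℚ)⁻¹) ∈
      KK L hL) : Zf v β = Zf v β' := by
  obtain ⟨x, y, hx, hy, hy0, he⟩ := h
  rw [gm_div, gm_eq] at he
  rw [Zf_eq, Zf_eq]
  refine class_eq s L (UU : Filter ℕ) (hL.mono_left (Nat.hyperfilter_le_atTop)) ρ hρ v hv _ _
    (fun i => (Af_pos β i).ne') (fun i => (Af_pos β' i).ne') x y hx hy hy0 ?_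
  filter_upwards [he, hy0] with t h1 h2
  have h3 : ((Zf (s t) β : ℕ) : ℚ) ≠ 0 := by exact_mod_cast (Zf_pos _ _).ne'
  have h4 : ((Zf (s t) β' : ℕ) : ℚ) ≠ 0 := by exact_mod_cast (Zf_pos _ _).ne'
  have h5 : (y t : ℚ) ≠ 0 := by exact_mod_cast h2
  have h6 : ((Zf (s t) β' : ℕ) : ℚ) * y t = ((Zf (s t) β : ℕ) : ℚ) * x t := by
    rw [div_eq_div_iff (inv_ne_zero h4) h5] at h1
    field_simp at h1
    linarith [h1]
  rw [Zf_eq, Zf_eq] at h6
  exact_mod_cast h6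

end

end Pool.Agent.H298Y
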