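import Pool.Agent.H298Y.Alg
import Pool.Agent.H298Y.Units

/-!
# Vanishing of the Dirichlet coefficients
-/

set_option autoImplicit false

namespace Pool.Agent.H298Y

open Filter Topology Pool.Agent.TH932.Germs Pool.Agent.TH551.SU Pool.Agent.TH461.SST
open Pool.Agent.TH507.ZS

section

variable {m : ℕ}

/-- the unit of a monomial -/
noncomputable def Ug (s : ℕ → Fin m → ℕ) (β : (Fin m × ℕ) →₀ ℕ) : GG :=
  gm fun t => ((Zf (s t) β : ℕ) : ℚ)⁻¹

lemma Ug_ne (s : ℕ → Fin m → ℕ) (β : (Fin m × ℕ) →₀ ℕ) : Ug s β ≠ 0 := by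
  unfold Ug
  rw [gm_ne_zero]
  refine Eventually.of_forall fun t => inv_ne_zero ?_
  exact_mod_cast (Zf_pos _ _).ne'

lemma ev_sub {k S : Type*} [CommRing k] [CommRing S] (f : k →+* S) (g : Fin m × ℕ → S) (K : ℕ)
    (P : MvPolynomial (Fin m) k) :
    MvPolynomial.eval₂ f g (MvPolynomial.aeval (fun i => ∑ j ∈ Finset.range K,
      (MvPolynomial.X (i, j) : MvPolynomial (Fin m × ℕ) k)) P) =
    MvPolynomial.eval₂ f (fun i => ∑ j ∈ Finset.range K, g (i, j)) P := by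
  induction P using MvPolynomial.induction_on with
  | C a =>
    rw [MvPolynomial.aeval_C, MvPolynomial.algebraMap_eq, MvPolynomial.eval₂_C,
      MvPolynomial.eval₂_C]
  | add p q hp hq => rw [map_add, MvPolynomial.eval₂_add, MvPolynomial.eval₂_add, hp, hq]
  | mul_X p i hp =>
    rw [map_mul, MvPolynomial.eval₂_mul, MvPolynomial.eval₂_mul, hp, MvPolynomial.aeval_X,
      MvPolynomial.eval₂_X, MvPolynomial.eval₂_sum]
    congr 1
    refine Finset.sum_congr rfl fun j _ => ?_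
    rw [MvPolynomial.eval₂_X]

/-- vanishing of one Dirichlet coefficient -/
theorem vanish_at (s : ℕ → Fin m → ℕ) (L : ℕ → ℝ) (hL : Tendsto L atTop atTop) (R : ℝ)
    (hs : ∀ t i, (s t i : ℝ) ≤ R * L t) (v : Fin m → ℕ) (hv1 : ∀ i, 1 ≤ v i)
    (hsame : ∀ β β' : (Fin m × ℕ) →₀ ℕ, Ug s β / Ug s β' ∈ KK L hL → Zf v β = Zf v β')
    (A : Finset (Fin m →₀ ℕ)) (c : (Fin m →₀ ℕ) → KK L hL) (N0 K : ℕ) (hK : N0 ≤ K)
    (VK : ℕ → ℚ)
    (hVK : gm VK = MvPolynomial.eval₂ (KK L hL).subtype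
      (fun i => ∑ k ∈ Finset.range K, om s i (k + 1)) (poly A c))
    (hsm : ∀ β : (Fin m × ℕ) →₀ ℕ, Zf v β = N0 → ∀ᶠ t in (UU : Filter ℕ),
      |(VK t : ℝ)| ≤ Real.exp (-(1 * L t)) * |((((Zf (s t) β : ℕ) : ℚ)⁻¹ : ℚ) : ℝ)|) :
    MvPolynomial.eval₂ ((algebraMap GG (ArithmeticFunction GG)).comp (KK L hL).subtype)
      (fun i => pwf (v i) (fun k => om s i k)) (poly A c) N0 = 0 := by
  classical
  obtain ⟨Θ, hΘ⟩ : ∃ Θ : MvPolynomial (Fin m × ℕ) (KK L hL), Θ = MvPolynomial.aeval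
    (fun i => ∑ j ∈ Finset.range K,
      (MvPolynomial.X (i, j) : MvPolynomial (Fin m × ℕ) (KK L hL))) (poly A c) := ⟨_, rfl⟩
  -- the value
  have hT : ∑ β ∈ Θ.support, ((MvPolynomial.coeff β Θ : KK L hL) : GG) * Ug s β = gm VK := by
    have h1 := ev_sub (KK L hL).subtype (fun x : Fin m × ℕ => om s x.1 (x.2 + 1)) K (poly A c)
    rw [← hΘ] at h1
    rw [hVK, ← h1, MvPolynomial.eval₂_eq]
    refine Finset.sum_congr rfl fun β _ => ?_
    rw [U_eq]
    rfl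
  -- the Dirichlet coefficients
  have hT' : MvPolynomial.eval₂ ((algebraMap GG (ArithmeticFunction GG)).comp (KK L hL).subtype)
      (fun i => pwf (v i) (fun k => om s i k)) (poly A c) N0 =
      ∑ β ∈ Θ.support with (N0 = Zf v β ∧ N0 ≠ 0),
        ((MvPolynomial.coeff β Θ : KK L hL) : GG) * Ug s β := by
    have h1 := ev_sub ((algebraMap GG (ArithmeticFunction GG)).comp (KK L hL).subtype)
      (fun x : Fin m × ℕ => dl ((x.2 + 1) ^ (v x.1)) (om s x.1 (x.2 + 1))) K (poly A c)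
    rw [← hΘ] at h1
    have h2 := Agr.eval₂ ((algebraMap GG (ArithmeticFunction GG)).comp (KK L hL).subtype) _ _
      (fun i => agr_pwf K (v i) (hv1 i) (fun k => om s i k)) (poly A c)
    rw [← h2 N0 hK]
    have h3 : MvPolynomial.eval₂ ((algebraMap GG (ArithmeticFunction GG)).comp
        (KK L hL).subtype) (fun i => ∑ k ∈ Finset.range K, dl ((k + 1) ^ (v i))
          (om s i (k + 1))) (poly A c) = MvPolynomial.eval₂
        ((algebraMap GG (ArithmeticFunction GG)).comp (KK L hL).subtype)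
        (fun x : Fin m × ℕ => dl ((x.2 + 1) ^ (v x.1)) (om s x.1 (x.2 + 1))) Θ := h1.symm
    rw [h3, MvPolynomial.eval₂_eq, sum_apply_af, Finset.sum_filter]
    refine Finset.sum_congr rfl fun β _ => ?_
    have h4 : ∏ x ∈ β.support, (dl ((x.2 + 1) ^ (v x.1)) (om s x.1 (x.2 + 1)) :
        ArithmeticFunction GG) ^ (β x) = dl (Zf v β) (Ug s β) := by
      rw [Finset.prod_congr rfl fun x _ => dl_pow ((x.2 + 1) ^ (v x.1)) (by positivity)
        (om s x.1 (x.2 + 1)) (β x), dl_prod _ _ (fun x _ => by positivity), U_eq]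
      rfl
    rw [h4, RingHom.comp_apply, algebraMap_mul_apply', dl_apply, mul_ite, mul_zero]
    rfl
  rw [hT']
  by_cases hN0 : N0 = 0
  · rw [Finset.filter_false_of_mem (fun β _ h => h.2 hN0), Finset.sum_empty]
  -- representing sequences
  have hrep : ∀ β, ∃ κ : ℕ → ℚ, gm κ = ((MvPolynomial.coeff β Θ : KK L hL) : GG) := fun β =>
    gm_surj _
  choose κ hκ using hrep
  obtain ⟨x, hxdef⟩ : ∃ x : ((Fin m × ℕ) →₀ ℕ) → ℕ → ℚ, x = fun β t =>
    κ β t * ((Zf (s t) β : ℕ) : ℚ)⁻¹ := ⟨_, rfl⟩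
  have hx : ∀ β, gm (x β) = ((MvPolynomial.coeff β Θ : KK L hL) : GG) * Ug s β := by
    intro β
    rw [← hκ, hxdef]
    rfl
  -- the primes
  obtain ⟨M, hM⟩ : ∃ M : ℕ, ∀ β ∈ Θ.support, ∀ y ∈ β.support, y.2 + 1 ≤ M := by
    refine ⟨Θ.support.sup fun β => β.support.sup fun y => y.2 + 1, fun β hβ y hy => ?_⟩
    exact (Finset.le_sup (f := fun y : Fin m × ℕ => y.2 + 1) hy).trans
      (Finset.le_sup (f := fun β : (Fin m × ℕ) →₀ ℕ => β.support.sup fun y => y.2 + 1) hβ)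
  obtain ⟨r, b, hb, hbi, hbM⟩ := exists_primes M
  have hU : ∀ β ∈ Θ.support, HSU b L (Ug s β) := fun β hβ =>
    hsu s L R hs β M (hM β hβ) b hbi hbM
  -- the equivalence relation
  let S : Setoid ((Fin m × ℕ) →₀ ℕ) := ⟨fun β β' => Ug s β / Ug s β' ∈ KK L hL,
    ⟨fun β => by rw [div_self (Ug_ne s β)]; exact (KK L hL).one_mem,
     fun {β β'} h => by rw [← inv_div]; exact (KK L hL).inv_mem h,
     fun {β β' β''} h1 h2 => by
      rw [← div_mul_div_cancel₀ (Ug_ne s β')]; exact (KK L hL).mul_mem h1 h2⟩⟩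
  have hS : ∀ β β' : (Fin m × ℕ) →₀ ℕ, (Quotient.mk S β = Quotient.mk S β') ↔
      Ug s β / Ug s β' ∈ KK L hL := fun β β' => Quotient.eq
  have hfil : Θ.support.filter (fun β => N0 = Zf v β ∧ N0 ≠ 0) =
      Θ.support.filter (fun β => Zf v β = N0) := by
    refine Finset.filter_congr fun β _ => ?_
    exact ⟨fun h => h.1.symm, fun h => ⟨h.symm, hN0⟩⟩
  rw [hfil, Finset.sum_congr rfl fun β _ => (hx β).symm, Finset.sum_partition S]
  refine Finset.sum_eq_zero fun q hq => ?_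
  obtain ⟨β0, hβ0, rfl⟩ := Finset.mem_image.1 hq
  obtain ⟨hβs, hβN⟩ := Finset.mem_filter.1 hβ0
  have h1 := gr2 b hb hbi L hL Θ.support (Ug s) hU (fun β => MvPolynomial.coeff β Θ) x
    (fun β _ => hx β) β0 hβs (fun t => ((Zf (s t) β0 : ℕ) : ℚ)⁻¹) rfl 1 one_pos (by
      have h2 : gm (fun t => ∑ β ∈ Θ.support, x β t) = gm VK := by
        rw [gm_sum, Finset.sum_congr rfl fun β _ => hx β, hT]
      filter_upwards [gm_eq.1 h2, hsm β0 hβN] with t h3 h4
      have h5 : ∑ β ∈ Θ.support, (x β t : ℝ) = (VK t : ℝ) := by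
        rw [← h3]
        push_cast
        rfl
      rw [h5]
      exact h4) (fun β => Ug s β / Ug s β0 ∈ KK L hL) (fun β _ => Iff.rfl)
  rw [← h1, Finset.filter_filter]
  refine Finset.sum_congr ?_ fun _ _ => rfl
  refine Finset.filter_congr fun β _ => ?_
  rw [← hS]
  constructor
  · rintro ⟨_, h⟩
    exact h
  · intro h
    refine ⟨?_, h⟩
    rw [hsame β β0 ((hS β β0).1 h), hβN]

end

end Pool.Agent.H298Y
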