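import Pool.Agent.H298Y.GVan2

/-!
# `π` and zeta values with arguments near a compact set of directions without coincidences
-/

set_option autoImplicit false

namespace Pool.Agent.H298Y

open Filter Topology Pool.Agent.TH932.Germs

/-- **`π` and zeta values, directions without coincidences** -/
theorem dirs_good (m D : ℕ) (𝒦 : Set (Fin m → ℝ)) (h𝒦 : IsCompact 𝒦)
    (hpos : ∀ ρ ∈ 𝒦, ∀ i, 0 < ρ i) (hgood : ∀ ρ ∈ 𝒦, Good ρ) : ∃ δ B : ℝ, 0 < δ ∧ 1 < B ∧
    ∃ n0 : ℕ, ∀ n : ℕ, n0 ≤ n → ∀ s : Fin m → ℕ, Function.Injective s →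
    (∃ ρ ∈ 𝒦, ∀ i, |(s i : ℝ) - ρ i * n| ≤ δ * n) →
    ∀ P : MvPolynomial (Fin m) (Polynomial ℤ), P ≠ 0 → P.totalDegree ≤ D →
    (∀ α, (P.coeff α).natDegree ≤ D) →
    (∀ α j, |(((P.coeff α).coeff j : ℤ) : ℝ)| ≤ Real.exp (δ * n)) →
    (B ^ n)⁻¹ < |MvPolynomial.eval₂ (Polynomial.aeval Real.pi : Polynomial ℤ →ₐ[ℤ] ℝ).toRingHom
      (fun i => zt (s i)) P| := by
  classical
  by_contra hcon
  push Not at hcon
  choose n hn s hinj hsd P hP0 hPD hPn hPc hPv using fun t : ℕ => hcon (1 / ((t : ℝ) + 1))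
    ((t : ℝ) + 2) (by positivity) (by have : (0 : ℝ) ≤ t := Nat.cast_nonneg t
                                      linarith) (t + 4)
  choose σ hσ hsσ using hsd
  obtain ⟨L, hLdef⟩ : ∃ L : ℕ → ℝ, L = fun t => (n t : ℝ) := ⟨_, rfl⟩
  have hLt : ∀ t, L t = n t := fun t => by rw [hLdef]
  have hn' : ∀ t, t ≤ n t := fun t => by have := hn t; omega
  have hL : Tendsto L atTop atTop := by
    rw [hLdef]
    exact tendsto_natCast_atTop_atTop.comp (tendsto_atTop_mono hn' tendsto_id)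
  -- the limit direction
  obtain ⟨ρ, hρK, hlim⟩ := h𝒦.ultrafilter_le_nhds (UU.map σ) (by
    rw [Filter.le_principal_iff]
    exact Filter.mem_map.2 (Filter.univ_mem' fun t => hσ t))
  have hlim' : Tendsto σ (UU : Filter ℕ) (𝓝 ρ) := hlim
  have hρ := hpos ρ hρK
  have hg := hgood ρ hρK
  obtain ⟨v, hv1, -, hv⟩ := exists_v ρ hρ
  have hdist : Tendsto (fun t => dist (σ t) ρ) (UU : Filter ℕ) (𝓝 0) :=
    tendsto_iff_dist_tendsto_zero.1 hlim'
  obtain ⟨e, he⟩ : ∃ e : ℕ → ℝ, e = fun t : ℕ => (1 / ((t : ℝ) + 1) + dist (σ t) ρ) * n t :=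
    ⟨_, rfl⟩
  have hs : ∀ t i, |(s t i : ℝ) - ρ i * n t| ≤ e t := by
    intro t i
    have h1 := hsσ t i
    have h2 : |σ t i - ρ i| ≤ dist (σ t) ρ := by
      rw [← Real.dist_eq]
      exact dist_le_pi_dist (σ t) ρ i
    have h3 : (s t i : ℝ) - ρ i * n t = ((s t i : ℝ) - σ t i * n t) + (σ t i - ρ i) * n t := by
      ring
    rw [h3, he]
    simp only
    rw [add_mul]
    refine (abs_add_le _ _).trans (add_le_add h1 ?_)
    rw [abs_mul, abs_of_nonneg (Nat.cast_nonneg (α := ℝ) (n t))]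
    exact mul_le_mul_of_nonneg_right h2 (Nat.cast_nonneg _)
  have hinv : ∀ ε : ℝ, 0 < ε → ∀ᶠ t : ℕ in (UU : Filter ℕ), 1 / ((t : ℝ) + 1) ≤ ε := by
    intro ε hε
    refine ev_of_atTop ?_
    have h2 := tendsto_one_div_add_atTop_nhds_zero_nat (𝕜 := ℝ)
    exact (h2.eventually (gt_mem_nhds hε)).mono fun t ht => le_of_lt ht
  have hee : ∀ ε : ℝ, 0 < ε → ∀ᶠ t in (UU : Filter ℕ), e t ≤ ε * L t := by
    intro ε hε
    filter_upwards [hinv (ε / 2) (by positivity),
      hdist.eventually (gt_mem_nhds (half_pos hε))] with t h1 h2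
    rw [he, hLt]
    simp only
    exact mul_le_mul_of_nonneg_right (by linarith) (Nat.cast_nonneg _)
  -- the coefficients
  have hnegl : ∀ α j, Negl L (fun t => ((P t).coeff α).coeff j) := by
    intro α j ε hε
    filter_upwards [hinv ε hε] with t ht
    refine (hPc t α j).trans ?_
    rw [Real.exp_le_exp, hLt]
    exact mul_le_mul_of_nonneg_right ht (Nat.cast_nonneg _)
  have hcm : ∀ α, (rm fun t => Polynomial.aeval Real.pi ((P t).coeff α)) ∈ SS L hL := fun α =>
    ⟨D, fun t => (P t).coeff α, fun t => hPn t α, hnegl α, rfl⟩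
  obtain ⟨c, hc⟩ : ∃ c : (Fin m →₀ ℕ) → SS L hL, ∀ α, ((c α : SS L hL) : RR) =
      rm fun t => Polynomial.aeval Real.pi ((P t).coeff α) := ⟨fun α => ⟨_, hcm α⟩, fun α => rfl⟩
  obtain ⟨VK, hVKdef⟩ : ∃ VK : ℕ → ℕ → ℝ, VK = fun K t => ∑ α ∈ bx m D,
      Polynomial.aeval Real.pi ((P t).coeff α) * ∏ i, ztK K (s t i) ^ α i := ⟨_, rfl⟩
  have hVK : ∀ K, rm (VK K) = MvPolynomial.eval₂ (SS L hL).subtype
      (fun i => ∑ k ∈ Finset.range K, omr s i (k + 1)) (poly (bx m D) c) := by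
    intro K
    rw [eval₂_poly, hVKdef]
    simp only
    rw [rm_sum]
    refine Finset.sum_congr rfl fun α _ => ?_
    rw [← rm_mul, rm_prod]
    congr 1
    · exact (hc α).symm
    · refine Finset.prod_congr rfl fun i _ => ?_
      rw [← rm_pow]
      congr 1
      have h1 : (fun t => ztK K (s t i)) = fun t => ∑ k ∈ Finset.range K,
          (((k + 1 : ℕ) : ℝ) ^ (s t i))⁻¹ := by
        funext t
        unfold ztK
        refine Finset.sum_congr rfl fun k _ => ?_
        rw [one_div]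
        push_cast
        rfl
      rw [h1, rm_sum]
      rfl
  obtain ⟨C, hC, htr⟩ := truncR m D
  obtain ⟨r, hr0, _, hrρ⟩ := exists_gap (Finset.univ : Finset (Fin m)) ρ (fun i _ => hρ i)
  have hbxs : ∀ t, ∀ α, (P t).coeff α ≠ 0 → α ∈ bx m D := by
    intro t α hα
    unfold bx
    rw [Finset.mem_Iic]
    intro i
    have h1 := MvPolynomial.le_totalDegree (MvPolynomial.mem_support_iff.2 hα)
    rw [Finsupp.sum_fintype _ _ (fun _ => rfl)] at h1
    have h2 : α i ≤ ∑ j, α j := Finset.single_le_sum (f := fun j => α j)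
      (fun _ _ => Nat.zero_le _) (Finset.mem_univ i)
    exact h2.trans (h1.trans (hPD t))
  have hsm : ∀ (N : ℕ) (b : ℝ), ∃ K, N ≤ K ∧ ∀ᶠ t in (UU : Filter ℕ),
      |VK K t| ≤ Real.exp (-(b * L t)) := by
    intro N b
    obtain ⟨b', hb'⟩ : ∃ b' : ℝ, b' = max b 1 := ⟨_, rfl⟩
    have hbb : b ≤ b' := by rw [hb']; exact le_max_left _ _
    have hb1 : 1 ≤ b' := by rw [hb']; exact le_max_right _ _
    obtain ⟨K0, hK0⟩ := exists_nat_ge (Real.exp ((b' + 3) / (r / 2)))
    obtain ⟨K, hK⟩ : ∃ K : ℕ, K = max (max N 2) K0 := ⟨_, rfl⟩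
    have hK2 : 2 ≤ K := by omega
    have hKr : (1 : ℝ) ≤ K := by
      have : 1 ≤ K := by omega
      exact_mod_cast this
    have hKpos : (0 : ℝ) < K := by linarith
    have hKlog : b' + 3 ≤ r / 2 * Real.log K := by
      have h1 : Real.exp ((b' + 3) / (r / 2)) ≤ K := by
        refine hK0.trans ?_
        have : K0 ≤ K := by omega
        exact_mod_cast this
      have h2 := (Real.le_log_iff_exp_le hKpos).2 h1
      rw [div_le_iff₀ (by positivity)] at h2
      linarith
    refine ⟨K, by omega, ?_⟩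
    obtain ⟨Q, hQ⟩ : ∃ Q : ℝ, Q = C * (((D + 1 : ℕ) : ℝ) * 4 ^ D) * (K : ℝ) ^ 3 := ⟨_, rfl⟩
    have hQ0 : 0 ≤ Q := by rw [hQ]; positivity
    have e1 : ∀ᶠ t : ℕ in (UU : Filter ℕ), Real.exp (b' + 1) ≤ (t : ℝ) + 2 := by
      refine ev_of_atTop ?_
      filter_upwards [tendsto_natCast_atTop_atTop.eventually_ge_atTop (Real.exp (b' + 1))] with
        t ht
      linarith
    have e2 : ∀ᶠ t in (UU : Filter ℕ), 3 / (r / 2) ≤ L t :=
      ev_of_atTop (hL.eventually_ge_atTop _)
    filter_upwards [e1, e2, hee (r / 2) (by positivity), exp_ge hL Q one_pos,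
      exp_ge hL 2 one_pos, L_nonneg hL, hinv 1 one_pos] with t h1 h2 h3 h4 h5 h6 h7
    rw [hLt] at h2 h3 h4 h5 h6 ⊢
    rw [one_mul] at h4 h5
    -- the truncation level
    obtain ⟨w, hw⟩ : ∃ w : ℕ, w = ⌊r / 2 * n t⌋₊ := ⟨_, rfl⟩
    have hw1 : (w : ℝ) ≤ r / 2 * n t := by rw [hw]; exact Nat.floor_le (by positivity)
    have hw2 : r / 2 * n t < w + 1 := by rw [hw]; exact Nat.lt_floor_add_one _
    have hw3 : 2 ≤ w := by
      rw [div_le_iff₀ (by positivity)] at h2
      have h8 : (2 : ℝ) < (w : ℝ) + 1 := by linarith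
      have h9 : (2 : ℝ) ≤ w := by
        have h10 : (2 : ℝ) + 1 ≤ w + 1 := by
          have h11 : (3 : ℝ) < w + 1 ∨ (3 : ℝ) ≤ w + 1 := Or.inl (by linarith)
          rcases h11 with h | h
          · linarith
          · linarith
        linarith
      exact_mod_cast h9
    have hws : ∀ i, w ≤ s t i := by
      intro i
      have h8 := (abs_le.1 (hs t i)).1
      have h9 : r * n t ≤ ρ i * n t :=
        mul_le_mul_of_nonneg_right (hrρ i (Finset.mem_univ i)) (Nat.cast_nonneg _)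
      have h10 : (w : ℝ) ≤ s t i := by linarith
      exact_mod_cast h10
    have h8 := htr K w (s t) (by omega) hw3 hws
      (fun α => Polynomial.aeval Real.pi ((P t).coeff α))
      (((D + 1 : ℕ) : ℝ) * 4 ^ D * Real.exp (1 / ((t : ℝ) + 1) * n t)) (by positivity)
      (fun α => abs_pi_le D _ (hPn t α) _ (hPc t α))
    have h9 := hPv t
    have h10 : MvPolynomial.eval₂ (Polynomial.aeval Real.pi : Polynomial ℤ →ₐ[ℤ] ℝ).toRingHom
        (fun i => zt (s t i)) (P t) = ∑ α ∈ bx m D,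
        Polynomial.aeval Real.pi ((P t).coeff α) * ∏ i, zt (s t i) ^ α i := by
      rw [MvPolynomial.eval₂_eq']
      refine Finset.sum_subset (fun α hα => hbxs t α (MvPolynomial.mem_support_iff.1 hα)) ?_
      intro α _ hα
      rw [MvPolynomial.notMem_support_iff.1 hα, map_zero, zero_mul]
    rw [h10] at h9
    have h11 : VK K t = ∑ α ∈ bx m D,
        Polynomial.aeval Real.pi ((P t).coeff α) * ∏ i, ztK K (s t i) ^ α i := by
      rw [hVKdef]
    rw [h11]
    obtain ⟨X, hX⟩ : ∃ X : ℝ, X = ∑ α ∈ bx m D,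
        Polynomial.aeval Real.pi ((P t).coeff α) * ∏ i, zt (s t i) ^ α i := ⟨_, rfl⟩
    obtain ⟨Y, hY⟩ : ∃ Y : ℝ, Y = ∑ α ∈ bx m D,
        Polynomial.aeval Real.pi ((P t).coeff α) * ∏ i, ztK K (s t i) ^ α i := ⟨_, rfl⟩
    rw [← hX] at h9 h8
    rw [← hY] at h8 ⊢
    have h12 : |Y| ≤ |X| + |X - Y| := by
      have h13 : Y = X - (X - Y) := by ring
      calc |Y| = |X - (X - Y)| := by rw [← h13]
        _ ≤ |X| + |X - Y| := abs_sub _ _
    have hn0 : (0 : ℝ) ≤ n t := Nat.cast_nonneg _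
    -- the value itself
    have h14 : |X| ≤ Real.exp (-((b' + 1) * n t)) := by
      refine h9.trans ?_
      rw [Real.exp_neg]
      refine inv_anti₀ (Real.exp_pos _) ?_
      have h15 : Real.exp ((b' + 1) * n t) = Real.exp (b' + 1) ^ (n t) := by
        rw [← Real.exp_nat_mul]
        ring_nf
      rw [h15]
      exact pow_le_pow_left₀ (Real.exp_pos _).le h1 _
    -- the tail
    have h16 : |X - Y| ≤ Real.exp (-((b' + 1) * n t)) := by
      refine h8.trans ?_
      have h17 : Real.exp (1 / ((t : ℝ) + 1) * n t) ≤ Real.exp (n t) := by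
        rw [Real.exp_le_exp]
        calc 1 / ((t : ℝ) + 1) * n t ≤ 1 * n t := mul_le_mul_of_nonneg_right h7 hn0
          _ = n t := one_mul _
      have h18 : ((K : ℝ) ^ w)⁻¹ ≤ K * Real.exp (-((b' + 3) * n t)) := by
        have h19 : (K : ℝ) ^ w * K = Real.exp (((w : ℝ) + 1) * Real.log K) := by
          rw [← pow_succ]
          have h20 : ((w : ℝ) + 1) = ((w + 1 : ℕ) : ℝ) := by push_cast; rfl
          rw [h20, Real.exp_nat_mul, Real.exp_log hKpos]
        have h21 : Real.exp ((b' + 3) * n t) ≤ (K : ℝ) ^ w * K := by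
          rw [h19, Real.exp_le_exp]
          have hlogK : 0 ≤ Real.log K := Real.log_nonneg hKr
          calc (b' + 3) * n t ≤ r / 2 * Real.log K * n t := mul_le_mul_of_nonneg_right hKlog hn0
            _ = r / 2 * n t * Real.log K := by ring
            _ ≤ ((w : ℝ) + 1) * Real.log K := mul_le_mul_of_nonneg_right hw2.le hlogK
        rw [Real.exp_neg, ← div_eq_mul_inv, le_div_iff₀ (Real.exp_pos _),
          inv_mul_le_iff₀ (by positivity)]
        exact h21
      calc C * (((D + 1 : ℕ) : ℝ) * 4 ^ D * Real.exp (1 / ((t : ℝ) + 1) * n t)) *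
            ((K : ℝ) ^ 2 / (K : ℝ) ^ w)
          = C * (((D + 1 : ℕ) : ℝ) * 4 ^ D) * (K : ℝ) ^ 2 *
            (Real.exp (1 / ((t : ℝ) + 1) * n t) * ((K : ℝ) ^ w)⁻¹) := by
            rw [div_eq_mul_inv]
            ring
        _ ≤ C * (((D + 1 : ℕ) : ℝ) * 4 ^ D) * (K : ℝ) ^ 2 *
            (Real.exp (n t) * (K * Real.exp (-((b' + 3) * n t)))) := by
            refine mul_le_mul_of_nonneg_left ?_ (by positivity)
            exact mul_le_mul h17 h18 (by positivity) (Real.exp_pos _).le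
        _ = Q * (Real.exp (n t) * Real.exp (-((b' + 3) * n t))) := by
            rw [hQ]
            ring
        _ ≤ Real.exp (n t) * (Real.exp (n t) * Real.exp (-((b' + 3) * n t))) :=
            mul_le_mul_of_nonneg_right h4 (by positivity)
        _ = Real.exp (-((b' + 1) * n t)) := by
            rw [← Real.exp_add, ← Real.exp_add]
            ring_nf
    calc |Y| ≤ |X| + |X - Y| := h12
      _ ≤ Real.exp (-((b' + 1) * n t)) + Real.exp (-((b' + 1) * n t)) := add_le_add h14 h16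
      _ = 2 * Real.exp (-((b' + 1) * n t)) := by ring
      _ ≤ Real.exp (n t) * Real.exp (-((b' + 1) * n t)) :=
          mul_le_mul_of_nonneg_right h5 (Real.exp_pos _).le
      _ = Real.exp (-(b' * n t)) := by
          rw [← Real.exp_add]
          ring_nf
      _ ≤ Real.exp (-(b * n t)) := by
          rw [Real.exp_le_exp, neg_le_neg_iff]
          exact mul_le_mul_of_nonneg_right hbb hn0
  have hvan : MvPolynomial.eval₂ ((algebraMap RR (ArithmeticFunction RR)).comp
      (SS L hL).subtype) (fun i => pwf (v i) (fun k => omr s i k)) (poly (bx m D) c) = 0 := by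
    ext N
    rw [ArithmeticFunction.zero_apply]
    exact vanish_good ρ hg hρ s n L hLt hL e hs hee v hv1 hv (bx m D) c VK hVK hsm N
  rw [← MvPolynomial.eval₂_map, ← MvPolynomial.aeval_def] at hvan
  have hmap : MvPolynomial.map (SS L hL).subtype (poly (bx m D) c) = 0 := by
    by_contra hne
    refine indep v hv1 (fun i k => omr s i k) ?_ _ hne hvan
    intro e' a X h j hj
    exact rgerm_vdm s hinj (Finset.univ.filter fun j => v j = e') a X h j
      (Finset.mem_filter.2 ⟨Finset.mem_univ _, hj⟩)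
  obtain ⟨κ, c', _, hc', hlow⟩ := pi_lower D
  have hz : ∀ α ∈ bx m D, ∀ᶠ t in (UU : Filter ℕ), (P t).coeff α = 0 := by
    intro α hα
    have h1 : MvPolynomial.coeff α (MvPolynomial.map (SS L hL).subtype (poly (bx m D) c)) = 0 := by
      rw [hmap, MvPolynomial.coeff_zero]
    rw [MvPolynomial.coeff_map, coeff_poly _ _ _ hα] at h1
    have h2 : rm (fun t => Polynomial.aeval Real.pi ((P t).coeff α)) = rm fun _ => 0 := by
      rw [← hc α, rm_zero]
      exact h1
    filter_upwards [rm_eq.1 h2] with t ht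
    by_contra hne
    have h3 := hlow ((P t).coeff α) hne (hPn t α) (Real.exp (1 / ((t : ℝ) + 1) * n t))
      (Real.one_le_exp (by positivity)) (hPc t α)
    rw [ht, abs_zero, mul_zero] at h3
    linarith
  obtain ⟨t, ht⟩ := ((Finset.eventually_all _).2 hz).exists
  refine hP0 t ?_
  ext1 α
  rw [MvPolynomial.coeff_zero]
  by_contra hne
  exact hne (ht α (hbxs t α hne))

/-- directions with rational ratios have no coincidences -/
lemma good_of_rational {m : ℕ} (v : Fin m → ℕ) (c : ℝ) (hc : c ≠ 0) :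
    Good (fun i => c * (v i : ℝ)) := by
  intro a b ha hb h p _
  have h1 : ∀ a : Fin m → ℕ, (∀ i, a i ≠ 0) → ∑ i, c * (v i : ℝ) * Real.log (a i) =
      c * Real.log ((∏ i, a i ^ v i : ℕ) : ℝ) := by
    intro a ha
    push_cast
    rw [Real.log_prod (fun i _ => by
      have := ha i
      positivity), Finset.mul_sum]
    refine Finset.sum_congr rfl fun i _ => ?_
    rw [Real.log_pow]
    ring
  have h2 : ∀ a : Fin m → ℕ, (∀ i, a i ≠ 0) → ∑ i, c * (v i : ℝ) * ((a i).factorization p : ℝ) =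
      c * (((∏ i, a i ^ v i : ℕ).factorization p : ℕ) : ℝ) := by
    intro a ha
    rw [Nat.factorization_prod (fun i _ => pow_ne_zero _ (ha i)), Finsupp.finsetSum_apply]
    push_cast
    rw [Finset.mul_sum]
    refine Finset.sum_congr rfl fun i _ => ?_
    rw [Nat.factorization_pow, Finsupp.smul_apply, smul_eq_mul]
    push_cast
    ring
  rw [h1 a ha, h1 b hb] at h
  have h3 := mul_left_cancel₀ hc h
  have hpa : (0 : ℝ) < ((∏ i, a i ^ v i : ℕ) : ℝ) := by
    have : (∏ i, a i ^ v i) ≠ 0 := Finset.prod_ne_zero_iff.2 fun i _ => pow_ne_zero _ (ha i)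
    exact_mod_cast Nat.pos_of_ne_zero this
  have hpb : (0 : ℝ) < ((∏ i, b i ^ v i : ℕ) : ℝ) := by
    have : (∏ i, b i ^ v i) ≠ 0 := Finset.prod_ne_zero_iff.2 fun i _ => pow_ne_zero _ (hb i)
    exact_mod_cast Nat.pos_of_ne_zero this
  have h4 : ((∏ i, a i ^ v i : ℕ) : ℝ) = ((∏ i, b i ^ v i : ℕ) : ℝ) :=
    Real.log_injOn_pos hpa hpb h3
  have h5 : (∏ i, a i ^ v i : ℕ) = ∏ i, b i ^ v i := by exact_mod_cast h4
  rw [h2 a ha, h2 b hb, h5]

end Pool.Agent.H298Y
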