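import Pool.Agent.H298Y.RMain

/-!
# Vanishing of the Dirichlet coefficients, with `π`, near a direction without coincidences
-/

set_option autoImplicit false

namespace Pool.Agent.H298Y

open Filter Topology Pool.Agent.TH932.Germs

section

variable {m : ℕ}

/-- the exponent of the size of a unit -/
noncomputable def th (ρ : Fin m → ℝ) (β : (Fin m × ℕ) →₀ ℕ) : ℝ :=
  ∑ i, ρ i * Real.log (Af β i)

/-- directions without coincidences -/
def Good (ρ : Fin m → ℝ) : Prop := ∀ a b : Fin m → ℕ, (∀ i, a i ≠ 0) → (∀ i, b i ≠ 0) →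
  ∑ i, ρ i * Real.log (a i) = ∑ i, ρ i * Real.log (b i) →
  ∀ p : ℕ, p.Prime → ∑ i, ρ i * (a i).factorization p = ∑ i, ρ i * (b i).factorization p

lemma log_Zf (s : Fin m → ℕ) (β : (Fin m × ℕ) →₀ ℕ) :
    Real.log (Zf s β : ℕ) = ∑ i, (s i : ℝ) * Real.log (Af β i) := by
  rw [Zf_eq]
  push_cast
  rw [Real.log_prod (fun i _ => by
    have := Af_pos β i
    positivity)]
  refine Finset.sum_congr rfl fun i _ => ?_
  rw [Real.log_pow]

lemma log_Af_nonneg (β : (Fin m × ℕ) →₀ ℕ) (i : Fin m) : 0 ≤ Real.log (Af β i) :=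
  Real.log_nonneg (by exact_mod_cast Af_pos β i)

lemma log_Zf_near (ρ : Fin m → ℝ) (s : Fin m → ℕ) (n : ℕ) (e : ℝ)
    (hs : ∀ i, |(s i : ℝ) - ρ i * n| ≤ e) (β : (Fin m × ℕ) →₀ ℕ) :
    |Real.log (Zf s β : ℕ) - th ρ β * n| ≤ e * ∑ i, Real.log (Af β i) := by
  have h1 : Real.log (Zf s β : ℕ) - th ρ β * n =
      ∑ i, ((s i : ℝ) - ρ i * n) * Real.log (Af β i) := by
    rw [log_Zf, th, Finset.sum_mul, ← Finset.sum_sub_distrib]
    refine Finset.sum_congr rfl fun i _ => ?_
    ring
  rw [h1, Finset.mul_sum]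
  refine (Finset.abs_sum_le_sum_abs _ _).trans (Finset.sum_le_sum fun i _ => ?_)
  rw [abs_mul, abs_of_nonneg (log_Af_nonneg β i)]
  exact mul_le_mul_of_nonneg_right (hs i) (log_Af_nonneg β i)

variable {L : ℕ → ℝ}

lemma negl_pow (hL : Tendsto L atTop atTop) (b : ℕ) (hb : 1 ≤ b) (k : ℕ → ℕ)
    (hk : ∀ ε : ℝ, 0 < ε → ∀ᶠ t in (UU : Filter ℕ), (k t : ℝ) ≤ ε * L t) :
    Negl L (fun t => (b : ℤ) ^ (k t)) := by
  intro ε hε
  have hlog : 0 ≤ Real.log b := Real.log_nonneg (by exact_mod_cast hb)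
  have hbpos : (0 : ℝ) < b := by exact_mod_cast hb
  filter_upwards [hk (ε / (Real.log b + 1)) (by positivity), L_nonneg hL] with t ht hLt
  push_cast
  rw [abs_of_nonneg (by positivity)]
  have e1 : (b : ℝ) ^ (k t) = Real.exp ((k t : ℝ) * Real.log b) := by
    rw [Real.exp_nat_mul, Real.exp_log hbpos]
  rw [e1, Real.exp_le_exp]
  rw [div_mul_eq_mul_div, le_div_iff₀ (by positivity)] at ht
  have h0 : (0 : ℝ) ≤ k t := Nat.cast_nonneg _
  nlinarith

lemma negl_prod (hL : Tendsto L atTop atTop) {ι : Type*} (A : Finset ι) (f : ι → ℕ → ℤ)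
    (h : ∀ i ∈ A, Negl L (f i)) : Negl L (fun t => ∏ i ∈ A, f i t) := by
  classical
  induction A using Finset.induction_on with
  | empty =>
    have : (fun t : ℕ => ∏ i ∈ (∅ : Finset ι), f i t) = fun _ => 1 := by
      funext t
      exact Finset.prod_empty
    rw [this]
    exact Negl.one hL
  | insert a A ha ih =>
    have h1 : (fun t => ∏ i ∈ insert a A, f i t) = fun t => f a t * ∏ i ∈ A, f i t := by
      funext t
      rw [Finset.prod_insert ha]
    rw [h1]
    exact (h a (Finset.mem_insert_self _ _)).mul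
      (ih fun i hi => h i (Finset.mem_insert_of_mem hi))

/-- two units of the same size: the quotient is of negligible height -/
lemma ratio_class (ρ : Fin m → ℝ) (hg : Good ρ) (s : ℕ → Fin m → ℕ) (n : ℕ → ℕ)
    (hLn : ∀ t, L t = n t) (hL : Tendsto L atTop atTop) (e : ℕ → ℝ)
    (hs : ∀ t i, |(s t i : ℝ) - ρ i * n t| ≤ e t)
    (he : ∀ ε : ℝ, 0 < ε → ∀ᶠ t in (UU : Filter ℕ), e t ≤ ε * L t)
    (β β' : (Fin m × ℕ) →₀ ℕ) (hββ : th ρ β = th ρ β') :
    ∃ x y : ℕ → ℕ, (∀ t, 1 ≤ x t) ∧ (∀ t, 1 ≤ y t) ∧ Negl L (fun t => (x t : ℤ)) ∧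
      Negl L (fun t => (y t : ℤ)) ∧ ∀ t, Zf (s t) β * y t = Zf (s t) β' * x t := by
  classical
  have hgp := hg (Af β) (Af β') (fun i => (Af_pos β i).ne') (fun i => (Af_pos β' i).ne') hββ
  -- the primes
  obtain ⟨S, hS⟩ : ∃ S : Finset ℕ, S = (Finset.univ.biUnion fun i => (Af β i).primeFactors) ∪
    (Finset.univ.biUnion fun i => (Af β' i).primeFactors) := ⟨_, rfl⟩
  have hSp : ∀ p ∈ S, p.Prime := by
    intro p hp
    rw [hS, Finset.mem_union, Finset.mem_biUnion, Finset.mem_biUnion] at hp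
    rcases hp with ⟨i, _, h⟩ | ⟨i, _, h⟩
    · exact Nat.prime_of_mem_primeFactors h
    · exact Nat.prime_of_mem_primeFactors h
  have hfac : ∀ a : ℕ, a ≠ 0 → a.primeFactors ⊆ S → a = ∏ p ∈ S, p ^ a.factorization p := by
    intro a ha haS
    conv_lhs => rw [← Nat.prod_factorization_pow_eq_self ha]
    rw [Finsupp.prod, Nat.support_factorization]
    refine Finset.prod_subset haS fun p _ hp => ?_
    rw [← Nat.support_factorization, Finsupp.notMem_support_iff] at hp
    rw [hp, pow_zero]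
  have hfβ : ∀ i, Af β i = ∏ p ∈ S, p ^ (Af β i).factorization p := fun i =>
    hfac _ (Af_pos β i).ne' (by
      rw [hS]
      exact (Finset.subset_biUnion_of_mem (fun i => (Af β i).primeFactors)
        (Finset.mem_univ i)).trans Finset.subset_union_left)
  have hfβ' : ∀ i, Af β' i = ∏ p ∈ S, p ^ (Af β' i).factorization p := fun i =>
    hfac _ (Af_pos β' i).ne' (by
      rw [hS]
      exact (Finset.subset_biUnion_of_mem (fun i => (Af β' i).primeFactors)
        (Finset.mem_univ i)).trans Finset.subset_union_right)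
  have hZ : ∀ (γ : (Fin m × ℕ) →₀ ℕ) (_ : ∀ i, Af γ i = ∏ p ∈ S, p ^ (Af γ i).factorization p)
      (t : ℕ), Zf (s t) γ = ∏ p ∈ S, p ^ (∑ i, (Af γ i).factorization p * s t i) := by
    intro γ hγ t
    rw [Zf_eq]
    calc ∏ i, Af γ i ^ s t i = ∏ i, (∏ p ∈ S, p ^ (Af γ i).factorization p) ^ s t i :=
          Finset.prod_congr rfl fun i _ => by rw [← hγ i]
      _ = ∏ i, ∏ p ∈ S, p ^ ((Af γ i).factorization p * s t i) := by
          refine Finset.prod_congr rfl fun i _ => ?_
          rw [← Finset.prod_pow]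
          refine Finset.prod_congr rfl fun p _ => ?_
          rw [← pow_mul]
      _ = ∏ p ∈ S, ∏ i, p ^ ((Af γ i).factorization p * s t i) := Finset.prod_comm
      _ = _ := by
          refine Finset.prod_congr rfl fun p _ => ?_
          rw [Finset.prod_pow_eq_pow_sum]
  obtain ⟨A, hA⟩ : ∃ A : ℕ → ℕ → ℕ, A = fun p t => ∑ i, (Af β i).factorization p * s t i :=
    ⟨_, rfl⟩
  obtain ⟨B, hB⟩ : ∃ B : ℕ → ℕ → ℕ, B = fun p t => ∑ i, (Af β' i).factorization p * s t i :=
    ⟨_, rfl⟩
  -- the exponents are almost equal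
  have hdiff : ∀ p ∈ S, ∀ t, |(A p t : ℝ) - B p t| ≤
      e t * ∑ i, |((Af β i).factorization p : ℝ) - (Af β' i).factorization p| := by
    intro p hp t
    have h1 := hgp p (hSp p hp)
    have h2 : (A p t : ℝ) - B p t = ∑ i, ((s t i : ℝ) - ρ i * n t) *
        (((Af β i).factorization p : ℝ) - (Af β' i).factorization p) := by
      have h3 : ∑ i, ((s t i : ℝ) - ρ i * n t) *
          (((Af β i).factorization p : ℝ) - (Af β' i).factorization p) =
          (∑ i, ((Af β i).factorization p : ℝ) * s t i) -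
          (∑ i, ((Af β' i).factorization p : ℝ) * s t i) -
          n t * ((∑ i, ρ i * (Af β i).factorization p) - ∑ i, ρ i * (Af β' i).factorization p) := by
        rw [← Finset.sum_sub_distrib, ← Finset.sum_sub_distrib, Finset.mul_sum,
          ← Finset.sum_sub_distrib]
        refine Finset.sum_congr rfl fun i _ => ?_
        ring
      rw [h3, h1, sub_self, mul_zero, sub_zero, hA, hB]
      push_cast
      rfl
    rw [h2, Finset.mul_sum]
    refine (Finset.abs_sum_le_sum_abs _ _).trans (Finset.sum_le_sum fun i _ => ?_)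
    rw [abs_mul]
    exact mul_le_mul_of_nonneg_right (hs t i) (abs_nonneg _)
  have hsmall : ∀ p ∈ S, ∀ k : ℕ → ℕ, (∀ t, (k t : ℝ) ≤ |(A p t : ℝ) - B p t|) →
      ∀ ε : ℝ, 0 < ε → ∀ᶠ t in (UU : Filter ℕ), (k t : ℝ) ≤ ε * L t := by
    intro p hp k hk ε hε
    obtain ⟨Γ, hΓ⟩ : ∃ Γ : ℝ, Γ = ∑ i, |((Af β i).factorization p : ℝ) -
        (Af β' i).factorization p| := ⟨_, rfl⟩
    have hΓ0 : 0 ≤ Γ := by
      rw [hΓ]
      exact Finset.sum_nonneg fun i _ => abs_nonneg _
    filter_upwards [he (ε / (Γ + 1)) (by positivity), L_nonneg hL] with t ht hLt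
    refine (hk t).trans ((hdiff p hp t).trans ?_)
    rw [← hΓ]
    have h1 : e t * Γ ≤ ε / (Γ + 1) * L t * Γ := mul_le_mul_of_nonneg_right ht hΓ0
    refine h1.trans ?_
    have h2 : ε / (Γ + 1) * L t * Γ = ε * L t * (Γ / (Γ + 1)) := by ring
    rw [h2]
    have h3 : Γ / (Γ + 1) ≤ 1 := by
      rw [div_le_one (by positivity)]
      linarith
    exact mul_le_of_le_one_right (mul_nonneg hε.le hLt) h3
  refine ⟨fun t => ∏ p ∈ S, p ^ (A p t - B p t), fun t => ∏ p ∈ S, p ^ (B p t - A p t),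
    fun t => ?_, fun t => ?_, ?_, ?_, fun t => ?_⟩
  · exact Nat.one_le_iff_ne_zero.2 (Finset.prod_ne_zero_iff.2 fun p hp =>
      pow_ne_zero _ (hSp p hp).ne_zero)
  · exact Nat.one_le_iff_ne_zero.2 (Finset.prod_ne_zero_iff.2 fun p hp =>
      pow_ne_zero _ (hSp p hp).ne_zero)
  · have h1 : (fun t => ((∏ p ∈ S, p ^ (A p t - B p t) : ℕ) : ℤ)) =
        fun t => ∏ p ∈ S, (p : ℤ) ^ (A p t - B p t) := by
      funext t
      push_cast
      rfl
    rw [h1]
    refine negl_prod hL S _ fun p hp => negl_pow hL p (hSp p hp).one_le _ (hsmall p hp _ ?_)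
    intro t
    rcases le_total (B p t) (A p t) with h | h
    · rw [Nat.cast_sub h]
      exact le_abs_self _
    · rw [Nat.sub_eq_zero_of_le h, Nat.cast_zero]
      exact abs_nonneg _
  · have h1 : (fun t => ((∏ p ∈ S, p ^ (B p t - A p t) : ℕ) : ℤ)) =
        fun t => ∏ p ∈ S, (p : ℤ) ^ (B p t - A p t) := by
      funext t
      push_cast
      rfl
    rw [h1]
    refine negl_prod hL S _ fun p hp => negl_pow hL p (hSp p hp).one_le _ (hsmall p hp _ ?_)
    intro t
    rcases le_total (A p t) (B p t) with h | h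
    · rw [Nat.cast_sub h, abs_sub_comm]
      exact le_abs_self _
    · rw [Nat.sub_eq_zero_of_le h, Nat.cast_zero]
      exact abs_nonneg _
  · rw [hZ β hfβ t, hZ β' hfβ' t]
    simp only
    rw [← Finset.prod_mul_distrib, ← Finset.prod_mul_distrib]
    refine Finset.prod_congr rfl fun p _ => ?_
    rw [← pow_add, ← pow_add]
    congr 1
    have h1 : A p t = ∑ i, (Af β i).factorization p * s t i := by rw [hA]
    have h2 : B p t = ∑ i, (Af β' i).factorization p * s t i := by rw [hB]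
    rw [← h1, ← h2]
    omega

/-- units of the same size have the same weight -/
lemma same_weight' (ρ : Fin m → ℝ) (hg : Good ρ) (v : Fin m → ℕ)
    (hv : ∀ γ : Fin m → ℤ, ∑ i, (γ i : ℝ) * ρ i = 0 → ∑ i, γ i * (v i : ℤ) = 0)
    (β β' : (Fin m × ℕ) →₀ ℕ) (h : th ρ β = th ρ β') : Zf v β = Zf v β' := by
  have hgp := hg (Af β) (Af β') (fun i => (Af_pos β i).ne') (fun i => (Af_pos β' i).ne') h
  refine Nat.eq_of_factorization_eq (Zf_pos v β).ne' (Zf_pos v β').ne' fun p => ?_
  by_cases hp : p.Prime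
  · have h1 := hgp p hp
    have h2 := hv (fun i => ((Af β i).factorization p : ℤ) - (Af β' i).factorization p) (by
      have h3 : ∑ i, ((((Af β i).factorization p : ℤ) - (Af β' i).factorization p : ℤ) : ℝ) *
          ρ i = (∑ i, ρ i * (Af β i).factorization p) -
          ∑ i, ρ i * (Af β' i).factorization p := by
        rw [← Finset.sum_sub_distrib]
        refine Finset.sum_congr rfl fun i _ => ?_
        push_cast
        ring
      rw [h3, h1, sub_self])
    have h4 : ∀ γ : (Fin m × ℕ) →₀ ℕ, (Zf v γ).factorization p =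
        ∑ i, (Af γ i).factorization p * v i := by
      intro γ
      rw [Zf_eq, Nat.factorization_prod (fun i _ => pow_ne_zero _ (Af_pos γ i).ne'),
        Finsupp.finset_sum_apply]
      refine Finset.sum_congr rfl fun i _ => ?_
      rw [Nat.factorization_pow, Finsupp.smul_apply, smul_eq_mul, mul_comm]
    rw [h4, h4]
    have h5 : ∑ i, (((Af β i).factorization p : ℤ) - (Af β' i).factorization p) * (v i : ℤ) =
        ((∑ i, (Af β i).factorization p * v i : ℕ) : ℤ) -
        ((∑ i, (Af β' i).factorization p * v i : ℕ) : ℤ) := by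
      push_cast
      rw [← Finset.sum_sub_distrib]
      refine Finset.sum_congr rfl fun i _ => ?_
      ring
    rw [h5] at h2
    omega
  · rw [Nat.factorization_eq_zero_of_not_prime _ hp, Nat.factorization_eq_zero_of_not_prime _ hp]

end

end Pool.Agent.H298Y
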