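import Pool.Agent.H298Y.GVan

/-!
# Vanishing of the Dirichlet coefficients in a direction without coincidences
-/

set_option autoImplicit false

namespace Pool.Agent.H298Y

open Filter Topology Pool.Agent.TH932.Germs

section

variable {m : ℕ}

lemma exists_gap {ι : Type*} (s : Finset ι) (f : ι → ℝ) (h : ∀ i ∈ s, 0 < f i) :
    ∃ g : ℝ, 0 < g ∧ g ≤ 1 ∧ ∀ i ∈ s, g ≤ f i := by
  classical
  induction s using Finset.induction_on with
  | empty => exact ⟨1, one_pos, le_rfl, fun i hi => absurd hi (Finset.notMem_empty i)⟩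
  | insert a s ha ih =>
    obtain ⟨g, h1, h2, h3⟩ := ih fun i hi => h i (Finset.mem_insert_of_mem hi)
    refine ⟨min g (f a), lt_min h1 (h a (Finset.mem_insert_self _ _)),
      (min_le_left _ _).trans h2, fun i hi => ?_⟩
    rcases Finset.mem_insert.1 hi with rfl | hi
    · exact min_le_right _ _
    · exact (min_le_left _ _).trans (h3 i hi)

/-- one class of units -/
theorem class_zero (ρ : Fin m → ℝ) (hg : Good ρ) (s : ℕ → Fin m → ℕ) (n : ℕ → ℕ) (L : ℕ → ℝ)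
    (hLn : ∀ t, L t = n t) (hL : Tendsto L atTop atTop) (e : ℕ → ℝ)
    (hs : ∀ t i, |(s t i : ℝ) - ρ i * n t| ≤ e t)
    (he : ∀ ε : ℝ, 0 < ε → ∀ᶠ t in (UU : Filter ℕ), e t ≤ ε * L t)
    (Θ : MvPolynomial (Fin m × ℕ) (SS L hL)) (V : ℕ → ℝ)
    (hT : ∑ β ∈ Θ.support, ((MvPolynomial.coeff β Θ : SS L hL) : RR) * Ur s β = rm V)
    (bnd : ℝ) (hV : ∀ᶠ t in (UU : Filter ℕ), |V t| ≤ Real.exp (-((bnd + 1) * L t))) :
    ∀ k : ℕ, ∀ β0 ∈ Θ.support, th ρ β0 ≤ bnd →
      (Θ.support.filter fun β => th ρ β < th ρ β0).card = k →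
      ∑ β ∈ Θ.support with th ρ β = th ρ β0,
        ((MvPolynomial.coeff β Θ : SS L hL) : RR) * Ur s β = 0 := by
  classical
  intro k
  induction k using Nat.strong_induction_on with
  | _ k ih =>
  intro β0 hβ0 hb hk
  obtain ⟨x0, hx0⟩ : ∃ x0 : ℝ, x0 = th ρ β0 := ⟨_, rfl⟩
  rw [← hx0] at hb hk ⊢
  obtain ⟨f, hf⟩ : ∃ f : ((Fin m × ℕ) →₀ ℕ) → RR, f = fun β =>
    ((MvPolynomial.coeff β Θ : SS L hL) : RR) * Ur s β := ⟨_, rfl⟩
  have hfβ : ∀ β, ((MvPolynomial.coeff β Θ : SS L hL) : RR) * Ur s β = f β := fun β => by rw [hf]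
  simp only [hfβ] at hT ih ⊢
  -- the smaller exponents
  have hlow : ∑ β ∈ Θ.support with th ρ β < x0, f β = 0 := by
    have h1 : ∀ β ∈ Θ.support.filter (fun β => th ρ β < x0),
        th ρ β ∈ (Θ.support.filter fun β => th ρ β < x0).image (th ρ) :=
      fun β hβ => Finset.mem_image_of_mem _ hβ
    rw [← Finset.sum_fiberwise_of_maps_to h1]
    refine Finset.sum_eq_zero fun x hx => ?_
    obtain ⟨β1, hβ1, rfl⟩ := Finset.mem_image.1 hx
    obtain ⟨hβ1s, hβ1x⟩ := Finset.mem_filter.1 hβ1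
    have h2 : (Θ.support.filter fun β => th ρ β < x0).filter (fun β => th ρ β = th ρ β1) =
        Θ.support.filter fun β => th ρ β = th ρ β1 := by
      rw [Finset.filter_filter]
      refine Finset.filter_congr fun β _ => ?_
      constructor
      · exact fun h => h.2
      · intro h
        exact ⟨by rw [h]; exact hβ1x, h⟩
    rw [h2]
    refine ih _ ?_ β1 hβ1s (hβ1x.le.trans hb) rfl
    rw [← hk]
    refine Finset.card_lt_card ?_
    rw [Finset.ssubset_iff_of_subset]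
    · refine ⟨β1, hβ1, fun h => ?_⟩
      exact lt_irrefl _ (Finset.mem_filter.1 h).2
    · intro β hβ
      obtain ⟨h3, h4⟩ := Finset.mem_filter.1 hβ
      exact Finset.mem_filter.2 ⟨h3, h4.trans hβ1x⟩
  obtain ⟨T, hTdef⟩ : ∃ T : RR, T = ∑ β ∈ Θ.support with th ρ β = x0, f β := ⟨_, rfl⟩
  have hsplit : T = rm V - ∑ β ∈ Θ.support with x0 < th ρ β, f β := by
    have h1 : ∑ β ∈ Θ.support, f β = ∑ β ∈ Θ.support with th ρ β < x0, f β +
        ∑ β ∈ Θ.support with ¬ th ρ β < x0, f β :=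
      (Finset.sum_filter_add_sum_filter_not _ _ _).symm
    have h2 : ∑ β ∈ Θ.support with ¬ th ρ β < x0, f β =
        ∑ β ∈ (Θ.support.filter fun β => ¬ th ρ β < x0) with th ρ β = x0, f β +
        ∑ β ∈ (Θ.support.filter fun β => ¬ th ρ β < x0) with ¬ th ρ β = x0, f β :=
      (Finset.sum_filter_add_sum_filter_not _ _ _).symm
    rw [← hT, h1, h2, hlow, Finset.filter_filter, Finset.filter_filter, zero_add, hTdef]
    have h3 : Θ.support.filter (fun β => ¬ th ρ β < x0 ∧ th ρ β = x0) =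
        Θ.support.filter (fun β => th ρ β = x0) :=
      Finset.filter_congr fun β _ => ⟨fun h => h.2, fun h => ⟨by rw [h]; exact lt_irrefl _, h⟩⟩
    have h4 : Θ.support.filter (fun β => ¬ th ρ β < x0 ∧ ¬ th ρ β = x0) =
        Θ.support.filter (fun β => x0 < th ρ β) :=
      Finset.filter_congr fun β _ => ⟨fun h => lt_of_le_of_ne (not_lt.1 h.1) (Ne.symm h.2),
        fun h => ⟨not_lt.2 h.le, h.ne'⟩⟩
    rw [h3, h4, add_sub_cancel_right]
  rw [← hTdef]
  -- representing sequences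
  have hrep : ∀ β, ∃ κ : ℕ → ℝ, rm κ = ((MvPolynomial.coeff β Θ : SS L hL) : RR) := fun β =>
    rm_surj _
  choose κ hκ using hrep
  have hκm : ∀ β, rm (κ β) ∈ SS L hL := fun β => by rw [hκ]; exact SetLike.coe_mem _
  have hxy : ∀ β, ∃ xy : (ℕ → ℕ) × (ℕ → ℕ), th ρ β = x0 → (∀ t, 1 ≤ xy.1 t) ∧
      Negl L (fun t => (xy.1 t : ℤ)) ∧ Negl L (fun t => (xy.2 t : ℤ)) ∧
      ∀ t, Zf (s t) β * xy.2 t = Zf (s t) β0 * xy.1 t := by
    intro β
    by_cases h : th ρ β = x0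
    · obtain ⟨x, y, h1, _, h3, h4, h5⟩ := ratio_class ρ hg s n hLn hL e hs he β β0 (h.trans hx0)
      exact ⟨(x, y), fun _ => ⟨h1, h3, h4, h5⟩⟩
    · exact ⟨(fun _ => 1, fun _ => 1), fun h' => absurd h' h⟩
  choose xy hxy using hxy
  obtain ⟨Cl, hCl⟩ : ∃ Cl : Finset ((Fin m × ℕ) →₀ ℕ),
    Cl = Θ.support.filter fun β => th ρ β = x0 := ⟨_, rfl⟩
  rw [← hCl] at hTdef
  have hClx : ∀ β ∈ Cl, th ρ β = x0 := fun β hβ => by
    rw [hCl] at hβ
    exact (Finset.mem_filter.1 hβ).2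
  obtain ⟨X, hX⟩ : ∃ X : ℕ → ℤ, X = fun t => ∏ β ∈ Cl, (((xy β).1 t : ℕ) : ℤ) := ⟨_, rfl⟩
  have hXN : Negl L X := by
    rw [hX]
    exact negl_prod hL Cl _ fun β hβ => (hxy β (hClx β hβ)).2.1
  have hXpos : ∀ t, (0 : ℝ) < X t := by
    intro t
    rw [hX]
    push_cast
    refine Finset.prod_pos fun β hβ => ?_
    have := (hxy β (hClx β hβ)).1 t
    exact_mod_cast this
  -- the sequence `w`
  obtain ⟨w, hw⟩ : ∃ w : ℕ → ℝ, w = fun t => (X t : ℝ) * ((Zf (s t) β0 : ℕ) : ℝ) * (V t -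
      ∑ β ∈ Θ.support with x0 < th ρ β, κ β t * ((Zf (s t) β : ℕ) : ℝ)⁻¹) := ⟨_, rfl⟩
  have hwT : rm w = rm (fun t => (X t : ℝ) * ((Zf (s t) β0 : ℕ) : ℝ)) * T := by
    rw [hsplit, hw]
    have h1 : ∑ β ∈ Θ.support with x0 < th ρ β, f β =
        rm (fun t => ∑ β ∈ Θ.support with x0 < th ρ β, κ β t * ((Zf (s t) β : ℕ) : ℝ)⁻¹) := by
      rw [rm_sum]
      refine Finset.sum_congr rfl fun β _ => ?_
      rw [← hfβ, ← hκ]
      rfl
    rw [h1, rm_sub, rm_mul]
  have hwS : rm w ∈ SS L hL := by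
    rw [hwT, hTdef, Finset.mul_sum]
    refine Subring.sum_mem _ fun β hβ => ?_
    obtain ⟨h1, h2, h3, h4⟩ := hxy β (hClx β hβ)
    have h5 : rm (fun t => (X t : ℝ) * ((Zf (s t) β0 : ℕ) : ℝ)) * f β =
        ((MvPolynomial.coeff β Θ : SS L hL) : RR) *
        (rm (fun t => ((∏ β' ∈ Cl.erase β, (((xy β').1 t : ℕ) : ℤ) : ℤ) : ℝ)) *
          rm (fun t => ((((xy β).2 t : ℕ) : ℤ) : ℝ))) := by
      have h6 : rm (fun t => (X t : ℝ) * ((Zf (s t) β0 : ℕ) : ℝ)) * Ur s β =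
          rm (fun t => ((∏ β' ∈ Cl.erase β, (((xy β').1 t : ℕ) : ℤ) : ℤ) : ℝ)) *
          rm (fun t => ((((xy β).2 t : ℕ) : ℤ) : ℝ)) := by
        unfold Ur
        rw [rm_mul, rm_mul]
        congr 1
        funext t
        have h7 : (0 : ℝ) < (Zf (s t) β : ℕ) := by exact_mod_cast Zf_pos (s t) β
        have h8 : ((Zf (s t) β : ℕ) : ℝ) * (((xy β).2 t : ℕ) : ℝ) =
            ((Zf (s t) β0 : ℕ) : ℝ) * (((xy β).1 t : ℕ) : ℝ) := by exact_mod_cast h4 t
        have h9 : (X t : ℝ) = (((xy β).1 t : ℕ) : ℝ) *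
            ((∏ β' ∈ Cl.erase β, (((xy β').1 t : ℕ) : ℤ) : ℤ) : ℝ) := by
          rw [hX]
          simp only
          rw [← Finset.mul_prod_erase Cl _ hβ]
          push_cast
          rfl
        rw [h9, ← div_eq_mul_inv, div_eq_iff h7.ne']
        push_cast
        push_cast at h8
        linear_combination (-(∏ β' ∈ Cl.erase β, (((xy β').1 t : ℕ) : ℝ))) * h8
      rw [← h6, ← hfβ]
      ring
    rw [h5]
    refine Subring.mul_mem _ (SetLike.coe_mem _) (Subring.mul_mem _ (rm_int_mem hL _ ?_)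
      (rm_int_mem hL _ h3))
    exact negl_prod hL _ _ fun β' hβ' => (hxy β' (hClx β' (Finset.mem_of_mem_erase hβ'))).2.1
  -- the gap
  obtain ⟨g, hg0, hg1, hgβ⟩ := exists_gap (Θ.support.filter fun β => x0 < th ρ β)
    (fun β => th ρ β - x0) (fun β hβ => sub_pos.2 (Finset.mem_filter.1 hβ).2)
  have hwsm : ∀ᶠ t in (UU : Filter ℕ), |w t| ≤ Real.exp (-(g / 4 * L t)) := by
    have hκe : ∀ᶠ t in (UU : Filter ℕ), ∀ β ∈ Θ.support, |κ β t| ≤ Real.exp (g / 8 * L t) := by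
      rw [Finset.eventually_all]
      intro β _
      exact SS_upper hL _ (hκm β) (by positivity)
    have hZe : ∀ᶠ t in (UU : Filter ℕ), ∀ β ∈ insert β0 Θ.support,
        |Real.log (Zf (s t) β : ℕ) - th ρ β * L t| ≤ g / 8 * L t := by
      rw [Finset.eventually_all]
      intro β _
      have hΛ : 0 ≤ ∑ i, Real.log (Af β i) := Finset.sum_nonneg fun i _ => log_Af_nonneg β i
      filter_upwards [he (g / 8 / (∑ i, Real.log (Af β i) + 1)) (by positivity),
        L_nonneg hL] with t ht hLt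
      have h1 := log_Zf_near ρ (s t) (n t) (e t) (hs t) β
      rw [hLn] at ht hLt ⊢
      refine h1.trans ?_
      refine (mul_le_mul_of_nonneg_right ht hΛ).trans ?_
      have h2 : g / 8 / (∑ i, Real.log (Af β i) + 1) * (n t : ℝ) * ∑ i, Real.log (Af β i) =
          g / 8 * n t * ((∑ i, Real.log (Af β i)) / (∑ i, Real.log (Af β i) + 1)) := by ring
      rw [h2]
      refine mul_le_of_le_one_right (by positivity) ?_
      rw [div_le_one (by positivity)]
      linarith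
    filter_upwards [hκe, hZe, hV, hXN (g / 8) (by positivity),
      exp_ge hL (1 + (Θ.support.card : ℝ)) (show 0 < g / 4 by positivity), L_nonneg hL] with t
      h1 h2 h3 h4 h5 h6
    have hXt := hXpos t
    rw [abs_of_pos hXt] at h4
    have hlogexp : ∀ β, ((Zf (s t) β : ℕ) : ℝ) = Real.exp (Real.log (Zf (s t) β : ℕ)) := by
      intro β
      rw [Real.exp_log (by exact_mod_cast Zf_pos (s t) β)]
    have hZ0 : ((Zf (s t) β0 : ℕ) : ℝ) ≤ Real.exp ((x0 + g / 8) * L t) := by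
      have h7 := (abs_le.1 (h2 β0 (Finset.mem_insert_self _ _))).2
      rw [← hx0] at h7
      rw [hlogexp, Real.exp_le_exp]
      linarith
    have hVt : |V t| ≤ Real.exp (-((x0 + g) * L t)) := by
      refine h3.trans ?_
      rw [Real.exp_le_exp, neg_le_neg_iff]
      exact mul_le_mul_of_nonneg_right (by linarith) h6
    have hB : ∀ β ∈ Θ.support.filter (fun β => x0 < th ρ β),
        |κ β t * ((Zf (s t) β : ℕ) : ℝ)⁻¹| ≤ Real.exp (-((x0 + g - g / 4) * L t)) := by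
      intro β hβ
      have hβs := (Finset.mem_filter.1 hβ).1
      have h7 := (abs_le.1 (h2 β (Finset.mem_insert_of_mem hβs))).1
      have h8 := hgβ β hβ
      have h9 : (0 : ℝ) < ((Zf (s t) β : ℕ) : ℝ)⁻¹ :=
        inv_pos.2 (by exact_mod_cast Zf_pos (s t) β)
      rw [abs_mul, abs_of_pos h9]
      have h10 : ((Zf (s t) β : ℕ) : ℝ)⁻¹ ≤ Real.exp (-((x0 + g - g / 8) * L t)) := by
        rw [hlogexp, ← Real.exp_neg, Real.exp_le_exp, neg_le_neg_iff]
        have h11 : (x0 + g) * L t ≤ th ρ β * L t :=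
          mul_le_mul_of_nonneg_right (by linarith) h6
        linarith
      calc |κ β t| * ((Zf (s t) β : ℕ) : ℝ)⁻¹ ≤ Real.exp (g / 8 * L t) *
            Real.exp (-((x0 + g - g / 8) * L t)) :=
            mul_le_mul (h1 β hβs) h10 h9.le (Real.exp_pos _).le
        _ = Real.exp (-((x0 + g - g / 4) * L t)) := by
            rw [← Real.exp_add]
            ring_nf
    have hC : |∑ β ∈ Θ.support with x0 < th ρ β, κ β t * ((Zf (s t) β : ℕ) : ℝ)⁻¹| ≤
        (Θ.support.card : ℝ) * Real.exp (-((x0 + g - g / 4) * L t)) := by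
      refine (Finset.abs_sum_le_sum_abs _ _).trans ((Finset.sum_le_card_nsmul _ _ _ hB).trans ?_)
      rw [nsmul_eq_mul]
      refine mul_le_mul_of_nonneg_right ?_ (Real.exp_pos _).le
      exact_mod_cast Finset.card_le_card (Finset.filter_subset _ _)
    have hVt' : |V t| ≤ Real.exp (-((x0 + g - g / 4) * L t)) := by
      refine hVt.trans ?_
      rw [Real.exp_le_exp, neg_le_neg_iff]
      exact mul_le_mul_of_nonneg_right (by linarith) h6
    have hw' : w t = (X t : ℝ) * ((Zf (s t) β0 : ℕ) : ℝ) * (V t -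
        ∑ β ∈ Θ.support with x0 < th ρ β, κ β t * ((Zf (s t) β : ℕ) : ℝ)⁻¹) := by rw [hw]
    have hZpos : (0 : ℝ) < ((Zf (s t) β0 : ℕ) : ℝ) := by exact_mod_cast Zf_pos (s t) β0
    rw [hw', abs_mul, abs_mul, abs_of_pos hXt, abs_of_pos hZpos]
    calc (X t : ℝ) * ((Zf (s t) β0 : ℕ) : ℝ) * |V t -
          ∑ β ∈ Θ.support with x0 < th ρ β, κ β t * ((Zf (s t) β : ℕ) : ℝ)⁻¹|
        ≤ Real.exp (g / 8 * L t) * Real.exp ((x0 + g / 8) * L t) *
          ((1 + (Θ.support.card : ℝ)) * Real.exp (-((x0 + g - g / 4) * L t))) := by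
          refine mul_le_mul (mul_le_mul h4 hZ0 hZpos.le (Real.exp_pos _).le) ?_ (abs_nonneg _)
            (by positivity)
          refine (abs_sub _ _).trans ((add_le_add hVt' hC).trans (le_of_eq ?_))
          ring
      _ ≤ Real.exp (g / 8 * L t) * Real.exp ((x0 + g / 8) * L t) *
          (Real.exp (g / 4 * L t) * Real.exp (-((x0 + g - g / 4) * L t))) := by
          refine mul_le_mul_of_nonneg_left ?_ (by positivity)
          exact mul_le_mul_of_nonneg_right h5 (Real.exp_pos _).le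
      _ = Real.exp (-(g / 4 * L t)) := by
          rw [← Real.exp_add, ← Real.exp_add, ← Real.exp_add]
          ring_nf
  have hw0 : rm w = 0 := by
    by_contra hne
    obtain ⟨t, h1, h2, h3⟩ := ((SS_lower hL w hwS hne (show 0 < g / 8 by positivity)).and
      (hwsm.and (ev_of_atTop (hL.eventually_gt_atTop 0)))).exists
    have h4 := h1.trans h2
    rw [Real.exp_le_exp] at h4
    nlinarith
  rw [hwT, mul_eq_zero] at hw0
  rcases hw0 with h | h
  · exfalso
    rw [← rm_zero, rm_eq] at h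
    obtain ⟨t, ht⟩ := h.exists
    have h1 := hXpos t
    have h2 : (0 : ℝ) < ((Zf (s t) β0 : ℕ) : ℝ) := by exact_mod_cast Zf_pos (s t) β0
    have h3 := mul_pos h1 h2
    linarith
  · exact h

/-- vanishing of the Dirichlet coefficients in a direction without coincidences -/
theorem vanish_good (ρ : Fin m → ℝ) (hg : Good ρ) (hρ : ∀ i, 0 < ρ i) (s : ℕ → Fin m → ℕ)
    (n : ℕ → ℕ) (L : ℕ → ℝ) (hLn : ∀ t, L t = n t) (hL : Tendsto L atTop atTop) (e : ℕ → ℝ)
    (hs : ∀ t i, |(s t i : ℝ) - ρ i * n t| ≤ e t)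
    (he : ∀ ε : ℝ, 0 < ε → ∀ᶠ t in (UU : Filter ℕ), e t ≤ ε * L t) (v : Fin m → ℕ)
    (hv1 : ∀ i, 1 ≤ v i)
    (hv : ∀ γ : Fin m → ℤ, ∑ i, (γ i : ℝ) * ρ i = 0 → ∑ i, γ i * (v i : ℤ) = 0)
    (A : Finset (Fin m →₀ ℕ)) (c : (Fin m →₀ ℕ) → SS L hL) (VK : ℕ → ℕ → ℝ)
    (hVK : ∀ K, rm (VK K) = MvPolynomial.eval₂ (SS L hL).subtype
      (fun i => ∑ k ∈ Finset.range K, omr s i (k + 1)) (poly A c))
    (hsm : ∀ (N : ℕ) (b : ℝ), ∃ K, N ≤ K ∧ ∀ᶠ t in (UU : Filter ℕ),
      |VK K t| ≤ Real.exp (-(b * L t))) (N : ℕ) :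
    MvPolynomial.eval₂ ((algebraMap RR (ArithmeticFunction RR)).comp (SS L hL).subtype)
      (fun i => pwf (v i) (fun k => omr s i k)) (poly A c) N = 0 := by
  classical
  by_cases hN0 : N = 0
  · rw [hN0, ArithmeticFunction.map_zero]
  obtain ⟨bnd, hbnd⟩ : ∃ bnd : ℝ, bnd = ∑ i, ρ i * Real.log N := ⟨_, rfl⟩
  obtain ⟨K, hNK, hK⟩ := hsm N (bnd + 1)
  obtain ⟨Θ, hΘ⟩ : ∃ Θ : MvPolynomial (Fin m × ℕ) (SS L hL), Θ = MvPolynomial.aeval
    (fun i => ∑ j ∈ Finset.range K,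
      (MvPolynomial.X (i, j) : MvPolynomial (Fin m × ℕ) (SS L hL))) (poly A c) := ⟨_, rfl⟩
  have hT : ∑ β ∈ Θ.support, ((MvPolynomial.coeff β Θ : SS L hL) : RR) * Ur s β = rm (VK K) := by
    have h1 := ev_sub (SS L hL).subtype (fun x : Fin m × ℕ => omr s x.1 (x.2 + 1)) K (poly A c)
    rw [← hΘ] at h1
    rw [hVK, ← h1, MvPolynomial.eval₂_eq]
    refine Finset.sum_congr rfl fun β _ => ?_
    rw [Ur_eq]
    rfl
  have hT' : MvPolynomial.eval₂ ((algebraMap RR (ArithmeticFunction RR)).comp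
      (SS L hL).subtype) (fun i => pwf (v i) (fun k => omr s i k)) (poly A c) N =
      ∑ β ∈ Θ.support with Zf v β = N,
        ((MvPolynomial.coeff β Θ : SS L hL) : RR) * Ur s β := by
    have h1 := ev_sub ((algebraMap RR (ArithmeticFunction RR)).comp (SS L hL).subtype)
      (fun x : Fin m × ℕ => dl ((x.2 + 1) ^ (v x.1)) (omr s x.1 (x.2 + 1))) K (poly A c)
    rw [← hΘ] at h1
    have h2 := Agr.eval₂ ((algebraMap RR (ArithmeticFunction RR)).comp (SS L hL).subtype) _ _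
      (fun i => agr_pwf K (v i) (hv1 i) (fun k => omr s i k)) (poly A c)
    rw [← h2 N hNK]
    have h3 : MvPolynomial.eval₂ ((algebraMap RR (ArithmeticFunction RR)).comp
        (SS L hL).subtype) (fun i => ∑ k ∈ Finset.range K, dl ((k + 1) ^ (v i))
          (omr s i (k + 1))) (poly A c) = MvPolynomial.eval₂
        ((algebraMap RR (ArithmeticFunction RR)).comp (SS L hL).subtype)
        (fun x : Fin m × ℕ => dl ((x.2 + 1) ^ (v x.1)) (omr s x.1 (x.2 + 1))) Θ := h1.symm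
    rw [h3, MvPolynomial.eval₂_eq, sum_apply_af, Finset.sum_filter]
    refine Finset.sum_congr rfl fun β _ => ?_
    have h4 : ∏ x ∈ β.support, (dl ((x.2 + 1) ^ (v x.1)) (omr s x.1 (x.2 + 1)) :
        ArithmeticFunction RR) ^ (β x) = dl (Zf v β) (Ur s β) := by
      rw [Finset.prod_congr rfl fun x _ => dl_pow ((x.2 + 1) ^ (v x.1)) (by positivity)
        (omr s x.1 (x.2 + 1)) (β x), dl_prod _ _ (fun x _ => by positivity), Ur_eq]
      rfl
    rw [h4, RingHom.comp_apply, algebraMap_mul_apply', dl_apply, mul_ite, mul_zero]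
    by_cases hβ : Zf v β = N
    · rw [if_pos ⟨hβ.symm, hN0⟩, if_pos hβ]
      rfl
    · rw [if_neg (fun h => hβ h.1.symm), if_neg hβ]
  rw [hT']
  have hz := class_zero ρ hg s n L hLn hL e hs he Θ (VK K) hT bnd hK
  have h1 : ∀ β ∈ Θ.support.filter (fun β => Zf v β = N),
      th ρ β ∈ (Θ.support.filter fun β => Zf v β = N).image (th ρ) :=
    fun β hβ => Finset.mem_image_of_mem _ hβ
  rw [← Finset.sum_fiberwise_of_maps_to h1]
  refine Finset.sum_eq_zero fun x hx => ?_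
  obtain ⟨β1, hβ1, rfl⟩ := Finset.mem_image.1 hx
  obtain ⟨hβ1s, hβ1N⟩ := Finset.mem_filter.1 hβ1
  have h2 : (Θ.support.filter fun β => Zf v β = N).filter (fun β => th ρ β = th ρ β1) =
      Θ.support.filter fun β => th ρ β = th ρ β1 := by
    rw [Finset.filter_filter]
    refine Finset.filter_congr fun β _ => ?_
    constructor
    · exact fun h => h.2
    · intro h
      exact ⟨by rw [same_weight' ρ hg v hv β β1 h]; exact hβ1N, h⟩
  rw [h2]
  refine hz _ β1 hβ1s ?_ rfl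
  rw [hbnd, th]
  refine Finset.sum_le_sum fun i _ => mul_le_mul_of_nonneg_left ?_ (hρ i).le
  refine Real.log_le_log (by exact_mod_cast Af_pos β1 i) ?_
  have h3 := Af_le v hv1 β1 i
  rw [hβ1N] at h3
  exact_mod_cast h3

end

end Pool.Agent.H298Y
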