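import Pool.Agent.H298Y.Tail
import Pool.Agent.H298Z.AllPairs

/-!
# `π`, two odd zeta values and a lacunary family of odd zeta values
-/

set_option autoImplicit false

namespace Pool.Agent.H298Y

open Filter Topology

/-- the largest of the indices -/
def top (b : ℕ) : (t : ℕ) → (Fin t → ℕ) → ℕ
  | 0, _ => b
  | _ + 1, q => q 0

/-- the vector of the values -/
noncomputable def zv (x : Fin 3 → ℝ) : (t : ℕ) → (Fin t → ℕ) → Fin (t + 3) → ℝ
  | 0, _ => x
  | t + 1, q => (Fin.cons (zt (2 * q 0 + 1)) (zv x t fun i => q i.succ) : Fin (t + 3 + 1) → ℝ)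

/-- lacunarity -/
def Lac (C : ℝ) (b : ℕ) : (t : ℕ) → (Fin t → ℕ) → Prop
  | 0, _ => True
  | t + 1, q => C * (top b t (fun i => q i.succ) : ℕ) ≤ q 0 ∧ Lac C b t fun i => q i.succ

lemma Lac.mono {C C' : ℝ} (h : C ≤ C') (b : ℕ) : ∀ (t : ℕ) (q : Fin t → ℕ), Lac C' b t q →
    Lac C b t q := by
  intro t
  induction t with
  | zero => intro q _; trivial
  | succ t ih =>
    intro q hq
    exact ⟨(mul_le_mul_of_nonneg_right h (Nat.cast_nonneg _)).trans hq.1, ih _ hq.2⟩

lemma Lac.pos {C : ℝ} (hC : 1 ≤ C) (b : ℕ) (hb : 1 ≤ b) : ∀ (t : ℕ) (q : Fin t → ℕ),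
    Lac C b t q → b ≤ top b t q ∧ ∀ i, 1 ≤ q i := by
  intro t
  induction t with
  | zero => intro q _; exact ⟨le_rfl, fun i => i.elim0⟩
  | succ t ih =>
    intro q hq
    obtain ⟨h1, h2⟩ := ih _ hq.2
    have h3 : ((top b t (fun i => q i.succ) : ℕ) : ℝ) ≤ q 0 :=
      le_trans (le_mul_of_one_le_left (Nat.cast_nonneg _) hC) hq.1
    have h4 : top b t (fun i => q i.succ) ≤ q 0 := by exact_mod_cast h3
    refine ⟨h1.trans h4, fun i => ?_⟩
    refine Fin.cases ?_ (fun i => h2 i) i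
    omega

lemma zv_lt (x : Fin 3 → ℝ) : ∀ (t : ℕ) (q : Fin t → ℕ) (i : Fin t),
    zv x t q (Fin.castAdd 3 i) = zt (2 * q i + 1) := by
  intro t
  induction t with
  | zero => intro q i; exact i.elim0
  | succ t ih =>
    intro q i
    rw [zv]
    refine Fin.cases ?_ (fun i => ?_) i
    · exact Fin.cons_zero _ _
    · have h1 : (Fin.castAdd 3 i.succ : Fin (t + 1 + 3)) = (Fin.castAdd 3 i : Fin (t + 3)).succ := by
        ext
        simp
      rw [h1]
      exact (Fin.cons_succ _ _ _).trans (ih _ i)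

lemma zv_ge (x : Fin 3 → ℝ) : ∀ (t : ℕ) (q : Fin t → ℕ) (j : Fin 3),
    zv x t q (Fin.natAdd t j) = x j := by
  intro t
  induction t with
  | zero =>
    intro q j
    rw [zv]
    congr 1
    ext
    simp
  | succ t ih =>
    intro q j
    rw [zv]
    have h1 : (Fin.natAdd (t + 1) j : Fin (t + 1 + 3)) = (Fin.natAdd t j : Fin (t + 3)).succ := by
      ext
      simp only [Fin.val_natAdd, Fin.val_succ]
      omega
    rw [h1]
    exact (Fin.cons_succ _ _ _).trans (ih _ j)

lemma zv_le (x : Fin 3 → ℝ) (Z : ℝ) (hZ : zt 2 ≤ Z) (hx : ∀ i, |x i| ≤ Z) :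
    ∀ (t : ℕ) (q : Fin t → ℕ), (∀ i, 1 ≤ q i) → ∀ i, |zv x t q i| ≤ Z := by
  intro t
  induction t with
  | zero => intro q _ i; rw [zv]; exact hx i
  | succ t ih =>
    intro q hq i
    rw [zv]
    have h2 : ∀ i : Fin (t + 3 + 1), |(Fin.cons (zt (2 * q 0 + 1)) (zv x t fun i => q i.succ) :
        Fin (t + 3 + 1) → ℝ) i| ≤ Z := by
      intro i
      refine Fin.cases ?_ (fun i => ?_) i
      · rw [Fin.cons_zero]
        have h3 : 2 ≤ 2 * q 0 + 1 := by have := hq 0; omega
        have h4 := (zt_sub _ h3).1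
        have h5 : 0 ≤ ((2 : ℝ) ^ (2 * q 0 + 1))⁻¹ := by positivity
        rw [abs_of_nonneg (by linarith)]
        exact (t5_zt_le _ h3).trans hZ
      · rw [Fin.cons_succ]
        exact ih _ (fun i => hq _) i
    exact h2 i

/-- **`π`, two odd zeta values and a lacunary family** -/
theorem lac (t : ℕ) : ∀ D : ℕ, ∃ C : ℝ, 1 ≤ C ∧ ∀ k l : ℕ, k ≠ l → ∀ q : Fin t → ℕ,
    Lac C (max k l) t q → ∀ H : ℝ, 1 ≤ H → C * (1 + Real.log H) ≤ (min k l : ℕ) →
    ∀ P : MvPolynomial (Fin (t + 3)) ℤ, P ≠ 0 → P.totalDegree ≤ D →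
    (∀ α, |((P.coeff α : ℤ) : ℝ)| ≤ H) →
    Real.exp (-(C * (top (max k l) t q : ℕ))) ≤
      |MvPolynomial.aeval (zv ![Real.pi, zt (2 * k + 1), zt (2 * l + 1)] t q) P| := by
  classical
  induction t with
  | zero =>
    intro D
    obtain ⟨C, hC, h⟩ := Pool.Agent.H298Z.AllPairs.allPairs D
    refine ⟨max C 1, le_max_right _ _, ?_⟩
    intro k l hkl q _ H hH hm P hP0 hPD hPH
    have hlog : 0 ≤ Real.log H := Real.log_nonneg hH
    have h1 := h k l hkl H hH (le_trans (mul_le_mul_of_nonneg_right (le_max_left _ _)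
      (by linarith)) hm) P hP0 hPD hPH
    rw [zv, top]
    refine le_trans ?_ h1
    rw [Real.exp_le_exp, neg_le_neg_iff]
    exact mul_le_mul_of_nonneg_right (le_max_left _ _) (Nat.cast_nonneg _)
  | succ t ih =>
    intro D
    obtain ⟨Z, hZdef⟩ : ∃ Z : ℝ, Z = max 4 (zt 2) := ⟨_, rfl⟩
    have hZ4 : 4 ≤ Z := by rw [hZdef]; exact le_max_left _ _
    have hZz : zt 2 ≤ Z := by rw [hZdef]; exact le_max_right _ _
    obtain ⟨E, hE, hadj⟩ := adjoin (t + 3) D Z (by linarith)
    obtain ⟨C1, hC1, h1⟩ := ih D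
    obtain ⟨W, hW⟩ : ∃ W : ℝ, W = 2 * (1 + 4 * zt 2) := ⟨_, rfl⟩
    have hz2 := t5_one_le
    have hW0 : 0 < W := by rw [hW]; linarith
    have hE0 : 0 < E := by linarith
    have hlE : 0 ≤ Real.log E := Real.log_nonneg hE
    obtain ⟨C, hCdef⟩ : ∃ C : ℝ, C = C1 * (1 + Real.log E) + C1 + 2 + Real.log E + W + 3 * D :=
      ⟨_, rfl⟩
    have hD0 : (0 : ℝ) ≤ D := Nat.cast_nonneg _
    have hp0 : 0 ≤ C1 * Real.log E := mul_nonneg (by linarith) hlE
    have hp1 : 0 ≤ C1 * (1 + Real.log E) := mul_nonneg (by linarith) (by linarith)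
    have hCC1 : C1 ≤ C := by rw [hCdef]; linarith
    have hC1' : 1 ≤ C := hC1.trans hCC1
    refine ⟨C, hC1', ?_⟩
    intro k l hkl q hq H hH hm P hP0 hPD hPH
    have hlog : 0 ≤ Real.log H := Real.log_nonneg hH
    have hH0 : 0 < H := by linarith
    have hmin1 : (1 : ℝ) ≤ (min k l : ℕ) := by nlinarith
    have hmin1' : 1 ≤ min k l := by exact_mod_cast hmin1
    have hmax1 : 1 ≤ max k l := by omega
    obtain ⟨hq1, hq2⟩ := hq
    obtain ⟨S, hS⟩ : ∃ S : ℕ, S = top (max k l) t (fun i => q i.succ) := ⟨_, rfl⟩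
    have hpos := Lac.pos hC1' _ hmax1 t _ hq2
    rw [← hS] at hq1 hpos
    have hSmin : min k l ≤ S := by have := hpos.1; omega
    have hS1 : (1 : ℝ) ≤ S := by exact_mod_cast hmin1'.trans hSmin
    have hSmin' : ((min k l : ℕ) : ℝ) ≤ S := by exact_mod_cast hSmin
    have hq0S : (S : ℝ) ≤ q 0 := le_trans (le_mul_of_one_le_left (by linarith) hC1') hq1
    have hq01 : 1 ≤ q 0 := by
      have : (1 : ℝ) ≤ q 0 := hS1.trans hq0S
      exact_mod_cast this
    obtain ⟨N, hN⟩ : ∃ N : ℕ, N = 2 * q 0 + 1 := ⟨_, rfl⟩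
    have hN2 : 2 ≤ N := by omega
    obtain ⟨hx1, hx2⟩ := zt_sub N hN2
    obtain ⟨x, hx⟩ : ∃ x, x = zt N - 1 := ⟨_, rfl⟩
    rw [← hx] at hx1 hx2
    have hxpos : 0 < x := lt_of_lt_of_le (by positivity) hx1
    -- heights
    have hHS : H ≤ Real.exp S := by
      rw [← Real.log_le_iff_le_exp hH0]
      have h2 : 1 + Real.log H ≤ C * (1 + Real.log H) :=
        le_mul_of_one_le_left (by linarith) hC1'
      linarith
    have hNq : (q 0 : ℝ) ≤ N * Real.log 2 := by
      rw [hN]
      push_cast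
      have := Real.log_two_gt_d9
      nlinarith
    have hpow : E * H * (W * ((2 : ℝ) ^ N)⁻¹) ≤ Real.exp (-(C1 * S)) := by
      have h3 : (2 : ℝ) ^ N = Real.exp (N * Real.log 2) := by
        rw [Real.exp_nat_mul, Real.exp_log (by norm_num)]
      have h4 : W ≤ Real.exp (W * S) := by
        have h5 := Real.add_one_le_exp (W * (S : ℝ))
        have h6 : W * 1 ≤ W * S := mul_le_mul_of_nonneg_left hS1 hW0.le
        linarith
      have h5 : E ≤ Real.exp (Real.log E * S) := by
        rw [← Real.log_le_iff_le_exp hE0]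
        exact le_mul_of_one_le_right hlE hS1
      have h6 : Real.exp (-(N * Real.log 2)) ≤ Real.exp (-(C * S)) := by
        rw [Real.exp_le_exp, neg_le_neg_iff]
        exact hq1.trans hNq
      rw [h3, ← Real.exp_neg]
      calc E * H * (W * Real.exp (-(N * Real.log 2)))
          ≤ Real.exp (Real.log E * S) * Real.exp S * (Real.exp (W * S) * Real.exp (-(C * S))) := by
            gcongr
        _ = Real.exp ((Real.log E + 1 + W - C) * S) := by
            rw [← Real.exp_add, ← Real.exp_add, ← Real.exp_add]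
            ring_nf
        _ ≤ Real.exp (-(C1 * S)) := by
            rw [Real.exp_le_exp]
            have h7 : Real.log E + 1 + W - C ≤ -C1 := by rw [hCdef]; linarith
            have := mul_le_mul_of_nonneg_right h7 (by linarith : (0 : ℝ) ≤ S)
            linarith
    have hb1 : Real.exp (-(C1 * S)) ≤ 1 := by
      rw [Real.exp_le_one_iff]
      have : 0 ≤ C1 * (S : ℝ) := by positivity
      linarith
    have hxle : x ≤ 1 := by
      have h3 : 1 * (W * ((2 : ℝ) ^ N)⁻¹) ≤ E * H * (W * ((2 : ℝ) ^ N)⁻¹) := by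
        refine mul_le_mul_of_nonneg_right ?_ (by positivity)
        nlinarith
      have h4 : 0 ≤ (1 + 4 * zt 2) * ((2 : ℝ) ^ N)⁻¹ := by positivity
      have h5 : W * ((2 : ℝ) ^ N)⁻¹ = 2 * ((1 + 4 * zt 2) * ((2 : ℝ) ^ N)⁻¹) := by rw [hW]; ring
      rw [h5] at h3 hpow
      linarith
    have hpi : |Real.pi| ≤ Z := by
      rw [abs_of_pos Real.pi_pos]
      linarith [Real.pi_le_four]
    have hzt : ∀ j : ℕ, 1 ≤ j → |zt (2 * j + 1)| ≤ Z := by
      intro j hj
      have h3 : 2 ≤ 2 * j + 1 := by omega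
      have h4 := (zt_sub _ h3).1
      have h5 : 0 ≤ ((2 : ℝ) ^ (2 * j + 1))⁻¹ := by positivity
      rw [abs_of_nonneg (by linarith)]
      exact (t5_zt_le _ h3).trans hZz
    have hxv : ∀ i, |(![Real.pi, zt (2 * k + 1), zt (2 * l + 1)] : Fin 3 → ℝ) i| ≤ Z := by
      intro i
      fin_cases i
      · exact hpi
      · exact hzt k (by omega)
      · exact hzt l (by omega)
    have key := hadj (zv ![Real.pi, zt (2 * k + 1), zt (2 * l + 1)] t fun i => q i.succ) x P H
      (Real.exp (-(C1 * S))) hH0.le (zv_le _ Z hZz hxv t _ (fun i => hpos.2 i)) hxpos hxle hP0 hPD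
      hPH (by
        intro Q hQ0 hQD hQH
        have h3 := h1 k l hkl (fun i => q i.succ) (Lac.mono hCC1 _ t _ hq2) (E * H)
          (one_le_mul_of_one_le_of_one_le hE hH) (by
          refine le_trans ?_ hm
          rw [Real.log_mul hE0.ne' hH0.ne']
          have h4 : C1 * (1 + Real.log E) ≤ C := by rw [hCdef]; linarith
          have h5 : C1 * (1 + Real.log E) * (1 + Real.log H) ≤ C * (1 + Real.log H) :=
            mul_le_mul_of_nonneg_right h4 (by linarith)
          have h6 : 0 ≤ C1 * (Real.log E * Real.log H) :=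
            mul_nonneg (by linarith) (mul_nonneg hlE hlog)
          have h7 : C1 * (1 + Real.log E) * (1 + Real.log H) =
            C1 * (1 + (Real.log E + Real.log H)) + C1 * (Real.log E * Real.log H) := by ring
          linarith) Q hQ0 hQD hQH
        rw [← hS] at h3
        exact h3) (by
        calc E * H * x ≤ E * H * ((1 + 4 * zt 2) * ((2 : ℝ) ^ N)⁻¹) :=
              mul_le_mul_of_nonneg_left hx2 (by positivity)
          _ = E * H * (W * ((2 : ℝ) ^ N)⁻¹) / 2 := by rw [hW]; ring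
          _ ≤ Real.exp (-(C1 * S)) / 2 := by linarith)
    have hcons : (Fin.cons (1 + x) (zv ![Real.pi, zt (2 * k + 1), zt (2 * l + 1)] t
        fun i => q i.succ) : Fin (t + 3 + 1) → ℝ) =
        zv ![Real.pi, zt (2 * k + 1), zt (2 * l + 1)] (t + 1) q := by
      rw [zv, hx, hN]
      congr 1
      ring
    rw [hcons] at key
    refine le_trans ?_ key
    rw [top]
    -- the final comparison
    have h3 : Real.exp (-(3 * D * (q 0 : ℝ))) ≤ x ^ D := by
      have h4 : Real.exp (-(3 * (q 0 : ℝ))) ≤ x := by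
        refine le_trans ?_ hx1
        rw [Real.exp_neg]
        refine inv_anti₀ (by positivity) ?_
        have h5 : (2 : ℝ) ^ N ≤ Real.exp N := by
          have h6 : Real.exp (N : ℝ) = Real.exp 1 ^ N := by
            rw [← Real.exp_nat_mul, mul_one]
          rw [h6]
          exact pow_le_pow_left₀ (by norm_num) (by linarith [Real.add_one_le_exp (1 : ℝ)]) _
        refine h5.trans ?_
        rw [Real.exp_le_exp, hN]
        push_cast
        have : (1 : ℝ) ≤ q 0 := by exact_mod_cast hq01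
        linarith
      calc Real.exp (-(3 * D * (q 0 : ℝ))) = Real.exp (-(3 * (q 0 : ℝ))) ^ D := by
            rw [← Real.exp_nat_mul]
            ring_nf
        _ ≤ x ^ D := pow_le_pow_left₀ (Real.exp_pos _).le h4 _
    have h4 : Real.exp (-(C1 * q 0 + 1)) ≤ Real.exp (-(C1 * S)) / 2 := by
      have h5 : Real.exp (-(C1 * q 0 + 1)) = Real.exp (-(C1 * q 0)) * (Real.exp 1)⁻¹ := by
        rw [← Real.exp_neg, ← Real.exp_add]
        ring_nf
      have h6 : Real.exp (-(C1 * q 0)) ≤ Real.exp (-(C1 * S)) := by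
        rw [Real.exp_le_exp, neg_le_neg_iff]
        exact mul_le_mul_of_nonneg_left hq0S (by linarith)
      have h7 : (Real.exp 1)⁻¹ ≤ 2⁻¹ :=
        inv_anti₀ (by norm_num) (by linarith [Real.exp_one_gt_d9])
      rw [h5, div_eq_mul_inv]
      exact mul_le_mul h6 h7 (by positivity) (Real.exp_pos _).le
    have hq01' : (1 : ℝ) ≤ q 0 := by exact_mod_cast hq01
    calc Real.exp (-(C * (q 0 : ℕ)))
        ≤ Real.exp (-(C1 * q 0 + 1)) * Real.exp (-(3 * D * (q 0 : ℝ))) := by
          rw [← Real.exp_add, Real.exp_le_exp]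
          have h8 : C1 + 1 + 3 * D ≤ C := by rw [hCdef]; linarith
          have h9 := mul_le_mul_of_nonneg_right h8 (by linarith : (0 : ℝ) ≤ q 0)
          have h10 : (C1 + 1 + 3 * D) * (q 0 : ℝ) = C1 * q 0 + q 0 + 3 * D * q 0 := by ring
          linarith
      _ ≤ Real.exp (-(C1 * S)) / 2 * x ^ D :=
          mul_le_mul h4 h3 (Real.exp_pos _).le (by positivity)

end Pool.Agent.H298Y
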