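-- Paste back the complete file with the proof (statement unchanged). Due 18:00 UTC if possible. helper298
import Mathlib

set_option autoImplicit false

namespace Pool.Agent.H298Y

/-!
JOB T1 (helper298, MP_a89d6d_nt, very_famous). Rational specialisation of positive reals.

PROOF. Let `W = span ℚ (range ρ)` (finite-dimensional over `ℚ`), `b : Basis (Fin r) ℚ W`, so
`ρ i = ∑ j, q i j * b j` with rational `q i j`. For `x : Fin r → ℝ` put `F x i = ∑ j, q i j * x j`
(continuous in `x`, and `F b i = ρ i`). The set of the `x` with `0 < F x i` for all `i` and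
`F x i ≠ F x j` whenever `ρ i ≠ ρ j` is open and contains `b`; rational points are dense in
`Fin r → ℝ` (`DenseRange`/`Rat.denseRange_cast` and `DenseRange.piMap`), so it contains a rational
`x`. Put `v' i = ∑ j, q i j * x j ∈ ℚ`, positive. If `∑ γ i * ρ i = 0` then
`∑ i, γ i * q i j = 0` for every `j` (independence of the basis), hence `∑ i, γ i * v' i = 0`.
Multiply by a common denominator: `v i = v' i * ∏ (v' k).den`, a positive integer.
-/
theorem exists_v {m : ℕ} (ρ : Fin m → ℝ) (hρ : ∀ i, 0 < ρ i) :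
    ∃ v : Fin m → ℕ, (∀ i, 1 ≤ v i) ∧ (∀ i j, v i = v j → ρ i = ρ j) ∧
      ∀ γ : Fin m → ℤ, ∑ i, (γ i : ℝ) * ρ i = 0 → ∑ i, γ i * (v i : ℤ) = 0 := by
  classical
  let W : Submodule ℚ ℝ := Submodule.span ℚ (Set.range ρ)
  haveI : FiniteDimensional ℚ W := FiniteDimensional.span_of_finite ℚ (Set.finite_range ρ)
  let b := Module.finBasis ℚ W
  have hmem : ∀ i, ρ i ∈ W := fun i => Submodule.subset_span ⟨i, rfl⟩
  let w : Fin m → W := fun i => ⟨ρ i, hmem i⟩
  let q : Fin m → Fin (Module.finrank ℚ W) → ℚ := fun i j => b.repr (w i) j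
  have hq : ∀ i, ρ i = ∑ j, (q i j : ℝ) * (b j : ℝ) := by
    intro i
    have h1 := b.sum_repr (w i)
    have h2 := congrArg (fun z : W => (z : ℝ)) h1
    simp only [Submodule.coe_sum, Submodule.coe_smul, Rat.smul_def] at h2
    exact h2.symm
  let F : (Fin (Module.finrank ℚ W) → ℝ) → Fin m → ℝ := fun x i => ∑ j, (q i j : ℝ) * x j
  have hF : ∀ i, Continuous fun x => F x i := by
    intro i
    show Continuous fun x : Fin (Module.finrank ℚ W) → ℝ => ∑ j, (q i j : ℝ) * x j
    fun_prop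
  have hU : IsOpen ((⋂ i, {x | 0 < F x i}) ∩
      ⋂ i, ⋂ j, {x | ρ i ≠ ρ j → F x i ≠ F x j}) := by
    refine (isOpen_iInter_of_finite fun i => isOpen_lt continuous_const (hF i)).inter
      (isOpen_iInter_of_finite fun i => isOpen_iInter_of_finite fun j => ?_)
    by_cases h : ρ i = ρ j
    · have : {x | ρ i ≠ ρ j → F x i ≠ F x j} = Set.univ := by
        ext x; simp [h]
      rw [this]
      exact isOpen_univ
    · have : {x | ρ i ≠ ρ j → F x i ≠ F x j} = {x | F x i ≠ F x j} := by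
        ext x; simp [h]
      rw [this]
      exact isOpen_ne_fun (hF i) (hF j)
  have hb : (fun j => (b j : ℝ)) ∈ ((⋂ i, {x | 0 < F x i}) ∩
      ⋂ i, ⋂ j, {x | ρ i ≠ ρ j → F x i ≠ F x j}) := by
    have hFb : ∀ i, F (fun j => (b j : ℝ)) i = ρ i := fun i => (hq i).symm
    refine ⟨Set.mem_iInter.mpr fun i => ?_, Set.mem_iInter.mpr fun i => Set.mem_iInter.mpr fun j => ?_⟩
    · show 0 < F _ i
      rw [hFb]; exact hρ i
    · intro h
      show F _ i ≠ F _ j
      rw [hFb, hFb]; exact h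
  have hD : DenseRange (Pi.map (fun (_ : Fin (Module.finrank ℚ W)) (x : ℚ) => (x : ℝ))) :=
    DenseRange.piMap fun _ => Rat.denseRange_cast
  obtain ⟨y, hy1, hy2⟩ := hD.exists_mem_open hU ⟨_, hb⟩
  let v' : Fin m → ℚ := fun i => ∑ j, q i j * y j
  have hFv : ∀ i, F (Pi.map (fun _ (x : ℚ) => (x : ℝ)) y) i = (v' i : ℝ) := by
    intro i
    show ∑ j, (q i j : ℝ) * ((y j : ℚ) : ℝ) = _
    simp only [v']
    push_cast
    rfl
  have hv'pos : ∀ i, 0 < v' i := by
    intro i
    have h1 := Set.mem_iInter.mp hy1 i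
    have h2 : 0 < F (Pi.map (fun _ (x : ℚ) => (x : ℝ)) y) i := h1
    rw [hFv] at h2
    exact_mod_cast h2
  have hv'ne : ∀ i j, v' i = v' j → ρ i = ρ j := by
    intro i j h
    by_contra hne
    have h1 := Set.mem_iInter.mp (Set.mem_iInter.mp hy2 i) j
    have h2 : F (Pi.map (fun _ (x : ℚ) => (x : ℝ)) y) i ≠ F (Pi.map (fun _ (x : ℚ) => (x : ℝ)) y) j := h1 hne
    rw [hFv, hFv] at h2
    exact h2 (by rw [h])
  have hv'sum : ∀ γ : Fin m → ℤ, ∑ i, (γ i : ℝ) * ρ i = 0 → ∑ i, (γ i : ℚ) * v' i = 0 := by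
    intro γ hγ
    have h1 : ∑ i, (γ i : ℚ) • w i = 0 := by
      apply Subtype.ext
      simp only [Submodule.coe_sum, Submodule.coe_smul, Rat.smul_def, Submodule.coe_zero]
      rw [← hγ]
      refine Finset.sum_congr rfl fun i _ => ?_
      simp [w]
    have h2 : ∀ j, ∑ i, (γ i : ℚ) * q i j = 0 := by
      intro j
      have h3 := congrArg (fun z => b.repr z j) h1
      simpa [map_sum, map_smul, Finsupp.finset_sum_apply, q] using h3
    calc ∑ i, (γ i : ℚ) * v' i = ∑ i, ∑ j, (γ i : ℚ) * (q i j * y j) := by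
          refine Finset.sum_congr rfl fun i _ => ?_
          rw [Finset.mul_sum]
      _ = ∑ j, ∑ i, (γ i : ℚ) * (q i j * y j) := Finset.sum_comm
      _ = ∑ j, (∑ i, (γ i : ℚ) * q i j) * y j := by
          refine Finset.sum_congr rfl fun j _ => ?_
          rw [Finset.sum_mul]
          exact Finset.sum_congr rfl fun i _ => by ring
      _ = 0 := by simp [h2]
  -- clear the denominators
  let D : ℕ := ∏ k, (v' k).den
  have hDpos : 0 < D := Finset.prod_pos fun k _ => (v' k).pos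
  have hex : ∀ i, ∃ n : ℕ, (n : ℚ) = v' i * D := by
    intro i
    obtain ⟨c, hc⟩ : (v' i).den ∣ D := Finset.dvd_prod_of_mem _ (Finset.mem_univ i)
    refine ⟨(v' i).num.toNat * c, ?_⟩
    have h1 : 0 ≤ (v' i).num := (Rat.num_pos.mpr (hv'pos i)).le
    have h2 : (((v' i).num.toNat : ℕ) : ℚ) = ((v' i).num : ℚ) := by
      have : (((v' i).num.toNat : ℕ) : ℤ) = (v' i).num := Int.toNat_of_nonneg h1
      exact_mod_cast this
    rw [hc]
    push_cast
    rw [h2]
    have h3 := Rat.mul_den_eq_num (v' i)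
    rw [← h3]
    ring
  choose v hv using hex
  have hDq : (0 : ℚ) < D := by exact_mod_cast hDpos
  refine ⟨v, fun i => ?_, fun i j h => ?_, fun γ hγ => ?_⟩
  · have h1 : (0 : ℚ) < v i := by rw [hv]; exact mul_pos (hv'pos i) hDq
    exact_mod_cast h1
  · refine hv'ne i j ?_
    have h1 : (v i : ℚ) = v j := by rw [h]
    rw [hv, hv] at h1
    exact mul_right_cancel₀ hDq.ne' h1
  · have h1 := hv'sum γ hγ
    have h2 : ((∑ i, γ i * (v i : ℤ) : ℤ) : ℚ) = 0 := by
      push_cast
      calc ∑ i, (γ i : ℚ) * (v i : ℚ) = ∑ i, ((γ i : ℚ) * v' i) * D := by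
            refine Finset.sum_congr rfl fun i _ => ?_
            rw [hv]; ring
        _ = (∑ i, (γ i : ℚ) * v' i) * D := by rw [Finset.sum_mul]
        _ = 0 := by rw [h1, zero_mul]
    exact_mod_cast h2

end Pool.Agent.H298Y

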