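import Pool.Agent.H298Y.Core
import Pool.Agent.H298Y.T1
import Pool.Agent.H298Y.T3

/-!
# Algebraic relations between zeta values whose arguments are large and lie in a cone
-/

set_option autoImplicit false

namespace Pool.Agent.H298Y

open Filter Topology Pool.Agent.TH932.Germs Pool.Agent.TH551.SU Pool.Agent.TH461.SST
open Pool.Agent.TH507.ZS

section

variable {m : ℕ}

/-- independence of the germs `p ^ (-s_j)` over many primes -/
lemma germ_vdm (s : ℕ → Fin m → ℕ) (hs : ∀ t, Function.Injective (s t)) (J : Finset (Fin m))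
    (a : Fin m → GG) (X : ℕ)
    (h : ∀ p : ℕ, p.Prime → X < p → ∑ j ∈ J, a j * om s j p = 0) : ∀ j ∈ J, a j = 0 := by
  classical
  choose α hα using fun j => gm_surj (a j)
  have hinf : ({p : ℕ | p.Prime ∧ X < p}).Infinite := by
    refine Set.infinite_of_not_bddAbove ?_
    rintro ⟨B, hB⟩
    obtain ⟨p, hp1, hp2⟩ := Nat.exists_infinite_primes (max B X + 1)
    have h1 := hB (a := p) ⟨hp2, by omega⟩
    omega
  obtain ⟨T, hT, hTc⟩ := hinf.exists_subset_card_eq J.card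
  have h1 : ∀ᶠ t in (UU : Filter ℕ), ∀ p ∈ T, ∑ j ∈ J, α j t * ((p : ℚ) ^ (s t j))⁻¹ = 0 := by
    rw [Finset.eventually_all]
    intro p hp
    have h2 := h p (hT hp).1 (hT hp).2
    have h3 : gm (fun t => ∑ j ∈ J, α j t * ((p : ℚ) ^ (s t j))⁻¹) = gm fun _ => 0 := by
      rw [gm_sum, gm_zero, ← h2]
      refine Finset.sum_congr rfl fun j _ => ?_
      rw [← hα j]
      rfl
    exact gm_eq.1 h3
  intro j hj
  rw [← hα j, ← gm_zero, gm_eq]
  filter_upwards [h1] with t ht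
  have h4 := gv J (s t) ((hs t).injOn) (fun j => (α j t : ℝ)) (T.image fun p : ℕ => ((p : ℝ))⁻¹)
    (by
      intro x hx
      obtain ⟨p, hp, rfl⟩ := Finset.mem_image.1 hx
      have := (hT hp).1.pos
      positivity) (by
      rw [Finset.card_image_of_injective _ (fun p q hpq => by
        have : (p : ℝ) = q := inv_injective hpq
        exact_mod_cast this), hTc]) (by
      intro x hx
      obtain ⟨p, hp, rfl⟩ := Finset.mem_image.1 hx
      have h5 := ht p hp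
      have h6 : ((∑ j ∈ J, α j t * ((p : ℚ) ^ (s t j))⁻¹ : ℚ) : ℝ) = 0 := by
        rw [h5, Rat.cast_zero]
      push_cast at h6
      rw [← h6]
      refine Finset.sum_congr rfl fun j _ => ?_
      rw [inv_pow]) j hj
  exact_mod_cast h4

lemma exp_third : Real.exp (1 / 3) ≤ 3 / 2 := by
  have h1 : Real.exp 1 = Real.exp (1 / 3) ^ 3 := by
    rw [← Real.exp_nat_mul]
    norm_num
  by_contra h
  push Not at h
  have h2 : (3 / 2 : ℝ) ^ 3 < Real.exp (1 / 3) ^ 3 := pow_lt_pow_left₀ h (by norm_num) (by norm_num)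
  have h3 := Real.exp_one_lt_d9
  rw [← h1] at h2
  norm_num at h2
  linarith

/-- the numerical estimate -/
lemma small (C : ℝ) (hC : 0 < C) (G K : ℕ) (hG : 1 ≤ G) (hK : 9 * G ≤ K) (n : ℕ → ℕ)
    (hn : ∀ t, t ≤ n t) : ∀ᶠ t : ℕ in (UU : Filter ℕ),
      (((t : ℝ) + 2) ^ (n t))⁻¹ + C * Real.exp (1 / ((t : ℝ) + 1) * n t) *
        ((K : ℝ) ^ 2 / (K : ℝ) ^ (n t)) ≤ Real.exp (-(1 * (n t : ℝ))) * (((G : ℝ) ^ (n t))⁻¹) := by
  have hg : (1 : ℝ) ≤ G := by exact_mod_cast hG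
  have hK' : 9 * (G : ℝ) ≤ K := by exact_mod_cast hK
  have hKpos : (0 : ℝ) < K := by linarith
  have e1 : ∀ᶠ t : ℕ in atTop, 6 * (G : ℝ) ≤ (t : ℝ) + 2 := by
    filter_upwards [tendsto_natCast_atTop_atTop.eventually_ge_atTop (6 * (G : ℝ))] with t ht
    linarith
  have e2 : ∀ᶠ t : ℕ in atTop, 1 + C * (K : ℝ) ^ 2 ≤ 2 ^ t :=
    (tendsto_pow_atTop_atTop_of_one_lt (one_lt_two)).eventually_ge_atTop _
  have e3 : ∀ᶠ t : ℕ in atTop, 2 ≤ t := eventually_ge_atTop 2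
  refine ev_of_atTop ?_
  filter_upwards [e1, e2, e3] with t h1 h2 h3
  have hnt : (2 : ℝ) ^ t ≤ 2 ^ (n t) := pow_le_pow_right₀ one_le_two (hn t)
  have k1 : (((t : ℝ) + 2) ^ (n t))⁻¹ ≤ ((6 * (G : ℝ)) ^ (n t))⁻¹ :=
    inv_anti₀ (by positivity) (pow_le_pow_left₀ (by positivity) h1 _)
  have k2 : Real.exp (1 / ((t : ℝ) + 1) * n t) ≤ (3 / 2) ^ (n t) := by
    have h4 : Real.exp (1 / ((t : ℝ) + 1) * n t) = Real.exp (1 / ((t : ℝ) + 1)) ^ (n t) := by
      rw [← Real.exp_nat_mul]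
      ring_nf
    rw [h4]
    refine pow_le_pow_left₀ (Real.exp_pos _).le (le_trans ?_ exp_third) _
    rw [Real.exp_le_exp]
    refine one_div_le_one_div_of_le (by norm_num) ?_
    have : (2 : ℝ) ≤ t := by exact_mod_cast h3
    linarith
  have k3 : ((K : ℝ) ^ (n t))⁻¹ ≤ ((9 * (G : ℝ)) ^ (n t))⁻¹ :=
    inv_anti₀ (by positivity) (pow_le_pow_left₀ (by positivity) hK' _)
  have k4 : C * Real.exp (1 / ((t : ℝ) + 1) * n t) * ((K : ℝ) ^ 2 / (K : ℝ) ^ (n t)) ≤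
      C * (K : ℝ) ^ 2 * ((6 * (G : ℝ)) ^ (n t))⁻¹ := by
    calc C * Real.exp (1 / ((t : ℝ) + 1) * n t) * ((K : ℝ) ^ 2 / (K : ℝ) ^ (n t))
        ≤ C * (3 / 2) ^ (n t) * ((K : ℝ) ^ 2 * ((9 * (G : ℝ)) ^ (n t))⁻¹) := by
          rw [div_eq_mul_inv ((K : ℝ) ^ 2)]
          exact mul_le_mul (mul_le_mul_of_nonneg_left k2 hC.le)
            (mul_le_mul_of_nonneg_left k3 (by positivity)) (by positivity) (by positivity)
      _ = C * (K : ℝ) ^ 2 * ((3 / 2) ^ (n t) * ((9 * (G : ℝ)) ^ (n t))⁻¹) := by ring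
      _ = C * (K : ℝ) ^ 2 * ((6 * (G : ℝ)) ^ (n t))⁻¹ := by
          congr 1
          rw [← inv_pow, ← inv_pow, ← mul_pow]
          congr 1
          field_simp
          norm_num
  have k5 : ((6 * (G : ℝ)) ^ (n t))⁻¹ = (2 ^ (n t))⁻¹ * ((3 * (G : ℝ)) ^ (n t))⁻¹ := by
    rw [← mul_inv, ← mul_pow]
    ring_nf
  have k6 : ((3 * (G : ℝ)) ^ (n t))⁻¹ ≤ Real.exp (-(1 * (n t : ℝ))) * (((G : ℝ) ^ (n t))⁻¹) := by
    rw [mul_pow, mul_inv]
    refine mul_le_mul_of_nonneg_right ?_ (by positivity)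
    rw [Real.exp_neg]
    refine inv_anti₀ (Real.exp_pos _) ?_
    have h4 : Real.exp (1 * (n t : ℝ)) = Real.exp 1 ^ (n t) := by
      rw [← Real.exp_nat_mul]
      ring_nf
    rw [h4]
    refine pow_le_pow_left₀ (Real.exp_pos _).le ?_ _
    have := Real.exp_one_lt_d9
    linarith
  refine le_trans ?_ k6
  calc (((t : ℝ) + 2) ^ (n t))⁻¹ + C * Real.exp (1 / ((t : ℝ) + 1) * n t) *
        ((K : ℝ) ^ 2 / (K : ℝ) ^ (n t))
      ≤ ((6 * (G : ℝ)) ^ (n t))⁻¹ + C * (K : ℝ) ^ 2 * ((6 * (G : ℝ)) ^ (n t))⁻¹ :=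
        add_le_add k1 k4
    _ = ((1 + C * (K : ℝ) ^ 2) * (2 ^ (n t))⁻¹) * ((3 * (G : ℝ)) ^ (n t))⁻¹ := by
        rw [k5]; ring
    _ ≤ 1 * ((3 * (G : ℝ)) ^ (n t))⁻¹ := by
        refine mul_le_mul_of_nonneg_right ?_ (by positivity)
        rw [← div_eq_mul_inv, div_le_one (by positivity)]
        exact h2.trans hnt
    _ = _ := one_mul _

lemma Af_le (v : Fin m → ℕ) (hv1 : ∀ i, 1 ≤ v i) (β : (Fin m × ℕ) →₀ ℕ) (i : Fin m) :
    Af β i ≤ Zf v β := by
  classical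
  rw [Zf_eq]
  calc Af β i ≤ Af β i ^ v i := Nat.le_self_pow (by have := hv1 i; omega) _
    _ ≤ ∏ j, Af β j ^ v j := Finset.single_le_prod' (f := fun j => Af β j ^ v j)
        (fun j _ => Nat.one_le_pow _ _ (Af_pos β j)) (Finset.mem_univ i)

lemma Zf_le (v : Fin m → ℕ) (hv1 : ∀ i, 1 ≤ v i) (β : (Fin m × ℕ) →₀ ℕ) (e : Fin m → ℕ)
    (R n : ℕ) (he : ∀ i, e i ≤ R * n) : Zf e β ≤ ((Zf v β) ^ (m * R)) ^ n := by
  classical
  have hpos : 0 < Zf v β := Zf_pos v β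
  calc Zf e β = ∏ i, (Af β i) ^ (e i) := Zf_eq e β
    _ ≤ ∏ _i : Fin m, (Zf v β) ^ (R * n) := by
        refine Finset.prod_le_prod' fun i _ => ?_
        exact (Nat.pow_le_pow_left (Af_le v hv1 β i) _).trans
          (Nat.pow_le_pow_right hpos (he i))
    _ = ((Zf v β) ^ (m * R)) ^ n := by
        rw [Finset.prod_const, Finset.card_univ, Fintype.card_fin, ← pow_mul, ← pow_mul]
        ring_nf

/-- the limit of the ratios -/
lemma exists_ratio (s : ℕ → Fin m → ℕ) (n : ℕ → ℕ) (hn0 : ∀ t, 1 ≤ n t) (R : ℕ)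
    (hs1 : ∀ t i, n t ≤ s t i) (hs2 : ∀ t i, s t i ≤ R * n t) :
    ∃ ρ : Fin m → ℝ, (∀ i, 1 ≤ ρ i) ∧
      ∀ i, Tendsto (fun t => (s t i : ℝ) / (n t : ℝ)) (UU : Filter ℕ) (𝓝 (ρ i)) := by
  have h1 : ∀ i, ∃ r : ℝ, 1 ≤ r ∧
      Tendsto (fun t => (s t i : ℝ) / (n t : ℝ)) (UU : Filter ℕ) (𝓝 r) := by
    intro i
    obtain ⟨r, hr, hle⟩ := (isCompact_Icc (a := (1 : ℝ)) (b := R)).ultrafilter_le_nhds
      (UU.map fun t => (s t i : ℝ) / (n t : ℝ)) (by
        rw [Filter.le_principal_iff]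
        refine Filter.mem_map.2 (Filter.univ_mem' fun t => ?_)
        have h2 : (0 : ℝ) < n t := by exact_mod_cast hn0 t
        have h3 : (n t : ℝ) ≤ s t i := by exact_mod_cast hs1 t i
        have h4 : (s t i : ℝ) ≤ R * n t := by exact_mod_cast hs2 t i
        show (s t i : ℝ) / (n t : ℝ) ∈ Set.Icc (1 : ℝ) R
        exact ⟨(one_le_div h2).2 h3, (div_le_iff₀ h2).2 h4⟩)
    exact ⟨r, hr.1, hle⟩
  choose ρ h2 h3 using h1
  exact ⟨ρ, h2, h3⟩

/-- the box of exponents -/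
noncomputable def bx (m D : ℕ) : Finset (Fin m →₀ ℕ) :=
  Finset.Iic (Finsupp.equivFunOnFinite.symm fun _ => D)

lemma mem_bx (P : MvPolynomial (Fin m) ℤ) (D : ℕ) (hD : P.totalDegree ≤ D) (α : Fin m →₀ ℕ)
    (hα : α ∈ P.support) : α ∈ bx m D := by
  classical
  unfold bx
  rw [Finset.mem_Iic]
  intro i
  have h1 := MvPolynomial.le_totalDegree hα
  rw [Finsupp.sum_fintype _ _ (fun _ => rfl)] at h1
  have h2 : α i ≤ ∑ j, α j := Finset.single_le_sum (f := fun j => α j)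
    (fun _ _ => Nat.zero_le _) (Finset.mem_univ i)
  exact h2.trans (h1.trans hD)

/-- the truncated value -/
noncomputable def VV (s : Fin m → ℕ) (D K : ℕ) (P : MvPolynomial (Fin m) ℤ) : ℚ :=
  ∑ α ∈ bx m D, ((P.coeff α : ℤ) : ℚ) * ∏ i, (∑ k ∈ Finset.range K, (((k + 1 : ℕ) : ℚ) ^ (s i))⁻¹) ^ α i

lemma VV_real (s : Fin m → ℕ) (D K : ℕ) (P : MvPolynomial (Fin m) ℤ) (hD : P.totalDegree ≤ D) :
    ((VV s D K P : ℚ) : ℝ) = MvPolynomial.aeval (fun i => ztK K (s i)) P := by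
  classical
  rw [MvPolynomial.aeval_def, MvPolynomial.eval₂_eq', VV]
  push_cast
  symm
  refine Finset.sum_subset_zero_on_sdiff (fun α hα => mem_bx P D hD α hα) ?_ ?_
  · intro α hα
    have h1 : P.coeff α = 0 := by
      rw [← MvPolynomial.notMem_support_iff]
      exact (Finset.mem_sdiff.1 hα).2
    rw [h1, Int.cast_zero, zero_mul]
  · intro α _
    congr 1
    refine Finset.prod_congr rfl fun i _ => ?_
    congr 1
    unfold ztK
    refine Finset.sum_congr rfl fun k _ => ?_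
    rw [one_div]

lemma VV_germ (s : ℕ → Fin m → ℕ) (L : ℕ → ℝ) (hL : Tendsto L atTop atTop) (D K : ℕ)
    (P : ℕ → MvPolynomial (Fin m) ℤ) (c : (Fin m →₀ ℕ) → KK L hL)
    (hc : ∀ α, ((c α : KK L hL) : GG) = gm fun t => (((P t).coeff α : ℤ) : ℚ)) :
    gm (fun t => VV (s t) D K (P t)) = MvPolynomial.eval₂ (KK L hL).subtype
      (fun i => ∑ k ∈ Finset.range K, om s i (k + 1)) (poly (bx m D) c) := by
  classical
  rw [eval₂_poly]
  unfold VV
  rw [gm_sum]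
  refine Finset.sum_congr rfl fun α _ => ?_
  rw [← gm_mul, gm_prod]
  congr 1
  · exact (hc α).symm
  · refine Finset.prod_congr rfl fun i _ => ?_
    rw [← gm_pow, gm_sum]
    rfl

/-- **Algebraic relations in a cone.** -/
theorem cone (m D R : ℕ) : ∃ δ B : ℝ, 0 < δ ∧ 1 < B ∧ ∃ n0 : ℕ, ∀ n : ℕ, n0 ≤ n →
    ∀ s : Fin m → ℕ, Function.Injective s → (∀ i, n ≤ s i) → (∀ i, s i ≤ R * n) →
    ∀ P : MvPolynomial (Fin m) ℤ, P ≠ 0 → P.totalDegree ≤ D →
    (∀ α, |((P.coeff α : ℤ) : ℝ)| ≤ Real.exp (δ * n)) →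
    (B ^ n)⁻¹ < |MvPolynomial.aeval (fun i => zt (s i)) P| := by
  classical
  by_contra hcon
  push Not at hcon
  choose n hn s hinj hs1 hs2 P hP0 hPD hPc hPv using fun t : ℕ => hcon (1 / ((t : ℝ) + 1))
    ((t : ℝ) + 2) (by positivity) (by have : (0 : ℝ) ≤ t := Nat.cast_nonneg t
                                      linarith) (t + 2)
  obtain ⟨L, hLdef⟩ : ∃ L : ℕ → ℝ, L = fun t => (n t : ℝ) := ⟨_, rfl⟩
  have hLt : ∀ t, L t = n t := fun t => by rw [hLdef]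
  have hn' : ∀ t, t ≤ n t := fun t => by have := hn t; omega
  have hL : Tendsto L atTop atTop := by
    rw [hLdef]
    exact tendsto_natCast_atTop_atTop.comp (tendsto_atTop_mono hn' tendsto_id)
  obtain ⟨ρ, hρ1, hρ⟩ := exists_ratio s n (fun t => by have := hn t; omega) R hs1 hs2
  have hρ' : ∀ i, Tendsto (fun t => (s t i : ℝ) / L t) (UU : Filter ℕ) (𝓝 (ρ i)) := by
    intro i
    have := hρ i
    rw [hLdef]
    exact this
  obtain ⟨v, hv1, -, hv⟩ := exists_v ρ (fun i => lt_of_lt_of_le one_pos (hρ1 i))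
  have hsame : ∀ β β' : (Fin m × ℕ) →₀ ℕ, Ug s β / Ug s β' ∈ KK L hL → Zf v β = Zf v β' :=
    fun β β' h => same_weight s L hL ρ hρ' v hv β β' h
  have hneg : ∀ α, Negl L (fun t => (P t).coeff α) := by
    intro α ε hε
    refine ev_of_atTop ?_
    have h1 : ∀ᶠ t : ℕ in atTop, 1 / ((t : ℝ) + 1) ≤ ε := by
      have h2 := tendsto_one_div_add_atTop_nhds_zero_nat (𝕜 := ℝ)
      exact (h2.eventually (gt_mem_nhds hε)).mono fun t ht => le_of_lt ht
    filter_upwards [h1] with t ht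
    refine (hPc t α).trans ?_
    rw [Real.exp_le_exp, hLt]
    exact mul_le_mul_of_nonneg_right ht (Nat.cast_nonneg _)
  have hcm : ∀ α, (gm fun t => (((P t).coeff α : ℤ) : ℚ)) ∈ KK L hL := by
    intro α
    refine ⟨fun t => (P t).coeff α, fun _ => 1, hneg α, Negl.one hL, by simp, ?_⟩
    congr 1
    funext t
    simp
  obtain ⟨c, hc⟩ : ∃ c : (Fin m →₀ ℕ) → KK L hL,
      ∀ α, ((c α : KK L hL) : GG) = gm fun t => (((P t).coeff α : ℤ) : ℚ) :=
    ⟨fun α => ⟨_, hcm α⟩, fun α => rfl⟩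
  obtain ⟨C, hC, htr⟩ := trunc m D
  have hsR : ∀ t i, (s t i : ℝ) ≤ (R : ℝ) * L t := by
    intro t i
    rw [hLt]
    exact_mod_cast hs2 t i
  have hvan : MvPolynomial.eval₂ ((algebraMap GG (ArithmeticFunction GG)).comp
      (KK L hL).subtype) (fun i => pwf (v i) (fun k => om s i k)) (poly (bx m D) c) = 0 := by
    ext N0
    rw [ArithmeticFunction.zero_apply]
    obtain ⟨G, hG⟩ : ∃ G : ℕ, G = (max N0 1) ^ (m * R) := ⟨_, rfl⟩
    have hG1 : 1 ≤ G := by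
      rw [hG]
      exact Nat.one_le_pow _ _ (by omega)
    obtain ⟨K, hK⟩ : ∃ K : ℕ, K = 9 * G + N0 := ⟨_, rfl⟩
    refine vanish_at s L hL R hsR v hv1 hsame (bx m D) c N0 K (by omega)
      (fun t => VV (s t) D K (P t)) (VV_germ s L hL D K P c hc) ?_
    intro β hβ
    have hN0 : 0 < N0 := by rw [← hβ]; exact Zf_pos v β
    have hG' : G = N0 ^ (m * R) := by rw [hG, max_eq_left hN0]
    filter_upwards [small C hC G K hG1 (by omega) n hn'] with t ht
    have h1 : |MvPolynomial.aeval (fun i => ztK K (s t i)) (P t)| ≤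
        (((t : ℝ) + 2) ^ (n t))⁻¹ + C * Real.exp (1 / ((t : ℝ) + 1) * n t) *
        ((K : ℝ) ^ 2 / (K : ℝ) ^ (n t)) := by
      have h2 := htr K (n t) (s t) (by omega) (by have := hn t; omega) (hs1 t) (P t)
        (Real.exp (1 / ((t : ℝ) + 1) * n t)) (Real.exp_pos _).le (hPD t) (hPc t)
      have h3 := hPv t
      have h4 : MvPolynomial.aeval (fun i => ztK K (s t i)) (P t) =
        MvPolynomial.aeval (fun i => zt (s t i)) (P t) -
          (MvPolynomial.aeval (fun i => zt (s t i)) (P t) -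
            MvPolynomial.aeval (fun i => ztK K (s t i)) (P t)) := by ring
      rw [h4]
      exact (abs_sub _ _).trans (add_le_add h3 h2)
    rw [VV_real _ _ _ _ (hPD t)]
    refine (h1.trans ht).trans ?_
    rw [hLt]
    refine mul_le_mul_of_nonneg_left ?_ (Real.exp_pos _).le
    have h5 : Zf (s t) β ≤ G ^ (n t) := by
      rw [hG', ← hβ]
      exact Zf_le v hv1 β (s t) R (n t) (hs2 t)
    have h6 : (0 : ℝ) < (Zf (s t) β : ℕ) := by exact_mod_cast Zf_pos (s t) β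
    have h7 : |((((Zf (s t) β : ℕ) : ℚ)⁻¹ : ℚ) : ℝ)| = ((Zf (s t) β : ℕ) : ℝ)⁻¹ := by
      push_cast
      exact abs_of_pos (inv_pos.2 h6)
    rw [h7]
    refine inv_anti₀ h6 ?_
    exact_mod_cast h5
  rw [← MvPolynomial.eval₂_map, ← MvPolynomial.aeval_def] at hvan
  have hmap : MvPolynomial.map (KK L hL).subtype (poly (bx m D) c) = 0 := by
    by_contra hne
    refine indep v hv1 (fun i k => om s i k) ?_ _ hne hvan
    intro e a X h j hj
    exact germ_vdm s hinj (Finset.univ.filter fun j => v j = e) a X h j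
      (Finset.mem_filter.2 ⟨Finset.mem_univ _, hj⟩)
  have hz : ∀ α ∈ bx m D, ∀ᶠ t in (UU : Filter ℕ), (P t).coeff α = 0 := by
    intro α hα
    have h1 : MvPolynomial.coeff α (MvPolynomial.map (KK L hL).subtype (poly (bx m D) c)) = 0 := by
      rw [hmap, MvPolynomial.coeff_zero]
    rw [MvPolynomial.coeff_map, coeff_poly _ _ _ hα] at h1
    have h2 : gm (fun t => (((P t).coeff α : ℤ) : ℚ)) = gm fun _ => 0 := by
      rw [← hc α, gm_zero]
      exact h1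
    filter_upwards [gm_eq.1 h2] with t ht
    exact_mod_cast ht
  obtain ⟨t, ht⟩ := ((Finset.eventually_all _).2 hz).exists
  refine hP0 t ?_
  ext α
  rw [MvPolynomial.coeff_zero]
  by_contra hne
  exact hne (ht α (mem_bx (P t) D (hPD t) α (MvPolynomial.mem_support_iff.2 hne)))

end

end Pool.Agent.H298Y
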