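import Pool.Agent.H298Y.Main
import Pool.Agent.TH456.TM.Inst

/-!
# Real germs, polynomials in `π` of negligible height
-/

set_option autoImplicit false

namespace Pool.Agent.H298Y

open Filter Topology Pool.Agent.TH932.Germs

/-- germs of real sequences -/
abbrev RR := Germ (UU : Filter ℕ) ℝ

/-- the germ of a real sequence -/
noncomputable def rm (a : ℕ → ℝ) : RR := (a : Germ (UU : Filter ℕ) ℝ)

lemma rm_eq {a b : ℕ → ℝ} : rm a = rm b ↔ ∀ᶠ n in (UU : Filter ℕ), a n = b n := Germ.coe_eq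

lemma rm_add (a b : ℕ → ℝ) : rm a + rm b = rm (fun n => a n + b n) := rfl
lemma rm_sub (a b : ℕ → ℝ) : rm a - rm b = rm (fun n => a n - b n) := rfl
lemma rm_mul (a b : ℕ → ℝ) : rm a * rm b = rm (fun n => a n * b n) := rfl
lemma rm_pow (a : ℕ → ℝ) (k : ℕ) : (rm a) ^ k = rm (fun n => a n ^ k) := rfl
lemma rm_neg (a : ℕ → ℝ) : - rm a = rm (fun n => - a n) := rfl
lemma rm_zero : rm (fun _ => 0) = 0 := rfl
lemma rm_one : rm (fun _ => 1) = 1 := rfl

lemma rm_surj (g : RR) : ∃ a, rm a = g := by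
  induction g using Germ.inductionOn with
  | _ f => exact ⟨f, rfl⟩

lemma rm_ne_zero {a : ℕ → ℝ} : rm a ≠ 0 ↔ ∀ᶠ n in (UU : Filter ℕ), a n ≠ 0 := by
  rw [← rm_zero, Ne, rm_eq]
  exact Ultrafilter.eventually_not.symm

lemma rm_sum {ι : Type*} (A : Finset ι) (f : ι → ℕ → ℝ) :
    rm (fun n => ∑ i ∈ A, f i n) = ∑ i ∈ A, rm (f i) := by
  classical
  induction A using Finset.induction_on with
  | empty => simp [rm_zero]
  | insert a A ha ih =>
    rw [Finset.sum_insert ha, ← ih, rm_add]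
    congr 1
    funext n
    rw [Finset.sum_insert ha]

lemma rm_prod {ι : Type*} (A : Finset ι) (f : ι → ℕ → ℝ) :
    rm (fun n => ∏ i ∈ A, f i n) = ∏ i ∈ A, rm (f i) := by
  classical
  induction A using Finset.induction_on with
  | empty => simp [rm_one]
  | insert a A ha ih =>
    rw [Finset.prod_insert ha, ← ih, rm_mul]
    congr 1
    funext n
    rw [Finset.prod_insert ha]

variable {L : ℕ → ℝ}

lemma negl_sum (hL : Tendsto L atTop atTop) {ι : Type*} (A : Finset ι) (f : ι → ℕ → ℤ)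
    (h : ∀ i ∈ A, Negl L (f i)) : Negl L (fun t => ∑ i ∈ A, f i t) := by
  classical
  induction A using Finset.induction_on with
  | empty =>
    have : (fun t : ℕ => ∑ i ∈ (∅ : Finset ι), f i t) = fun _ => 0 := by
      funext t
      exact Finset.sum_empty
    rw [this]
    exact Negl.zero
  | insert a A ha ih =>
    have h1 : (fun t => ∑ i ∈ insert a A, f i t) = fun t => f a t + ∑ i ∈ A, f i t := by
      funext t
      rw [Finset.sum_insert ha]
    rw [h1]
    exact (h a (Finset.mem_insert_self _ _)).add hL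
      (ih fun i hi => h i (Finset.mem_insert_of_mem hi))

lemma exp_ge (hL : Tendsto L atTop atTop) (c : ℝ) {ε : ℝ} (hε : 0 < ε) :
    ∀ᶠ t in (UU : Filter ℕ), c ≤ Real.exp (ε * L t) := by
  apply ev_of_atTop
  filter_upwards [hL.eventually_ge_atTop (c / ε)] with n hn
  have : c ≤ ε * L n := by
    rw [div_le_iff₀ hε] at hn; linarith
  linarith [Real.add_one_le_exp (ε * L n)]

/-- germs of polynomials in `π` with integer coefficients of negligible size -/
noncomputable def SS (L : ℕ → ℝ) (hL : Tendsto L atTop atTop) : Subring RR where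
  carrier := {g | ∃ (d : ℕ) (q : ℕ → Polynomial ℤ), (∀ t, (q t).natDegree ≤ d) ∧
    (∀ j, Negl L (fun t => (q t).coeff j)) ∧ g = rm fun t => Polynomial.aeval Real.pi (q t)}
  mul_mem' := by
    rintro a b ⟨d, q, hd, hq, rfl⟩ ⟨d', q', hd', hq', rfl⟩
    refine ⟨d + d', fun t => q t * q' t, fun t => Polynomial.natDegree_mul_le.trans
      (Nat.add_le_add (hd t) (hd' t)), fun j => ?_, ?_⟩
    · have h1 : (fun t => (q t * q' t).coeff j) = fun t =>
          ∑ x ∈ Finset.HasAntidiagonal.antidiagonal j, (q t).coeff x.1 * (q' t).coeff x.2 := by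
        funext t
        rw [Polynomial.coeff_mul]
      rw [h1]
      exact negl_sum hL _ _ fun x _ => (hq x.1).mul (hq' x.2)
    · rw [rm_mul]
      congr 1
      funext t
      rw [map_mul]
  one_mem' := by
    refine ⟨0, fun _ => 1, fun t => by simp, fun j => ?_, ?_⟩
    · by_cases hj : j = 0
      · subst hj
        simpa using Negl.one hL
      · have h1 : (fun _ : ℕ => (1 : Polynomial ℤ).coeff j) = fun _ => 0 := by
          funext t
          rw [Polynomial.coeff_one, if_neg hj]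
        rw [h1]
        exact Negl.zero
    · rw [← rm_one]
      congr 1
      funext t
      rw [map_one]
  add_mem' := by
    rintro a b ⟨d, q, hd, hq, rfl⟩ ⟨d', q', hd', hq', rfl⟩
    refine ⟨max d d', fun t => q t + q' t, fun t => (Polynomial.natDegree_add_le _ _).trans
      (max_le_max (hd t) (hd' t)), fun j => ?_, ?_⟩
    · have h1 : (fun t => (q t + q' t).coeff j) = fun t => (q t).coeff j + (q' t).coeff j := by
        funext t
        rw [Polynomial.coeff_add]
      rw [h1]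
      exact (hq j).add hL (hq' j)
    · rw [rm_add]
      congr 1
      funext t
      rw [map_add]
  zero_mem' := by
    refine ⟨0, fun _ => 0, fun t => by simp, fun j => ?_, ?_⟩
    · simpa using Negl.zero
    · rw [← rm_zero]
      congr 1
      funext t
      rw [map_zero]
  neg_mem' := by
    rintro a ⟨d, q, hd, hq, rfl⟩
    refine ⟨d, fun t => - q t, fun t => by rw [Polynomial.natDegree_neg]; exact hd t,
      fun j => ?_, ?_⟩
    · have h1 : (fun t => (- q t).coeff j) = fun t => - (q t).coeff j := by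
        funext t
        rw [Polynomial.coeff_neg]
      rw [h1]
      exact (hq j).neg
    · rw [rm_neg]
      congr 1
      funext t
      rw [map_neg]

lemma rm_int_mem (hL : Tendsto L atTop atTop) (z : ℕ → ℤ) (hz : Negl L z) :
    rm (fun t => (z t : ℝ)) ∈ SS L hL := by
  refine ⟨0, fun t => Polynomial.C (z t), fun t => by simp, fun j => ?_, ?_⟩
  · by_cases hj : j = 0
    · subst hj
      simpa using hz
    · have h1 : (fun t : ℕ => (Polynomial.C (z t)).coeff j) = fun _ => 0 := by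
        funext t
        rw [Polynomial.coeff_C, if_neg hj]
      rw [h1]
      exact Negl.zero
  · congr 1
    funext t
    rw [Polynomial.aeval_C]
    simp

lemma coeff_bound (hL : Tendsto L atTop atTop) (d : ℕ) (q : ℕ → Polynomial ℤ)
    (hd : ∀ t, (q t).natDegree ≤ d) (hq : ∀ j, Negl L (fun t => (q t).coeff j)) {ε : ℝ}
    (hε : 0 < ε) : ∀ᶠ t in (UU : Filter ℕ), ∀ j, |((q t).coeff j : ℝ)| ≤ Real.exp (ε * L t) := by
  have h1 : ∀ᶠ t in (UU : Filter ℕ), ∀ j ∈ Finset.range (d + 1),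
      |((q t).coeff j : ℝ)| ≤ Real.exp (ε * L t) := by
    rw [Finset.eventually_all]
    intro j _
    exact hq j ε hε
  filter_upwards [h1] with t ht j
  by_cases hj : j < d + 1
  · exact ht j (Finset.mem_range.2 hj)
  · rw [Polynomial.coeff_eq_zero_of_natDegree_lt (by have := hd t; omega), Int.cast_zero, abs_zero]
    exact (Real.exp_pos _).le

lemma SS_upper (hL : Tendsto L atTop atTop) (a : ℕ → ℝ) (ha : rm a ∈ SS L hL) {ε : ℝ}
    (hε : 0 < ε) : ∀ᶠ t in (UU : Filter ℕ), |a t| ≤ Real.exp (ε * L t) := by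
  obtain ⟨d, q, hd, hq, he⟩ := ha
  rw [rm_eq] at he
  filter_upwards [he, coeff_bound hL d q hd hq (half_pos hε),
    exp_ge hL (((d + 1 : ℕ) : ℝ) * 4 ^ d) (half_pos hε)] with t h1 h2 h3
  rw [h1, Polynomial.aeval_eq_sum_range' (Nat.lt_succ_of_le (hd t))]
  refine (Finset.abs_sum_le_sum_abs _ _).trans ?_
  have h4 : ∀ j ∈ Finset.range (d + 1), |(q t).coeff j • Real.pi ^ j| ≤
      Real.exp (ε / 2 * L t) * 4 ^ d := by
    intro j hj
    rw [zsmul_eq_mul, abs_mul, abs_of_nonneg (pow_nonneg Real.pi_pos.le j)]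
    refine mul_le_mul (h2 j) ?_ (pow_nonneg Real.pi_pos.le j) (Real.exp_pos _).le
    exact (pow_le_pow_left₀ Real.pi_pos.le Real.pi_le_four j).trans
      (pow_le_pow_right₀ (by norm_num) (by have := Finset.mem_range.1 hj; omega))
  have h5 := Finset.sum_le_card_nsmul _ _ _ h4
  rw [Finset.card_range, nsmul_eq_mul] at h5
  refine h5.trans ?_
  calc ((d + 1 : ℕ) : ℝ) * (Real.exp (ε / 2 * L t) * 4 ^ d)
      = Real.exp (ε / 2 * L t) * (((d + 1 : ℕ) : ℝ) * 4 ^ d) := by ring
    _ ≤ Real.exp (ε / 2 * L t) * Real.exp (ε / 2 * L t) :=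
        mul_le_mul_of_nonneg_left h3 (Real.exp_pos _).le
    _ = Real.exp (ε * L t) := by rw [← Real.exp_add]; ring_nf

lemma pi_lower (d : ℕ) : ∃ κ c : ℝ, 0 ≤ κ ∧ 0 < c ∧ ∀ P : Polynomial ℤ, P ≠ 0 →
    P.natDegree ≤ d → ∀ H : ℝ, 1 ≤ H → (∀ j, |(P.coeff j : ℝ)| ≤ H) →
    c ≤ H ^ κ * |Polynomial.aeval Real.pi P| := by
  obtain ⟨κ, c, hκ, hc, h⟩ := Pool.Agent.TH456.TM.measT_pi d
  refine ⟨κ, c, hκ, hc, fun P hP hPd H hH hPH => ?_⟩
  have h1 := h P hP hPd H hH hPH
  have h2 : Polynomial.aeval (Real.pi : ℂ) P = ((Polynomial.aeval Real.pi P : ℝ) : ℂ) :=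
    Polynomial.aeval_algebraMap_apply ℂ Real.pi P
  rw [h2, Complex.norm_real, Real.norm_eq_abs] at h1
  exact h1

lemma SS_lower (hL : Tendsto L atTop atTop) (a : ℕ → ℝ) (ha : rm a ∈ SS L hL) (ha0 : rm a ≠ 0)
    {ε : ℝ} (hε : 0 < ε) : ∀ᶠ t in (UU : Filter ℕ), Real.exp (-(ε * L t)) ≤ |a t| := by
  obtain ⟨d, q, hd, hq, he⟩ := ha
  rw [rm_eq] at he
  obtain ⟨κ, c, hκ, hc, h⟩ := pi_lower d
  have hε' : 0 < ε / (2 * (κ + 1)) := by positivity
  filter_upwards [he, coeff_bound hL d q hd hq hε', exp_ge hL c⁻¹ (half_pos hε), L_nonneg hL,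
    rm_ne_zero.1 ha0] with t h1 h2 h3 h4 h5
  have hq0 : q t ≠ 0 := by
    intro h0
    rw [h1, h0, map_zero] at h5
    exact h5 rfl
  have h6 := h (q t) hq0 (hd t) (Real.exp (ε / (2 * (κ + 1)) * L t))
    (Real.one_le_exp (mul_nonneg hε'.le h4)) h2
  rw [← h1, ← Real.exp_mul] at h6
  have h7 : Real.exp (ε / (2 * (κ + 1)) * L t * κ) ≤ Real.exp (ε / 2 * L t) := by
    rw [Real.exp_le_exp]
    have h8 : ε / (2 * (κ + 1)) * κ ≤ ε / 2 := by
      rw [div_mul_eq_mul_div, div_le_div_iff₀ (by positivity) (by norm_num)]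
      nlinarith
    calc ε / (2 * (κ + 1)) * L t * κ = ε / (2 * (κ + 1)) * κ * L t := by ring
      _ ≤ ε / 2 * L t := mul_le_mul_of_nonneg_right h8 h4
  have h9 : c ≤ Real.exp (ε / 2 * L t) * |a t| :=
    h6.trans (mul_le_mul_of_nonneg_right h7 (abs_nonneg _))
  have h10 : Real.exp (-(ε / 2 * L t)) ≤ c := by
    rw [Real.exp_neg]
    exact inv_le_of_inv_le₀ hc h3
  have h11 : Real.exp (-(ε * L t)) = Real.exp (-(ε / 2 * L t)) * (Real.exp (ε / 2 * L t))⁻¹ := by
    rw [← Real.exp_neg, ← Real.exp_add]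
    ring_nf
  rw [h11, ← div_eq_mul_inv, div_le_iff₀ (Real.exp_pos _)]
  linarith

end Pool.Agent.H298Y
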