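import Pool.Agent.H298Y.RVan
import Pool.Agent.H298Y.Tail

/-!
# `π` and zeta values with arguments near a rational direction
-/

set_option autoImplicit false

namespace Pool.Agent.H298Y

open Filter Topology Pool.Agent.TH932.Germs

section

variable {m : ℕ}

/-- independence of the real germs `p ^ (-s_j)` over many primes -/
lemma rgerm_vdm (s : ℕ → Fin m → ℕ) (hs : ∀ t, Function.Injective (s t)) (J : Finset (Fin m))
    (a : Fin m → RR) (X : ℕ)
    (h : ∀ p : ℕ, p.Prime → X < p → ∑ j ∈ J, a j * omr s j p = 0) : ∀ j ∈ J, a j = 0 := by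
  classical
  choose α hα using fun j => rm_surj (a j)
  have hinf : ({p : ℕ | p.Prime ∧ X < p}).Infinite := by
    refine Set.infinite_of_not_bddAbove ?_
    rintro ⟨B, hB⟩
    obtain ⟨p, hp1, hp2⟩ := Nat.exists_infinite_primes (max B X + 1)
    have h1 := hB (a := p) ⟨hp2, by omega⟩
    omega
  obtain ⟨T, hT, hTc⟩ := hinf.exists_subset_card_eq J.card
  have h1 : ∀ᶠ t in (UU : Filter ℕ), ∀ p ∈ T, ∑ j ∈ J, α j t * ((p : ℝ) ^ (s t j))⁻¹ = 0 := by
    rw [Finset.eventually_all]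
    intro p hp
    have h2 := h p (hT hp).1 (hT hp).2
    have h3 : rm (fun t => ∑ j ∈ J, α j t * ((p : ℝ) ^ (s t j))⁻¹) = rm fun _ => 0 := by
      rw [rm_sum, rm_zero, ← h2]
      refine Finset.sum_congr rfl fun j _ => ?_
      rw [← hα j]
      rfl
    exact rm_eq.1 h3
  intro j hj
  rw [← hα j, ← rm_zero, rm_eq]
  filter_upwards [h1] with t ht
  exact gv J (s t) ((hs t).injOn) (fun j => α j t) (T.image fun p : ℕ => ((p : ℝ))⁻¹)
    (by
      intro x hx
      obtain ⟨p, hp, rfl⟩ := Finset.mem_image.1 hx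
      have := (hT hp).1.pos
      positivity) (by
      rw [Finset.card_image_of_injective _ (fun p q hpq => by
        have : (p : ℝ) = q := inv_injective hpq
        exact_mod_cast this), hTc]) (by
      intro x hx
      obtain ⟨p, hp, rfl⟩ := Finset.mem_image.1 hx
      rw [← ht p hp]
      refine Finset.sum_congr rfl fun j _ => ?_
      rw [inv_pow]) j hj

/-- truncation, real coefficients -/
theorem truncR (m D : ℕ) : ∃ C : ℝ, 0 < C ∧ ∀ (K w : ℕ) (s : Fin m → ℕ), 1 ≤ K → 2 ≤ w →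
    (∀ i, w ≤ s i) → ∀ (a : (Fin m →₀ ℕ) → ℝ) (H : ℝ), 0 ≤ H → (∀ α, |a α| ≤ H) →
    |∑ α ∈ bx m D, a α * ∏ i, zt (s i) ^ α i - ∑ α ∈ bx m D, a α * ∏ i, ztK K (s i) ^ α i| ≤
      C * H * ((K : ℝ) ^ 2 / (K : ℝ) ^ w) := by
  classical
  have hz := t5_one_le
  refine ⟨(bx m D).card * ((m * D : ℕ) * zt 2 ^ (m * D) * zt 2) + 1, by positivity, ?_⟩
  intro K w s hK hw hws a H hH ha
  have hKr : (1 : ℝ) ≤ K := by exact_mod_cast hK
  obtain ⟨η, hη⟩ : ∃ η : ℝ, η = zt 2 * ((K : ℝ) ^ 2 / (K : ℝ) ^ w) := ⟨_, rfl⟩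
  have hη0 : 0 ≤ η := by rw [hη]; positivity
  have hs2 : ∀ i, 2 ≤ s i := fun i => hw.trans (hws i)
  have hx0 : ∀ i, 0 ≤ zt (s i) := by
    intro i
    have h4 := (zt_sub _ (hs2 i)).1
    have h5 : 0 ≤ ((2 : ℝ) ^ (s i))⁻¹ := by positivity
    linarith
  have htail : ∀ i, 0 ≤ zt (s i) - ztK K (s i) ∧ zt (s i) - ztK K (s i) ≤ η := by
    intro i
    obtain ⟨h1, h2⟩ := t5_tail K (s i) hK (hs2 i)
    refine ⟨h1, h2.trans ?_⟩
    rw [hη]
    have h3 : (K : ℝ) ^ w ≤ (K : ℝ) ^ (s i) := pow_le_pow_right₀ hKr (hws i)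
    gcongr
  have hmono : ∀ α ∈ bx m D, |a α * ∏ i, zt (s i) ^ α i - a α * ∏ i, ztK K (s i) ^ α i| ≤
      H * ((m * D : ℕ) * zt 2 ^ (m * D) * η) := by
    intro α hα
    rw [← mul_sub, abs_mul]
    refine mul_le_mul (ha α) ?_ (abs_nonneg _) hH
    have h1 := (t5_monomial (fun i => zt (s i)) (fun i => ztK K (s i)) (zt 2) η hz hη0 hx0
      (fun i => t5_zt_le _ (hs2 i)) (fun i => t5_ztK_nonneg K (s i))
      (fun i => by linarith [(htail i).1, t5_zt_le _ (hs2 i)])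
      (fun i => by rw [abs_of_nonneg (htail i).1]; exact (htail i).2) α).2.2
    refine h1.trans ?_
    have h2 : ∑ i, α i ≤ m * D := by
      have h3 : ∀ i ∈ (Finset.univ : Finset (Fin m)), α i ≤ D := fun i _ => by
        have := (Finset.mem_Iic.1 hα) i
        simpa using this
      have h4 := Finset.sum_le_card_nsmul _ _ _ h3
      rwa [Finset.card_univ, Fintype.card_fin, smul_eq_mul] at h4
    have h5 : ((∑ i, α i : ℕ) : ℝ) ≤ ((m * D : ℕ) : ℝ) := by exact_mod_cast h2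
    have h6 : zt 2 ^ (∑ i, α i) ≤ zt 2 ^ (m * D) := pow_le_pow_right₀ hz h2
    have h7 : (0 : ℝ) ≤ zt 2 ^ (∑ i, α i) := by positivity
    exact mul_le_mul_of_nonneg_right (mul_le_mul h5 h6 h7 (Nat.cast_nonneg _)) hη0
  rw [← Finset.sum_sub_distrib]
  refine (Finset.abs_sum_le_sum_abs _ _).trans ((Finset.sum_le_card_nsmul _ _ _ hmono).trans ?_)
  rw [nsmul_eq_mul, hη]
  have h8 : 0 ≤ H * ((K : ℝ) ^ 2 / (K : ℝ) ^ w) := by positivity
  calc ((bx m D).card : ℝ) * (H * ((m * D : ℕ) * zt 2 ^ (m * D) *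
        (zt 2 * ((K : ℝ) ^ 2 / (K : ℝ) ^ w))))
      = ((bx m D).card * ((m * D : ℕ) * zt 2 ^ (m * D) * zt 2)) *
        (H * ((K : ℝ) ^ 2 / (K : ℝ) ^ w)) := by ring
    _ ≤ ((bx m D).card * ((m * D : ℕ) * zt 2 ^ (m * D) * zt 2) + 1) *
        (H * ((K : ℝ) ^ 2 / (K : ℝ) ^ w)) := mul_le_mul_of_nonneg_right (by linarith) h8
    _ = _ := by ring

lemma abs_pi_le (D : ℕ) (q : Polynomial ℤ) (hq : q.natDegree ≤ D) (H : ℝ)
    (hH : ∀ j, |((q.coeff j : ℤ) : ℝ)| ≤ H) :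
    |Polynomial.aeval Real.pi q| ≤ ((D + 1 : ℕ) : ℝ) * 4 ^ D * H := by
  have hH0 : 0 ≤ H := (abs_nonneg _).trans (hH 0)
  rw [Polynomial.aeval_eq_sum_range' (Nat.lt_succ_of_le hq)]
  refine (Finset.abs_sum_le_sum_abs _ _).trans ?_
  have h4 : ∀ j ∈ Finset.range (D + 1), |q.coeff j • Real.pi ^ j| ≤ H * 4 ^ D := by
    intro j hj
    rw [zsmul_eq_mul, abs_mul, abs_of_nonneg (pow_nonneg Real.pi_pos.le j)]
    refine mul_le_mul (hH j) ?_ (pow_nonneg Real.pi_pos.le j) hH0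
    exact (pow_le_pow_left₀ Real.pi_pos.le Real.pi_le_four j).trans
      (pow_le_pow_right₀ (by norm_num) (by have := Finset.mem_range.1 hj; omega))
  have h5 := Finset.sum_le_card_nsmul _ _ _ h4
  rw [Finset.card_range, nsmul_eq_mul] at h5
  refine h5.trans (le_of_eq (by ring))

/-- the numerical estimate -/
lemma small' (C : ℝ) (hC : 0 < C) (N : ℕ) (hN : 1 ≤ N) (n e : ℕ → ℕ) (hn : ∀ t, t ≤ n t)
    (he : ∀ ε : ℝ, 0 < ε → ∀ᶠ t in (UU : Filter ℕ), (e t : ℝ) ≤ ε * n t) :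
    ∀ᶠ t : ℕ in (UU : Filter ℕ),
      (((t : ℝ) + 2) ^ (n t))⁻¹ + C * Real.exp (1 / ((t : ℝ) + 1) * n t) *
        (((18 * N : ℕ) : ℝ) ^ 2 / ((18 * N : ℕ) : ℝ) ^ (n t - e t)) ≤
        Real.exp (-(1 * (n t : ℝ))) * (((N : ℝ) ^ (n t))⁻¹) := by
  have hNr : (1 : ℝ) ≤ N := by exact_mod_cast hN
  have hl : 0 < Real.log (18 * N) := Real.log_pos (by linarith)
  have hl2 : 0 < Real.log 2 := Real.log_pos (by norm_num)
  filter_upwards [small (4 * C) (by positivity) N (9 * N) hN le_rfl n hn,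
    he (Real.log 2 / Real.log (18 * N)) (by positivity), he 1 one_pos] with t h1 h2 h3
  have hen : e t ≤ n t := by
    rw [one_mul] at h3
    exact_mod_cast h3
  refine le_trans (add_le_add_right ?_ _) h1
  have h4 : ((18 * N : ℕ) : ℝ) ^ (e t) ≤ 2 ^ (n t) := by
    have e1 : ((18 * N : ℕ) : ℝ) ^ (e t) = Real.exp ((e t : ℝ) * Real.log (18 * N)) := by
      rw [Real.exp_nat_mul, Real.exp_log (by linarith)]
      push_cast
      rfl
    have e2 : (2 : ℝ) ^ (n t) = Real.exp ((n t : ℝ) * Real.log 2) := by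
      rw [Real.exp_nat_mul, Real.exp_log (by norm_num)]
    rw [e1, e2, Real.exp_le_exp]
    rw [div_mul_eq_mul_div, le_div_iff₀ hl] at h2
    linarith
  have h5 : ((18 * N : ℕ) : ℝ) ^ (n t - e t) * 2 ^ (n t) ≥ ((18 * N : ℕ) : ℝ) ^ (n t) := by
    calc ((18 * N : ℕ) : ℝ) ^ (n t) = ((18 * N : ℕ) : ℝ) ^ (n t - e t) *
          ((18 * N : ℕ) : ℝ) ^ (e t) := by rw [← pow_add, Nat.sub_add_cancel hen]
      _ ≤ ((18 * N : ℕ) : ℝ) ^ (n t - e t) * 2 ^ (n t) :=
          mul_le_mul_of_nonneg_left h4 (by positivity)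
  have h6 : ((18 * N : ℕ) : ℝ) ^ (n t) = ((9 * N : ℕ) : ℝ) ^ (n t) * 2 ^ (n t) := by
    rw [← mul_pow]
    push_cast
    ring_nf
  rw [h6] at h5
  have h7 : ((9 * N : ℕ) : ℝ) ^ (n t) ≤ ((18 * N : ℕ) : ℝ) ^ (n t - e t) :=
    le_of_mul_le_mul_right h5 (by positivity)
  have h8 : (0 : ℝ) < ((9 * N : ℕ) : ℝ) ^ (n t) := by
    have : (0 : ℝ) < ((9 * N : ℕ) : ℝ) := by push_cast; linarith
    positivity
  have h9 : ((18 * N : ℕ) : ℝ) ^ 2 / ((18 * N : ℕ) : ℝ) ^ (n t - e t) ≤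
      4 * (((9 * N : ℕ) : ℝ) ^ 2 / ((9 * N : ℕ) : ℝ) ^ (n t)) := by
    have h10 : ((18 * N : ℕ) : ℝ) ^ 2 = 4 * ((9 * N : ℕ) : ℝ) ^ 2 := by
      push_cast
      ring
    rw [h10, mul_div_assoc]
    exact mul_le_mul_of_nonneg_left (div_le_div_of_nonneg_left (by positivity) h8 h7)
      (by norm_num)
  calc C * Real.exp (1 / ((t : ℝ) + 1) * n t) *
        (((18 * N : ℕ) : ℝ) ^ 2 / ((18 * N : ℕ) : ℝ) ^ (n t - e t))
      ≤ C * Real.exp (1 / ((t : ℝ) + 1) * n t) *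
        (4 * (((9 * N : ℕ) : ℝ) ^ 2 / ((9 * N : ℕ) : ℝ) ^ (n t))) :=
        mul_le_mul_of_nonneg_left h9 (by positivity)
    _ = 4 * C * Real.exp (1 / ((t : ℝ) + 1) * n t) *
        (((9 * N : ℕ) : ℝ) ^ 2 / ((9 * N : ℕ) : ℝ) ^ (n t)) := by ring

/-- **`π` and zeta values with arguments near a rational direction** -/
theorem dirs (m D : ℕ) (v : Fin m → ℕ) (hv : ∀ i, 1 ≤ v i) : ∃ δ B : ℝ, 0 < δ ∧ 1 < B ∧
    ∃ n0 : ℕ, ∀ n : ℕ, n0 ≤ n → ∀ s : Fin m → ℕ, Function.Injective s →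
    (∀ i, |(s i : ℝ) - v i * n| ≤ δ * n) →
    ∀ P : MvPolynomial (Fin m) (Polynomial ℤ), P ≠ 0 → P.totalDegree ≤ D →
    (∀ α, (P.coeff α).natDegree ≤ D) →
    (∀ α j, |(((P.coeff α).coeff j : ℤ) : ℝ)| ≤ Real.exp (δ * n)) →
    (B ^ n)⁻¹ < |MvPolynomial.eval₂ (Polynomial.aeval Real.pi : Polynomial ℤ →ₐ[ℤ] ℝ).toRingHom
      (fun i => zt (s i)) P| := by
  classical
  by_contra hcon
  push Not at hcon
  choose n hn s hinj hsd P hP0 hPD hPn hPc hPv using fun t : ℕ => hcon (1 / ((t : ℝ) + 1))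
    ((t : ℝ) + 2) (by positivity) (by have : (0 : ℝ) ≤ t := Nat.cast_nonneg t
                                      linarith) (t + 4)
  obtain ⟨L, hLdef⟩ : ∃ L : ℕ → ℝ, L = fun t => (n t : ℝ) := ⟨_, rfl⟩
  have hLt : ∀ t, L t = n t := fun t => by rw [hLdef]
  have hn' : ∀ t, t ≤ n t := fun t => by have := hn t; omega
  have hL : Tendsto L atTop atTop := by
    rw [hLdef]
    exact tendsto_natCast_atTop_atTop.comp (tendsto_atTop_mono hn' tendsto_id)
  obtain ⟨e, he⟩ : ∃ e : ℕ → ℕ, e = fun t : ℕ => ⌈1 / ((t : ℝ) + 1) * n t⌉₊ := ⟨_, rfl⟩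
  have he1 : ∀ t : ℕ, 1 / ((t : ℝ) + 1) * n t ≤ e t := fun t => by rw [he]; exact Nat.le_ceil _
  have he2 : ∀ t : ℕ, (e t : ℝ) ≤ 2 / ((t : ℝ) + 1) * n t := by
    intro t
    have h1 : (e t : ℝ) < 1 / ((t : ℝ) + 1) * n t + 1 := by
      rw [he]
      exact Nat.ceil_lt_add_one (by positivity)
    have h2 : (1 : ℝ) ≤ 1 / ((t : ℝ) + 1) * n t := by
      rw [div_mul_eq_mul_div, le_div_iff₀ (by positivity)]
      have h3 : t + 4 ≤ n t := hn t
      have h4 : ((t + 4 : ℕ) : ℝ) ≤ n t := by exact_mod_cast h3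
      push_cast at h4
      linarith
    have h3 : 2 / ((t : ℝ) + 1) * n t = 1 / ((t : ℝ) + 1) * n t + 1 / ((t : ℝ) + 1) * n t := by
      ring
    linarith
  have hee : ∀ ε : ℝ, 0 < ε → ∀ᶠ t in (UU : Filter ℕ), (e t : ℝ) ≤ ε * n t := by
    intro ε hε
    refine ev_of_atTop ?_
    have h2 := tendsto_one_div_add_atTop_nhds_zero_nat (𝕜 := ℝ)
    have h3 := (h2.eventually (gt_mem_nhds (half_pos hε)))
    filter_upwards [h3] with t ht
    refine (he2 t).trans (mul_le_mul_of_nonneg_right ?_ (Nat.cast_nonneg _))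
    have h4 : 2 / ((t : ℝ) + 1) = 2 * (1 / ((t : ℝ) + 1)) := by ring
    rw [h4]
    linarith
  have hs1 : ∀ t i, s t i ≤ v i * n t + e t := by
    intro t i
    have h1 := (abs_le.1 (hsd t i)).2
    have h2 := he1 t
    have h3 : (s t i : ℝ) ≤ v i * n t + e t := by linarith
    exact_mod_cast h3
  have hs2 : ∀ t i, v i * n t ≤ s t i + e t := by
    intro t i
    have h1 := (abs_le.1 (hsd t i)).1
    have h2 := he1 t
    have h3 : (v i * n t : ℝ) ≤ s t i + e t := by linarith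
    exact_mod_cast h3
  -- the coefficients
  have hnegl : ∀ α j, Negl L (fun t => ((P t).coeff α).coeff j) := by
    intro α j ε hε
    refine ev_of_atTop ?_
    have h1 : ∀ᶠ t : ℕ in atTop, 1 / ((t : ℝ) + 1) ≤ ε := by
      have h2 := tendsto_one_div_add_atTop_nhds_zero_nat (𝕜 := ℝ)
      exact (h2.eventually (gt_mem_nhds hε)).mono fun t ht => le_of_lt ht
    filter_upwards [h1] with t ht
    refine (hPc t α j).trans ?_
    rw [Real.exp_le_exp, hLt]
    exact mul_le_mul_of_nonneg_right ht (Nat.cast_nonneg _)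
  have hcm : ∀ α, (rm fun t => Polynomial.aeval Real.pi ((P t).coeff α)) ∈ SS L hL := fun α =>
    ⟨D, fun t => (P t).coeff α, fun t => hPn t α, hnegl α, rfl⟩
  obtain ⟨c, hc⟩ : ∃ c : (Fin m →₀ ℕ) → SS L hL, ∀ α, ((c α : SS L hL) : RR) =
      rm fun t => Polynomial.aeval Real.pi ((P t).coeff α) := ⟨fun α => ⟨_, hcm α⟩, fun α => rfl⟩
  obtain ⟨VK, hVKdef⟩ : ∃ VK : ℕ → ℕ → ℝ, VK = fun K t => ∑ α ∈ bx m D,
      Polynomial.aeval Real.pi ((P t).coeff α) * ∏ i, ztK K (s t i) ^ α i := ⟨_, rfl⟩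
  have hVK : ∀ K, rm (VK K) = MvPolynomial.eval₂ (SS L hL).subtype
      (fun i => ∑ k ∈ Finset.range K, omr s i (k + 1)) (poly (bx m D) c) := by
    intro K
    rw [eval₂_poly, hVKdef]
    simp only
    rw [rm_sum]
    refine Finset.sum_congr rfl fun α _ => ?_
    rw [← rm_mul, rm_prod]
    congr 1
    · exact (hc α).symm
    · refine Finset.prod_congr rfl fun i _ => ?_
      rw [← rm_pow]
      congr 1
      have h1 : (fun t => ztK K (s t i)) = fun t => ∑ k ∈ Finset.range K,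
          (((k + 1 : ℕ) : ℝ) ^ (s t i))⁻¹ := by
        funext t
        unfold ztK
        refine Finset.sum_congr rfl fun k _ => ?_
        rw [one_div]
        push_cast
        rfl
      rw [h1, rm_sum]
      rfl
  obtain ⟨C, hC, htr⟩ := truncR m D
  have hsm : ∀ N : ℕ, 1 ≤ N → ∀ᶠ t in (UU : Filter ℕ),
      |VK (18 * N) t| ≤ Real.exp (-(1 * L t)) * ((N : ℝ) ^ (n t))⁻¹ := by
    intro N hN
    filter_upwards [small' (C * (((D + 1 : ℕ) : ℝ) * 4 ^ D)) (by positivity) N hN n e hn' hee,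
      hee (1 / 2) (by norm_num)] with t ht hte
    rw [hLt]
    refine le_trans ?_ ht
    have hw : 2 ≤ n t - e t := by
      have h1 : (2 * e t : ℝ) ≤ n t := by linarith
      have h2 : 2 * e t ≤ n t := by exact_mod_cast h1
      have h3 := hn t
      omega
    have h2 := htr (18 * N) (n t - e t) (s t) (by omega) hw (fun i => by
      have h3 := hs2 t i
      have h4 := Nat.le_mul_of_pos_left (n t) (hv i)
      omega) (fun α => Polynomial.aeval Real.pi ((P t).coeff α))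
      (((D + 1 : ℕ) : ℝ) * 4 ^ D * Real.exp (1 / ((t : ℝ) + 1) * n t)) (by positivity)
      (fun α => abs_pi_le D _ (hPn t α) _ (hPc t α))
    have h3 := hPv t
    have h4 : MvPolynomial.eval₂ (Polynomial.aeval Real.pi : Polynomial ℤ →ₐ[ℤ] ℝ).toRingHom
        (fun i => zt (s t i)) (P t) = ∑ α ∈ bx m D,
        Polynomial.aeval Real.pi ((P t).coeff α) * ∏ i, zt (s t i) ^ α i := by
      rw [MvPolynomial.eval₂_eq']
      refine Finset.sum_subset (fun α hα => ?_) ?_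
      · unfold bx
        rw [Finset.mem_Iic]
        intro i
        have h1 := MvPolynomial.le_totalDegree hα
        rw [Finsupp.sum_fintype _ _ (fun _ => rfl)] at h1
        have h2 : α i ≤ ∑ j, α j := Finset.single_le_sum (f := fun j => α j)
          (fun _ _ => Nat.zero_le _) (Finset.mem_univ i)
        exact h2.trans (h1.trans (hPD t))
      · intro α _ hα
        rw [MvPolynomial.notMem_support_iff.1 hα, map_zero, zero_mul]
    rw [h4] at h3
    have h5 : VK (18 * N) t = ∑ α ∈ bx m D,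
        Polynomial.aeval Real.pi ((P t).coeff α) * ∏ i, ztK (18 * N) (s t i) ^ α i := by
      rw [hVKdef]
    rw [h5]
    obtain ⟨X, hX⟩ : ∃ X : ℝ, X = ∑ α ∈ bx m D,
        Polynomial.aeval Real.pi ((P t).coeff α) * ∏ i, zt (s t i) ^ α i := ⟨_, rfl⟩
    obtain ⟨Y, hY⟩ : ∃ Y : ℝ, Y = ∑ α ∈ bx m D,
        Polynomial.aeval Real.pi ((P t).coeff α) * ∏ i, ztK (18 * N) (s t i) ^ α i := ⟨_, rfl⟩
    rw [← hX] at h3 h2
    rw [← hY] at h2 ⊢
    have h6 : |Y| ≤ |X| + |X - Y| := by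
      have h7 : Y = X - (X - Y) := by ring
      calc |Y| = |X - (X - Y)| := by rw [← h7]
        _ ≤ |X| + |X - Y| := abs_sub _ _
    refine h6.trans (add_le_add h3 (h2.trans (le_of_eq ?_)))
    ring
  have hvan : MvPolynomial.eval₂ ((algebraMap RR (ArithmeticFunction RR)).comp
      (SS L hL).subtype) (fun i => pwf (v i) (fun k => omr s i k)) (poly (bx m D) c) = 0 := by
    ext N
    rw [ArithmeticFunction.zero_apply]
    exact vanish_pi s n e L hLt hL v hv hs1 hs2 (fun ε hε => by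
      filter_upwards [hee ε hε] with t ht
      rw [hLt]
      exact ht) (bx m D) c VK hVK hsm N
  rw [← MvPolynomial.eval₂_map, ← MvPolynomial.aeval_def] at hvan
  have hmap : MvPolynomial.map (SS L hL).subtype (poly (bx m D) c) = 0 := by
    by_contra hne
    refine indep v hv (fun i k => omr s i k) ?_ _ hne hvan
    intro e' a X h j hj
    exact rgerm_vdm s hinj (Finset.univ.filter fun j => v j = e') a X h j
      (Finset.mem_filter.2 ⟨Finset.mem_univ _, hj⟩)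
  obtain ⟨κ, c', _, hc', hlow⟩ := pi_lower D
  have hz : ∀ α ∈ bx m D, ∀ᶠ t in (UU : Filter ℕ), (P t).coeff α = 0 := by
    intro α hα
    have h1 : MvPolynomial.coeff α (MvPolynomial.map (SS L hL).subtype (poly (bx m D) c)) = 0 := by
      rw [hmap, MvPolynomial.coeff_zero]
    rw [MvPolynomial.coeff_map, coeff_poly _ _ _ hα] at h1
    have h2 : rm (fun t => Polynomial.aeval Real.pi ((P t).coeff α)) = rm fun _ => 0 := by
      rw [← hc α, rm_zero]
      exact h1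
    filter_upwards [rm_eq.1 h2] with t ht
    by_contra hne
    have h3 := hlow ((P t).coeff α) hne (hPn t α) (Real.exp (1 / ((t : ℝ) + 1) * n t))
      (Real.one_le_exp (by positivity)) (hPc t α)
    rw [ht, abs_zero, mul_zero] at h3
    linarith
  obtain ⟨t, ht⟩ := ((Finset.eventually_all _).2 hz).exists
  refine hP0 t ?_
  ext1 α
  rw [MvPolynomial.coeff_zero]
  by_contra hne
  refine hne (ht α ?_)
  have hα := MvPolynomial.mem_support_iff.2 hne
  unfold bx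
  rw [Finset.mem_Iic]
  intro i
  have h1 := MvPolynomial.le_totalDegree hα
  rw [Finsupp.sum_fintype _ _ (fun _ => rfl)] at h1
  have h2 : α i ≤ ∑ j, α j := Finset.single_le_sum (f := fun j => α j)
    (fun _ _ => Nat.zero_le _) (Finset.mem_univ i)
  exact h2.trans (h1.trans (hPD t))

end

end Pool.Agent.H298Y
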