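import Pool.Agent.H298Y.RGerm

/-!
# Vanishing of the Dirichlet coefficients, with `π`, near a rational direction
-/

set_option autoImplicit false

namespace Pool.Agent.H298Y

open Filter Topology Pool.Agent.TH932.Germs

section

variable {m : ℕ}

/-- the real germ of `k ^ (-s_i)` -/
noncomputable def omr (s : ℕ → Fin m → ℕ) (i : Fin m) (k : ℕ) : RR :=
  rm fun t => ((k : ℝ) ^ (s t i))⁻¹

/-- the real unit of a monomial -/
noncomputable def Ur (s : ℕ → Fin m → ℕ) (β : (Fin m × ℕ) →₀ ℕ) : RR :=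
  rm fun t => ((Zf (s t) β : ℕ) : ℝ)⁻¹

lemma Ur_eq (s : ℕ → Fin m → ℕ) (β : (Fin m × ℕ) →₀ ℕ) :
    ∏ x ∈ β.support, (omr s x.1 (x.2 + 1)) ^ (β x) = Ur s β := by
  unfold omr Ur Zf
  simp only [rm_pow]
  rw [← rm_prod]
  congr 1
  funext t
  push_cast
  rw [← Finset.prod_inv_distrib]
  refine Finset.prod_congr rfl fun x _ => ?_
  rw [inv_pow]

/-- the cofactor of `Zf s β` in `N ^ (n + e)` -/
def Wf (v : Fin m → ℕ) (u : ℕ) (s : Fin m → ℕ) (β : (Fin m × ℕ) →₀ ℕ) : ℕ :=
  ∏ i, (Af β i) ^ (v i * u - s i)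

lemma Wf_mul (v : Fin m → ℕ) (u : ℕ) (s : Fin m → ℕ) (β : (Fin m × ℕ) →₀ ℕ)
    (h : ∀ i, s i ≤ v i * u) : Wf v u s β * Zf s β = (Zf v β) ^ u := by
  unfold Wf
  rw [Zf_eq s, Zf_eq v, ← Finset.prod_mul_distrib, ← Finset.prod_pow]
  refine Finset.prod_congr rfl fun i _ => ?_
  rw [← pow_add, ← pow_mul]
  congr 1
  have := h i
  omega

lemma Wf_le (v : Fin m → ℕ) (u w : ℕ) (s : Fin m → ℕ) (β : (Fin m × ℕ) →₀ ℕ)
    (h : ∀ i, v i * u - s i ≤ v i * w) : Wf v u s β ≤ (Zf v β) ^ w := by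
  unfold Wf
  rw [Zf_eq v, ← Finset.prod_pow]
  refine Finset.prod_le_prod' fun i _ => ?_
  rw [← pow_mul]
  exact Nat.pow_le_pow_right (Af_pos β i) (h i)

lemma Zf_ge (v : Fin m → ℕ) (hv : ∀ i, 1 ≤ v i) (n e : ℕ) (s : Fin m → ℕ)
    (β : (Fin m × ℕ) →₀ ℕ) (h : ∀ i, v i * n ≤ s i + e) :
    (Zf v β) ^ n ≤ Zf s β * (Zf v β) ^ e := by
  rw [Zf_eq s, Zf_eq v, ← Finset.prod_pow, ← Finset.prod_pow, ← Finset.prod_mul_distrib]
  refine Finset.prod_le_prod' fun i _ => ?_
  rw [← pow_mul, ← pow_mul, ← pow_add]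
  refine Nat.pow_le_pow_right (Af_pos β i) ((h i).trans ?_)
  have := hv i
  exact Nat.add_le_add_left (Nat.le_mul_of_pos_left _ this) _

/-- vanishing of the Dirichlet coefficients -/
theorem vanish_pi (s : ℕ → Fin m → ℕ) (n e : ℕ → ℕ) (L : ℕ → ℝ) (hLn : ∀ t, L t = n t)
    (hL : Tendsto L atTop atTop) (v : Fin m → ℕ) (hv : ∀ i, 1 ≤ v i)
    (hs1 : ∀ t i, s t i ≤ v i * n t + e t) (hs2 : ∀ t i, v i * n t ≤ s t i + e t)
    (he : ∀ ε : ℝ, 0 < ε → ∀ᶠ t in (UU : Filter ℕ), (e t : ℝ) ≤ ε * L t)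
    (A : Finset (Fin m →₀ ℕ)) (c : (Fin m →₀ ℕ) → SS L hL) (VK : ℕ → ℕ → ℝ)
    (hVK : ∀ K, rm (VK K) = MvPolynomial.eval₂ (SS L hL).subtype
      (fun i => ∑ k ∈ Finset.range K, omr s i (k + 1)) (poly A c))
    (hsm : ∀ N : ℕ, 1 ≤ N → ∀ᶠ t in (UU : Filter ℕ),
      |VK (18 * N) t| ≤ Real.exp (-(1 * L t)) * ((N : ℝ) ^ (n t))⁻¹) (N : ℕ) :
    MvPolynomial.eval₂ ((algebraMap RR (ArithmeticFunction RR)).comp (SS L hL).subtype)
      (fun i => pwf (v i) (fun k => omr s i k)) (poly A c) N = 0 := by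
  classical
  obtain ⟨F, hF⟩ : ∃ F : ArithmeticFunction RR, F = MvPolynomial.eval₂
    ((algebraMap RR (ArithmeticFunction RR)).comp (SS L hL).subtype)
      (fun i => pwf (v i) (fun k => omr s i k)) (poly A c) := ⟨_, rfl⟩
  rw [← hF]
  induction N using Nat.strong_induction_on with
  | _ N ih =>
  by_cases hN0 : N = 0
  · rw [hN0, ArithmeticFunction.map_zero]
  have hN1 : 1 ≤ N := by omega
  obtain ⟨K, hK⟩ : ∃ K : ℕ, K = 18 * N := ⟨_, rfl⟩
  obtain ⟨Θ, hΘ⟩ : ∃ Θ : MvPolynomial (Fin m × ℕ) (SS L hL), Θ = MvPolynomial.aeval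
    (fun i => ∑ j ∈ Finset.range K,
      (MvPolynomial.X (i, j) : MvPolynomial (Fin m × ℕ) (SS L hL))) (poly A c) := ⟨_, rfl⟩
  -- the value
  have hT : ∑ β ∈ Θ.support, ((MvPolynomial.coeff β Θ : SS L hL) : RR) * Ur s β = rm (VK K) := by
    have h1 := ev_sub (SS L hL).subtype (fun x : Fin m × ℕ => omr s x.1 (x.2 + 1)) K (poly A c)
    rw [← hΘ] at h1
    rw [hVK, ← h1, MvPolynomial.eval₂_eq]
    refine Finset.sum_congr rfl fun β _ => ?_
    rw [Ur_eq]
    rfl
  -- the Dirichlet coefficients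
  have hT' : ∀ M, M ≤ K → M ≠ 0 → F M = ∑ β ∈ Θ.support with Zf v β = M,
        ((MvPolynomial.coeff β Θ : SS L hL) : RR) * Ur s β := by
    intro M hMK hM0
    have h1 := ev_sub ((algebraMap RR (ArithmeticFunction RR)).comp (SS L hL).subtype)
      (fun x : Fin m × ℕ => dl ((x.2 + 1) ^ (v x.1)) (omr s x.1 (x.2 + 1))) K (poly A c)
    rw [← hΘ] at h1
    have h2 := Agr.eval₂ ((algebraMap RR (ArithmeticFunction RR)).comp (SS L hL).subtype) _ _
      (fun i => agr_pwf K (v i) (hv i) (fun k => omr s i k)) (poly A c)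
    rw [hF, ← h2 M hMK]
    have h3 : MvPolynomial.eval₂ ((algebraMap RR (ArithmeticFunction RR)).comp
        (SS L hL).subtype) (fun i => ∑ k ∈ Finset.range K, dl ((k + 1) ^ (v i))
          (omr s i (k + 1))) (poly A c) = MvPolynomial.eval₂
        ((algebraMap RR (ArithmeticFunction RR)).comp (SS L hL).subtype)
        (fun x : Fin m × ℕ => dl ((x.2 + 1) ^ (v x.1)) (omr s x.1 (x.2 + 1))) Θ := h1.symm
    rw [h3, MvPolynomial.eval₂_eq, sum_apply_af, Finset.sum_filter]
    refine Finset.sum_congr rfl fun β _ => ?_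
    have h4 : ∏ x ∈ β.support, (dl ((x.2 + 1) ^ (v x.1)) (omr s x.1 (x.2 + 1)) :
        ArithmeticFunction RR) ^ (β x) = dl (Zf v β) (Ur s β) := by
      rw [Finset.prod_congr rfl fun x _ => dl_pow ((x.2 + 1) ^ (v x.1)) (by positivity)
        (omr s x.1 (x.2 + 1)) (β x), dl_prod _ _ (fun x _ => by positivity), Ur_eq]
      rfl
    rw [h4, RingHom.comp_apply, algebraMap_mul_apply', dl_apply, mul_ite, mul_zero]
    by_cases hβ : Zf v β = M
    · rw [if_pos ⟨hβ.symm, hM0⟩, if_pos hβ]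
      rfl
    · rw [if_neg (fun h => hβ h.1.symm), if_neg hβ]
  -- representing sequences
  have hrep : ∀ β, ∃ κ : ℕ → ℝ, rm κ = ((MvPolynomial.coeff β Θ : SS L hL) : RR) := fun β =>
    rm_surj _
  choose κ hκ using hrep
  have hκm : ∀ β, rm (κ β) ∈ SS L hL := fun β => by rw [hκ]; exact SetLike.coe_mem _
  -- the sum splits
  have hlow : ∑ β ∈ Θ.support with Zf v β < N,
      ((MvPolynomial.coeff β Θ : SS L hL) : RR) * Ur s β = 0 := by
    have h1 : ∀ β ∈ Θ.support.filter (fun β => Zf v β < N), Zf v β ∈ Finset.range N :=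
      fun β hβ => Finset.mem_range.2 (Finset.mem_filter.1 hβ).2
    rw [← Finset.sum_fiberwise_of_maps_to h1]
    refine Finset.sum_eq_zero fun M hM => ?_
    have hMN := Finset.mem_range.1 hM
    rw [Finset.filter_filter]
    by_cases hM0 : M = 0
    · rw [Finset.filter_false_of_mem, Finset.sum_empty]
      rintro β _ ⟨_, h2⟩
      have := Zf_pos v β
      omega
    · rw [← ih M hMN, hT' M (by omega) hM0]
      refine Finset.sum_congr ?_ fun _ _ => rfl
      refine Finset.filter_congr fun β _ => ?_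
      exact ⟨fun h => h.2, fun h => ⟨by omega, h⟩⟩
  have hsplit : F N = rm (VK K) - ∑ β ∈ Θ.support with N < Zf v β,
      ((MvPolynomial.coeff β Θ : SS L hL) : RR) * Ur s β := by
    rw [hT' N (by omega) hN0, ← hT]
    have h1 : ∑ β ∈ Θ.support, ((MvPolynomial.coeff β Θ : SS L hL) : RR) * Ur s β =
        ∑ β ∈ Θ.support with Zf v β < N, ((MvPolynomial.coeff β Θ : SS L hL) : RR) * Ur s β +
        ∑ β ∈ Θ.support with ¬ Zf v β < N, ((MvPolynomial.coeff β Θ : SS L hL) : RR) * Ur s β :=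
      (Finset.sum_filter_add_sum_filter_not _ _ _).symm
    have h2 : ∑ β ∈ Θ.support with ¬ Zf v β < N,
        ((MvPolynomial.coeff β Θ : SS L hL) : RR) * Ur s β =
        ∑ β ∈ (Θ.support.filter fun β => ¬ Zf v β < N) with Zf v β = N,
          ((MvPolynomial.coeff β Θ : SS L hL) : RR) * Ur s β +
        ∑ β ∈ (Θ.support.filter fun β => ¬ Zf v β < N) with ¬ Zf v β = N,
          ((MvPolynomial.coeff β Θ : SS L hL) : RR) * Ur s β :=
      (Finset.sum_filter_add_sum_filter_not _ _ _).symm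
    rw [h1, h2, hlow, Finset.filter_filter, Finset.filter_filter, zero_add]
    have h3 : Θ.support.filter (fun β => ¬ Zf v β < N ∧ Zf v β = N) =
        Θ.support.filter (fun β => Zf v β = N) :=
      Finset.filter_congr fun β _ => ⟨fun h => h.2, fun h => ⟨by omega, h⟩⟩
    have h4 : Θ.support.filter (fun β => ¬ Zf v β < N ∧ ¬ Zf v β = N) =
        Θ.support.filter (fun β => N < Zf v β) :=
      Finset.filter_congr fun β _ => ⟨fun h => by omega, fun h => by omega⟩
    rw [h3, h4, add_sub_cancel_right]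
  -- multiplication by `N ^ (n + e)`
  obtain ⟨y, hy⟩ : ∃ y : ℕ → ℝ, y = fun t => (N : ℝ) ^ (n t + e t) * (VK K t -
      ∑ β ∈ Θ.support with N < Zf v β, κ β t * ((Zf (s t) β : ℕ) : ℝ)⁻¹) := ⟨_, rfl⟩
  have hyF : rm y = rm (fun t => (N : ℝ) ^ (n t + e t)) * F N := by
    rw [hsplit, hy]
    have h1 : ∑ β ∈ Θ.support with N < Zf v β,
        ((MvPolynomial.coeff β Θ : SS L hL) : RR) * Ur s β =
        rm (fun t => ∑ β ∈ Θ.support with N < Zf v β, κ β t * ((Zf (s t) β : ℕ) : ℝ)⁻¹) := by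
      rw [rm_sum]
      refine Finset.sum_congr rfl fun β _ => ?_
      rw [← hκ]
      rfl
    rw [h1, rm_sub, rm_mul]
  have hyS : rm y ∈ SS L hL := by
    rw [hyF, hT' N (by omega) hN0, Finset.mul_sum]
    refine Subring.sum_mem _ fun β hβ => ?_
    have hβN := (Finset.mem_filter.1 hβ).2
    have h1 : rm (fun t => (N : ℝ) ^ (n t + e t)) *
        (((MvPolynomial.coeff β Θ : SS L hL) : RR) * Ur s β) =
        ((MvPolynomial.coeff β Θ : SS L hL) : RR) *
        rm (fun t => ((Wf v (n t + e t) (s t) β : ℤ) : ℝ)) := by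
      have h2 : rm (fun t => (N : ℝ) ^ (n t + e t)) * Ur s β =
          rm (fun t => ((Wf v (n t + e t) (s t) β : ℤ) : ℝ)) := by
        unfold Ur
        rw [rm_mul]
        congr 1
        funext t
        have h3 := Wf_mul v (n t + e t) (s t) β (fun i => by
          have h4 := hs1 t i
          have h5 := Nat.le_mul_of_pos_left (e t) (hv i)
          rw [Nat.mul_add]
          omega)
        rw [hβN] at h3
        have h6 : (0 : ℝ) < (Zf (s t) β : ℕ) := by exact_mod_cast Zf_pos (s t) β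
        rw [← div_eq_mul_inv, div_eq_iff h6.ne']
        have h7 : ((Wf v (n t + e t) (s t) β : ℕ) : ℝ) * ((Zf (s t) β : ℕ) : ℝ) =
            (N : ℝ) ^ (n t + e t) := by exact_mod_cast h3
        rw [← h7]
        push_cast
        rfl
      rw [← h2]
      ring
    rw [h1]
    refine Subring.mul_mem _ (SetLike.coe_mem _) (rm_int_mem hL _ ?_)
    -- the cofactor is negligible
    intro ε hε
    have hlogN : 0 ≤ Real.log N := Real.log_nonneg (by exact_mod_cast hN1)
    have hε' : 0 < ε / (2 * Real.log N + 1) := by positivity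
    filter_upwards [he _ hε', L_nonneg hL] with t ht hLt
    have h2 : Wf v (n t + e t) (s t) β ≤ N ^ (2 * e t) := by
      rw [← hβN]
      refine Wf_le v (n t + e t) (2 * e t) (s t) β fun i => ?_
      have h4 := hs2 t i
      have h5 := Nat.le_mul_of_pos_left (e t) (hv i)
      rw [Nat.mul_add, Nat.mul_left_comm]
      omega
    have h3 : ((Wf v (n t + e t) (s t) β : ℕ) : ℝ) ≤ (N : ℝ) ^ (2 * e t) := by exact_mod_cast h2
    have h4 : |(((Wf v (n t + e t) (s t) β : ℕ) : ℤ) : ℝ)| =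
        ((Wf v (n t + e t) (s t) β : ℕ) : ℝ) := by
      rw [Int.cast_natCast, abs_of_nonneg (Nat.cast_nonneg _)]
    rw [h4]
    refine h3.trans ?_
    have hNpos : (0 : ℝ) < N := by exact_mod_cast hN1
    have e1 : (N : ℝ) ^ (2 * e t) = Real.exp (((2 * e t : ℕ) : ℝ) * Real.log N) := by
      rw [Real.exp_nat_mul, Real.exp_log hNpos]
    rw [e1, Real.exp_le_exp]
    push_cast
    have h5 : (e t : ℝ) * (2 * Real.log N + 1) ≤ ε * L t := by
      rw [div_mul_eq_mul_div, le_div_iff₀ (by positivity)] at ht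
      exact ht
    have h6 : (0 : ℝ) ≤ e t := Nat.cast_nonneg _
    nlinarith
  -- it is small
  have hgap : 0 < Real.log ((N : ℝ) + 1) - Real.log N := by
    have hNpos : (0 : ℝ) < N := by exact_mod_cast hN1
    have := Real.log_lt_log hNpos (by linarith : (N : ℝ) < N + 1)
    linarith
  obtain ⟨g, hg⟩ : ∃ g : ℝ, g = min (Real.log ((N : ℝ) + 1) - Real.log N) 1 := ⟨_, rfl⟩
  have hg0 : 0 < g := by rw [hg]; exact lt_min hgap one_pos
  have hg1 : g ≤ Real.log ((N : ℝ) + 1) - Real.log N := by rw [hg]; exact min_le_left _ _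
  have hg2 : g ≤ 1 := by rw [hg]; exact min_le_right _ _
  have hNpos : (0 : ℝ) < N := by exact_mod_cast hN1
  have hlogN : 0 ≤ Real.log N := Real.log_nonneg (by exact_mod_cast hN1)
  have hlogN1 : 0 ≤ Real.log ((N : ℝ) + 1) := Real.log_nonneg (by linarith)
  have hysm : ∀ᶠ t in (UU : Filter ℕ), |y t| ≤ Real.exp (-(g / 4 * L t)) := by
    have hκe : ∀ᶠ t in (UU : Filter ℕ), ∀ β ∈ Θ.support, |κ β t| ≤ Real.exp (g / 4 * L t) := by
      rw [Finset.eventually_all]
      intro β _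
      exact SS_upper hL _ (hκm β) (by positivity)
    have hε' : 0 < g / (4 * (Real.log N + Real.log ((N : ℝ) + 1) + 1)) := by positivity
    filter_upwards [hκe, hsm N hN1, he _ hε', he 1 one_pos,
      exp_ge hL (1 + (Θ.support.card : ℝ)) (show 0 < g / 4 by positivity), L_nonneg hL] with t
      h1 h2 h3 h3' h4 h5
    have h6 : (e t : ℝ) * (4 * (Real.log N + Real.log ((N : ℝ) + 1) + 1)) ≤ g * L t := by
      rw [div_mul_eq_mul_div, le_div_iff₀ (by positivity)] at h3
      exact h3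
    have he0 : (0 : ℝ) ≤ e t := Nat.cast_nonneg _
    have hen : e t ≤ n t := by
      rw [one_mul, hLn] at h3'
      exact_mod_cast h3'
    -- the first term
    have hA : (N : ℝ) ^ (n t + e t) * |VK K t| ≤ Real.exp (-(3 * g / 4 * L t)) := by
      rw [← hK] at h2
      calc (N : ℝ) ^ (n t + e t) * |VK K t|
          ≤ (N : ℝ) ^ (n t + e t) * (Real.exp (-(1 * L t)) * ((N : ℝ) ^ (n t))⁻¹) :=
            mul_le_mul_of_nonneg_left h2 (by positivity)
        _ = (N : ℝ) ^ (e t) * Real.exp (-(1 * L t)) := by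
            rw [pow_add]
            field_simp
        _ = Real.exp (e t * Real.log N - L t) := by
            have e1 : (N : ℝ) ^ (e t) = Real.exp ((e t : ℝ) * Real.log N) := by
              rw [Real.exp_nat_mul, Real.exp_log hNpos]
            rw [e1, ← Real.exp_add]
            ring_nf
        _ ≤ Real.exp (-(3 * g / 4 * L t)) := by
            rw [Real.exp_le_exp]
            have h7 : g * L t ≤ 1 * L t := mul_le_mul_of_nonneg_right hg2 h5
            nlinarith [mul_nonneg he0 hlogN1, mul_nonneg he0 hlogN]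
    -- the other terms
    have hB : ∀ β ∈ Θ.support.filter (fun β => N < Zf v β),
        |(N : ℝ) ^ (n t + e t) * (κ β t * ((Zf (s t) β : ℕ) : ℝ)⁻¹)| ≤
          Real.exp (-(g / 2 * L t)) := by
      intro β hβ
      obtain ⟨hβs, hβN⟩ := Finset.mem_filter.1 hβ
      have h7 := Zf_ge v hv (n t) (e t) (s t) β (hs2 t)
      have h8 : (0 : ℝ) < (Zf (s t) β : ℕ) := by exact_mod_cast Zf_pos (s t) β
      have h9 : ((Zf v β : ℕ) : ℝ) ^ (n t) ≤ ((Zf (s t) β : ℕ) : ℝ) * ((Zf v β : ℕ) : ℝ) ^ (e t) := by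
        exact_mod_cast h7
      have h10 : (0 : ℝ) < (Zf v β : ℕ) := by exact_mod_cast Zf_pos v β
      have h11 : (N : ℝ) + 1 ≤ (Zf v β : ℕ) := by exact_mod_cast hβN
      have h12 : ((N : ℝ) + 1) ^ (n t - e t) ≤ ((Zf (s t) β : ℕ) : ℝ) := by
        have h13 : ((Zf v β : ℕ) : ℝ) ^ (n t - e t) * ((Zf v β : ℕ) : ℝ) ^ (e t) =
            ((Zf v β : ℕ) : ℝ) ^ (n t) := by
          rw [← pow_add, Nat.sub_add_cancel hen]
        rw [← h13] at h9
        have h14 := le_of_mul_le_mul_right h9 (by positivity)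
        exact (pow_le_pow_left₀ (by positivity) h11 _).trans h14
      have h15 : ((Zf (s t) β : ℕ) : ℝ)⁻¹ ≤ (((N : ℝ) + 1) ^ (n t - e t))⁻¹ :=
        inv_anti₀ (by positivity) h12
      have h16 : (((N : ℝ) + 1) ^ (n t - e t))⁻¹ =
          Real.exp (-((n t - e t) * Real.log ((N : ℝ) + 1))) := by
        rw [Real.exp_neg, ← Nat.cast_sub hen, Real.exp_nat_mul, Real.exp_log (by positivity)]
      have h17 : (N : ℝ) ^ (n t + e t) = Real.exp ((n t + e t) * Real.log N) := by
        rw [← Nat.cast_add, Real.exp_nat_mul, Real.exp_log hNpos]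
      rw [abs_mul, abs_mul, abs_of_pos (by positivity : (0 : ℝ) < (N : ℝ) ^ (n t + e t)),
        abs_of_pos (inv_pos.2 h8)]
      calc (N : ℝ) ^ (n t + e t) * (|κ β t| * ((Zf (s t) β : ℕ) : ℝ)⁻¹)
          ≤ Real.exp ((n t + e t) * Real.log N) * (Real.exp (g / 4 * L t) *
            Real.exp (-((n t - e t) * Real.log ((N : ℝ) + 1)))) := by
            rw [h17]
            refine mul_le_mul_of_nonneg_left ?_ (Real.exp_pos _).le
            refine mul_le_mul (h1 β hβs) ?_ (inv_nonneg.2 h8.le) (Real.exp_pos _).le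
            rw [← h16]
            exact h15
        _ = Real.exp ((n t + e t) * Real.log N + (g / 4 * L t -
            (n t - e t) * Real.log ((N : ℝ) + 1))) := by
            rw [← Real.exp_add, ← Real.exp_add]
            ring_nf
        _ ≤ Real.exp (-(g / 2 * L t)) := by
            rw [Real.exp_le_exp, ← hLn]
            have h18 : g * L t ≤ (Real.log ((N : ℝ) + 1) - Real.log N) * L t :=
              mul_le_mul_of_nonneg_right hg1 h5
            nlinarith [mul_nonneg he0 hlogN1, mul_nonneg he0 hlogN]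
    have hy' : y t = (N : ℝ) ^ (n t + e t) * VK K t - ∑ β ∈ Θ.support with N < Zf v β,
        (N : ℝ) ^ (n t + e t) * (κ β t * ((Zf (s t) β : ℕ) : ℝ)⁻¹) := by
      rw [hy]
      simp only
      rw [mul_sub, Finset.mul_sum]
    have hC : |∑ β ∈ Θ.support with N < Zf v β,
        (N : ℝ) ^ (n t + e t) * (κ β t * ((Zf (s t) β : ℕ) : ℝ)⁻¹)| ≤
        (Θ.support.card : ℝ) * Real.exp (-(g / 2 * L t)) := by
      refine (Finset.abs_sum_le_sum_abs _ _).trans ((Finset.sum_le_card_nsmul _ _ _ hB).trans ?_)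
      rw [nsmul_eq_mul]
      refine mul_le_mul_of_nonneg_right ?_ (Real.exp_pos _).le
      exact_mod_cast Finset.card_le_card (Finset.filter_subset _ _)
    rw [hy']
    refine (abs_sub _ _).trans ?_
    rw [abs_mul, abs_of_pos (by positivity : (0 : ℝ) < (N : ℝ) ^ (n t + e t))]
    have hA' : Real.exp (-(3 * g / 4 * L t)) ≤ Real.exp (-(g / 2 * L t)) := by
      rw [Real.exp_le_exp]
      nlinarith [mul_nonneg hg0.le h5]
    calc (N : ℝ) ^ (n t + e t) * |VK K t| + |∑ β ∈ Θ.support with N < Zf v β,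
          (N : ℝ) ^ (n t + e t) * (κ β t * ((Zf (s t) β : ℕ) : ℝ)⁻¹)|
        ≤ Real.exp (-(g / 2 * L t)) + (Θ.support.card : ℝ) * Real.exp (-(g / 2 * L t)) :=
          add_le_add (hA.trans hA') hC
      _ = (1 + (Θ.support.card : ℝ)) * Real.exp (-(g / 2 * L t)) := by ring
      _ ≤ Real.exp (g / 4 * L t) * Real.exp (-(g / 2 * L t)) :=
          mul_le_mul_of_nonneg_right h4 (Real.exp_pos _).le
      _ = Real.exp (-(g / 4 * L t)) := by
          rw [← Real.exp_add]
          ring_nf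
  -- so it vanishes
  have hy0 : rm y = 0 := by
    by_contra hne
    obtain ⟨t, h1, h2, h3⟩ := ((SS_lower hL y hyS hne (show 0 < g / 8 by positivity)).and
      (hysm.and (ev_of_atTop (hL.eventually_gt_atTop 0)))).exists
    have h4 := h1.trans h2
    rw [Real.exp_le_exp] at h4
    nlinarith
  rw [hyF, mul_eq_zero] at hy0
  rcases hy0 with h | h
  · exfalso
    rw [← rm_zero, rm_eq] at h
    obtain ⟨t, ht⟩ := h.exists
    have : (0 : ℝ) < (N : ℝ) ^ (n t + e t) := by positivity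
    linarith
  · exact h

end

end Pool.Agent.H298Y
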