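import Pool.Agent.H298Y.ConeAny

/-!
# Tuples whose ratios are bounded in terms of the later ratios, coefficients of exponential size
-/

set_option autoImplicit false

namespace Pool.Agent.H298Y

open Filter Topology

/-- **The tail theorem.** Arguments in decreasing order; every ratio is bounded in terms of each
ratio of larger arguments. Coefficients of arbitrary exponential size. -/
theorem tail_any (m : ℕ) : ∀ (D : ℕ) (φ : ℕ → ℕ) (a : ℝ), 0 ≤ a → ∃ C : ℝ, 0 < C ∧ ∃ n0 : ℕ,
    ∀ n S : ℕ, n0 ≤ n → n ≤ S → ∀ s : Fin m → ℕ, StrictAnti s → (∀ i, n ≤ s i) →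
    (∀ i, s i ≤ S) →
    (∀ i j k l : Fin m, (i : ℕ) + 1 = j → j ≤ k → (k : ℕ) + 1 = l → s k ≤ φ (s i / s j) * s l) →
    ∀ P : MvPolynomial (Fin m) ℤ, P ≠ 0 → P.totalDegree ≤ D →
    (∀ α, |((P.coeff α : ℤ) : ℝ)| ≤ Real.exp (a * n)) →
    Real.exp (-(C * S)) < |MvPolynomial.aeval (fun i => zt (s i)) P| := by
  classical
  induction m with
  | zero =>
    intro D φ a ha
    refine ⟨1, one_pos, 1, ?_⟩
    intro n S hn hS s _ _ _ _ P hP0 _ _
    obtain ⟨b, rfl⟩ : ∃ b : ℤ, P = MvPolynomial.C b := ⟨_, MvPolynomial.eq_C_of_isEmpty P⟩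
    have hb : b ≠ 0 := fun h => hP0 (by rw [h, map_zero])
    rw [MvPolynomial.aeval_C]
    have h1 : (1 : ℝ) ≤ |(algebraMap ℤ ℝ) b| := by
      have := Int.one_le_abs hb
      rw [algebraMap_int_eq, eq_intCast]
      exact_mod_cast this
    refine lt_of_lt_of_le ?_ h1
    rw [Real.exp_lt_one_iff]
    have : (1 : ℝ) ≤ S := by exact_mod_cast hn.trans hS
    linarith
  | succ m ih =>
    intro D φ a ha
    rcases m with _ | m
    · -- one argument
      obtain ⟨C, hC, n0, h⟩ := cone_any 1 D 1 a
      refine ⟨C, hC, n0, ?_⟩
      intro n S hn hS s hs hsn hsS _ P hP0 hPD hPH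
      have h1 := h (s 0) (hn.trans (hsn 0)) s hs.injective
        (fun i => by rw [Subsingleton.elim i 0]) (fun i => by rw [Subsingleton.elim i 0, one_mul])
        P hP0 hPD (fun α => (hPH α).trans (by
          rw [Real.exp_le_exp]
          exact mul_le_mul_of_nonneg_left (by exact_mod_cast hsn 0) ha))
      refine lt_of_le_of_lt ?_ h1
      rw [Real.exp_le_exp, neg_le_neg_iff]
      exact mul_le_mul_of_nonneg_left (by exact_mod_cast hsS 0) hC.le
    · -- at least two arguments
      obtain ⟨E, hE, hadj⟩ := adjoin (m + 1) D (zt 2) t5_one_le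
      have hE0 : 0 < E := by linarith
      have hlE : 0 ≤ Real.log E := Real.log_nonneg hE
      obtain ⟨δ1, hδ1e⟩ : ∃ δ1 : ℝ, δ1 = a + Real.log E := ⟨_, rfl⟩
      have hδ1 : 0 ≤ δ1 := by rw [hδ1e]; linarith
      obtain ⟨C1, hC1, n1, h1⟩ := ih D φ δ1 hδ1
      obtain ⟨W, hW⟩ : ∃ W : ℝ, W = 2 * (1 + 4 * zt 2) := ⟨_, rfl⟩
      have hz2 := t5_one_le
      have hW0 : 0 < W := by rw [hW]; linarith
      -- the threshold of the ratio
      have hlog2 : 0 < Real.log 2 := Real.log_pos (by norm_num)
      obtain ⟨R', hR'⟩ := exists_nat_ge (max 1 ((δ1 + C1 + W) / Real.log 2))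
      have hR1 : 1 ≤ R' := by
        have := (le_max_left _ _).trans hR'
        exact_mod_cast this
      have hR2 : δ1 + C1 + W ≤ R' * Real.log 2 := by
        have := (le_max_right _ _).trans hR'
        rwa [div_le_iff₀ hlog2] at this
      obtain ⟨M, hM⟩ : ∃ M : ℕ, M = (Finset.range (R' + 1)).sup φ + 1 := ⟨_, rfl⟩
      have hMφ : ∀ x, x ≤ R' → φ x ≤ M := by
        intro x hx
        rw [hM]
        exact (Finset.le_sup (f := φ) (Finset.mem_range.2 (by omega : x < R' + 1))).trans
          (Nat.le_succ _)
      have hM1 : 1 ≤ M := by rw [hM]; omega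
      obtain ⟨C2, hC2, n2, h2⟩ := cone_any (m + 2) D (R' * M ^ (m + 1)) a
      refine ⟨C1 + D + 2 + C2, by positivity, max (max n1 n2) 2, ?_⟩
      intro n S hn hS s hs hsn hsS hφ P hP0 hPD hPH
      have hnn1 : n1 ≤ n := by omega
      have hnn2 : n2 ≤ n := by omega
      have hnn4 : 2 ≤ n := by omega
      have hS1 : (1 : ℝ) ≤ S := by
        have : 1 ≤ S := by omega
        exact_mod_cast this
      by_cases hcase : R' * s 1 ≤ s 0
      · -- the largest argument dominates
        have hs01 : 2 ≤ s 0 := hnn4.trans (hsn 0)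
        obtain ⟨hx1, hx2⟩ := zt_sub (s 0) hs01
        obtain ⟨x, hx⟩ : ∃ x, x = zt (s 0) - 1 := ⟨_, rfl⟩
        rw [← hx] at hx1 hx2
        have hxpos : 0 < x := lt_of_lt_of_le (by positivity) hx1
        have hn1S : (n : ℝ) ≤ s 1 := by exact_mod_cast hsn 1
        have hs1 : (1 : ℝ) ≤ s 1 := by
          have h3 := hsn 1
          have : 1 ≤ s 1 := by omega
          exact_mod_cast this
        have hs1S : (s 1 : ℝ) ≤ S := by exact_mod_cast hsS 1
        have hs0S : (s 0 : ℝ) ≤ S := by exact_mod_cast hsS 0
        -- `2 ^ (-s 0)` is small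
        have hpow : W * Real.exp (δ1 * n) * ((2 : ℝ) ^ (s 0))⁻¹ ≤ Real.exp (-(C1 * s 1)) := by
          have h3 : (2 : ℝ) ^ (s 0) = Real.exp (s 0 * Real.log 2) := by
            rw [Real.exp_nat_mul, Real.exp_log (by norm_num)]
          have h4 : W ≤ Real.exp (W * s 1) := by
            have h5 := Real.add_one_le_exp (W * (s 1 : ℝ))
            have h6 : W * 1 ≤ W * s 1 := mul_le_mul_of_nonneg_left hs1 hW0.le
            linarith
          rw [h3, ← Real.exp_neg]
          calc W * Real.exp (δ1 * n) * Real.exp (-(s 0 * Real.log 2))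
              ≤ Real.exp (W * s 1) * Real.exp (δ1 * s 1) *
                Real.exp (-(R' * s 1 * Real.log 2)) := by
                have h7 : ((R' : ℝ)) * s 1 ≤ s 0 := by exact_mod_cast hcase
                have h8 : Real.exp (-(s 0 * Real.log 2)) ≤
                    Real.exp (-(R' * s 1 * Real.log 2)) := by
                  rw [Real.exp_le_exp, neg_le_neg_iff]
                  exact mul_le_mul_of_nonneg_right h7 hlog2.le
                have h9 : Real.exp (δ1 * n) ≤ Real.exp (δ1 * s 1) := by
                  rw [Real.exp_le_exp]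
                  exact mul_le_mul_of_nonneg_left hn1S hδ1
                gcongr
            _ = Real.exp ((W + δ1 - R' * Real.log 2) * s 1) := by
                rw [← Real.exp_add, ← Real.exp_add]
                ring_nf
            _ ≤ Real.exp (-(C1 * s 1)) := by
                rw [Real.exp_le_exp]
                have h10 : W + δ1 - R' * Real.log 2 ≤ -C1 := by linarith
                have := mul_le_mul_of_nonneg_right h10 (by linarith : (0 : ℝ) ≤ s 1)
                linarith
        have hEx : E * Real.exp (a * n) ≤ Real.exp (δ1 * n) := by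
          have hn1 : (1 : ℝ) ≤ n := by
            have : 1 ≤ n := by omega
            exact_mod_cast this
          have h3 : E ≤ Real.exp (Real.log E * n) := by
            rw [← Real.log_le_iff_le_exp hE0]
            exact le_mul_of_one_le_right hlE hn1
          calc E * Real.exp (a * n)
              ≤ Real.exp (Real.log E * n) * Real.exp (a * n) :=
                mul_le_mul_of_nonneg_right h3 (Real.exp_pos _).le
            _ = Real.exp (δ1 * n) := by rw [← Real.exp_add, hδ1e]; ring_nf
        have hxle : x ≤ 1 := by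
          have h3 : (1 + 4 * zt 2) * ((2 : ℝ) ^ (s 0))⁻¹ * 2 ≤ 1 := by
            have h4 : Real.exp (-(C1 * s 1)) ≤ 1 := by
              rw [Real.exp_le_one_iff]
              have : 0 ≤ C1 * (s 1 : ℝ) := by positivity
              linarith
            have h5 : (1 : ℝ) ≤ Real.exp (δ1 * n) := by
              rw [Real.one_le_exp_iff]
              positivity
            have h6 : W * ((2 : ℝ) ^ (s 0))⁻¹ ≤ W * Real.exp (δ1 * n) * ((2 : ℝ) ^ (s 0))⁻¹ := by
              refine mul_le_mul_of_nonneg_right ?_ (by positivity)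
              exact le_mul_of_one_le_right hW0.le h5
            rw [hW] at h6 hpow
            nlinarith
          have h4 : 0 ≤ (1 + 4 * zt 2) * ((2 : ℝ) ^ (s 0))⁻¹ := by positivity
          linarith
        have hy : ∀ i : Fin (m + 1), |zt (s i.succ)| ≤ zt 2 := by
          intro i
          have h3 : 2 ≤ s i.succ := hnn4.trans (hsn _)
          have h4 := (zt_sub _ h3).1
          have h5 : 0 ≤ ((2 : ℝ) ^ (s i.succ))⁻¹ := by positivity
          rw [abs_of_nonneg (by linarith)]
          exact t5_zt_le _ h3
        have hle1 : ∀ i : Fin (m + 1), s i.succ ≤ s 1 := by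
          intro i
          refine hs.antitone ?_
          rw [Fin.le_def]
          simp
        have key := hadj (fun i => zt (s i.succ)) x P (Real.exp (a * n))
          (Real.exp (-(C1 * s 1))) (Real.exp_pos _).le hy hxpos hxle hP0 hPD hPH (by
            intro Q hQ0 hQD hQH
            refine (h1 n (s 1) hnn1 (hsn 1) (fun i => s i.succ)
              (hs.comp_strictMono (Fin.strictMono_succ)) (fun i => hsn _) hle1 ?_ Q hQ0 hQD
              (fun α => (hQH α).trans hEx)).le
            intro i j k l hij hjk hkl
            exact hφ i.succ j.succ k.succ l.succ (by simp [hij]) (by simpa using hjk)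
              (by simp [hkl])) (by
            calc E * Real.exp (a * n) * x
                ≤ Real.exp (δ1 * n) * ((1 + 4 * zt 2) * ((2 : ℝ) ^ (s 0))⁻¹) :=
                  mul_le_mul hEx hx2 hxpos.le (Real.exp_pos _).le
              _ = (W * Real.exp (δ1 * n) * ((2 : ℝ) ^ (s 0))⁻¹) / 2 := by rw [hW]; ring
              _ ≤ Real.exp (-(C1 * s 1)) / 2 := by linarith)
        have hcons : (Fin.cons (1 + x) (fun i : Fin (m + 1) => zt (s i.succ)) :
            Fin (m + 2) → ℝ) = fun i => zt (s i) := by
          funext i
          refine Fin.cases ?_ (fun i => ?_) i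
          · rw [Fin.cons_zero, hx]
            ring
          · rw [Fin.cons_succ]
        rw [hcons] at key
        refine lt_of_lt_of_le ?_ key
        -- the final comparison
        have h3 : Real.exp (-(D * (S : ℝ))) ≤ x ^ D := by
          have h4 : Real.exp (-(s 0 : ℝ)) ≤ x := by
            refine le_trans ?_ hx1
            rw [Real.exp_neg]
            refine inv_anti₀ (by positivity) ?_
            have h5 : Real.exp (s 0 : ℝ) = Real.exp 1 ^ (s 0) := by
              rw [← Real.exp_nat_mul, mul_one]
            rw [h5]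
            exact pow_le_pow_left₀ (by norm_num) (by linarith [Real.add_one_le_exp (1 : ℝ)]) _
          calc Real.exp (-(D * (S : ℝ))) ≤ Real.exp (-(s 0 : ℝ)) ^ D := by
                rw [← Real.exp_nat_mul, Real.exp_le_exp]
                have := mul_le_mul_of_nonneg_left hs0S (Nat.cast_nonneg (α := ℝ) D)
                linarith
            _ ≤ x ^ D := pow_le_pow_left₀ (Real.exp_pos _).le h4 _
        have h4 : Real.exp (-(C1 * S + 1)) < Real.exp (-(C1 * s 1)) / 2 := by
          have h5 : Real.exp (-(C1 * S + 1)) = Real.exp (-(C1 * S)) * (Real.exp 1)⁻¹ := by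
            rw [← Real.exp_neg, ← Real.exp_add]
            ring_nf
          have h6 : Real.exp (-(C1 * S)) ≤ Real.exp (-(C1 * s 1)) := by
            rw [Real.exp_le_exp, neg_le_neg_iff]
            exact mul_le_mul_of_nonneg_left hs1S hC1.le
          have h7 : (Real.exp 1)⁻¹ < 2⁻¹ :=
            inv_strictAnti₀ (by norm_num) (by linarith [Real.exp_one_gt_d9])
          rw [h5, div_eq_mul_inv]
          exact lt_of_le_of_lt (mul_le_mul_of_nonneg_right h6 (by positivity))
            (mul_lt_mul_of_pos_left h7 (Real.exp_pos _))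
        calc Real.exp (-((C1 + D + 2 + C2) * S))
            ≤ Real.exp (-(C1 * S + 1)) * Real.exp (-(D * (S : ℝ))) := by
              rw [← Real.exp_add, Real.exp_le_exp]
              have : 0 ≤ C2 * (S : ℝ) := by positivity
              nlinarith
          _ < Real.exp (-(C1 * s 1)) / 2 * Real.exp (-(D * (S : ℝ))) :=
              mul_lt_mul_of_pos_right h4 (Real.exp_pos _)
          _ ≤ Real.exp (-(C1 * s 1)) / 2 * x ^ D :=
              mul_le_mul_of_nonneg_left h3 (by positivity)
      · -- all arguments in a cone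
        push Not at hcase
        have hs1pos : 0 < s 1 := by have := hsn 1; omega
        have hdiv : s 0 / s 1 ≤ R' := by
          refine Nat.div_le_of_le_mul ?_
          rw [mul_comm]
          exact hcase.le
        have key : ∀ j (hj : j < m + 2), s 0 ≤ R' * M ^ j * s ⟨j, hj⟩ := by
          intro j
          induction j with
          | zero =>
            intro hj
            rw [pow_zero, mul_one]
            exact Nat.le_mul_of_pos_left _ hR1
          | succ j ihj =>
            intro hj
            rcases j with _ | j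
            · calc s 0 ≤ R' * s 1 := hcase.le
                _ ≤ R' * M ^ 1 * s 1 := by
                  rw [pow_one]
                  exact Nat.mul_le_mul_right _ (Nat.le_mul_of_pos_right _ hM1)
                _ = _ := rfl
            · have h3 := ihj (by omega)
              have h4 := hφ 0 1 ⟨j + 1, by omega⟩ ⟨j + 2, hj⟩ (by simp)
                (by rw [Fin.le_def]; simp) rfl
              calc s 0 ≤ R' * M ^ (j + 1) * s ⟨j + 1, by omega⟩ := h3
                _ ≤ R' * M ^ (j + 1) * (M * s ⟨j + 2, hj⟩) :=
                  Nat.mul_le_mul_left _ (h4.trans (Nat.mul_le_mul_right _ (hMφ _ hdiv)))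
                _ = R' * M ^ (j + 1 + 1) * s ⟨j + 1 + 1, hj⟩ := by ring
        have hlast := key (m + 1) (by omega)
        have h3 := h2 (s ⟨m + 1, by omega⟩) (hnn2.trans (hsn _)) s hs.injective
          (fun i => hs.antitone (by rw [Fin.le_def]; exact Nat.le_of_lt_succ i.2))
          (fun i => (hs.antitone (Fin.zero_le i)).trans hlast) P hP0 hPD
          (fun α => (hPH α).trans (by
            rw [Real.exp_le_exp]
            have h4 : (n : ℝ) ≤ s ⟨m + 1, by omega⟩ := by exact_mod_cast hsn _
            exact mul_le_mul_of_nonneg_left h4 ha))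
        refine lt_of_le_of_lt ?_ h3
        rw [Real.exp_le_exp, neg_le_neg_iff]
        have h4 : (s ⟨m + 1, by omega⟩ : ℝ) ≤ S := by exact_mod_cast hsS _
        have h5 : C2 * (s ⟨m + 1, by omega⟩ : ℝ) ≤ C2 * S := mul_le_mul_of_nonneg_left h4 hC2.le
        have h6 : 0 ≤ (C1 + D + 2) * (S : ℝ) := by positivity
        linarith

end Pool.Agent.H298Y
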